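import Pool.Agent.MP_6a6613_co.Stmts

/-! Pinched cylinders swept out by a sequence of flips. -/

namespace Pool.Agent.MP_6a6613_co

open Set

namespace ArcAux

variable {V : Type} [Fintype V] [DecidableEq V]

omit [DecidableEq V] in
theorem base {K : Set (Finset V)} (hK : Down K) : Arc K K K := by
  refine ⟨fun p => (p, 0), fun q => q.1, fun p => p, fun p => p, fun _ => 0,
    ⟨by fun_prop, by fun_prop, fun p hp => ⟨hp, le_rfl, le_rfl⟩, fun q hq => hq.1,
      fun _ _ => rfl, fun q hq => ?_, hK.smul, fun p _ t _ => by simp⟩,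
    HH.refl hK.smul, continuousOn_const, fun _ _ => le_rfl, fun _ _ _ _ => by simp,
    Subset.rfl, Subset.rfl, fun _ _ => rfl, fun _ _ => rfl⟩
  exact Prod.ext rfl (le_antisymm hq.2.1 hq.2.2)

omit [Fintype V] in
theorem mn_fl {σ τ : Finset V} (hd : Disjoint σ τ) (hσ : σ.Nonempty) (q : V → ℝ) :
    mn σ (fl τ σ q) = mn σ q + mn τ q :=
  mn_add hσ fun v hv => by
    simp [fl_apply, hv, Finset.disjoint_left.1 hd hv]

theorem fl_mem {K : Set (Finset V)} {σ τ G : Finset V} (h : FC K σ τ) (hG : G ∈ K) (hσ : σ ⊆ G)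
    {q : V → ℝ} (hq : ∀ v, 0 ≤ q v) (hs : supp q ⊆ G ∪ τ) : fl τ σ q ∈ Cn K := by
  have hd := Finset.disjoint_left.1 h.disj
  have h0 := mn_nonneg τ hq
  obtain ⟨t, ht, e⟩ := exists_mn h.nτ q
  refine ⟨fun v => ?_, h.down _ (h.link G hG hσ t ht) _ fun v hv => ?_⟩
  · rw [fl_apply]
    by_cases a : v ∈ τ
    · have b : v ∉ σ := fun b => hd b a
      simp only [a, b, if_true, if_false]; linarith [mn_le q a]
    · have := hq v
      simp only [a, if_false]; split_ifs <;> linarith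
  · rw [mem_supp, fl_apply] at hv
    refine Finset.mem_erase.2 ⟨fun e' => hv ?_, ?_⟩
    · have b : t ∉ σ := fun b => hd b ht
      simp [e', ht, b, e]
    · by_cases a : v ∈ τ
      · exact Finset.mem_union_right _ a
      · by_cases b : v ∈ σ
        · exact Finset.mem_union_left _ (hσ b)
        · exact hs (mem_supp.2 (by simpa [a, b] using hv))

theorem step {K0 Ω K : Set (Finset V)} {σ τ : Finset V} (hA : Arc K0 Ω K) (h : FC K σ τ)
    (hΩ : Down Ω) (hτ : ∀ F ∈ Ω, ¬ τ ⊆ F) :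
    Arc K0 (Ω ∪ {F | ∃ G ∈ K, σ ⊆ G ∧ F ⊆ G ∪ τ}) (flip K σ τ) := by
  obtain ⟨Ψ, Ψ', π, π', len, hΨ, hπ, hlc, hl0, hls, hK0, hK, e0, e1⟩ := hA
  have hd := Finset.disjoint_left.1 h.disj
  set B : Set (Finset V) := {F | ∃ G ∈ K, σ ⊆ G ∧ F ⊆ G ∪ τ} with hB
  have hBd : Down B := fun F ⟨G, a, b, c⟩ F' hF' => ⟨G, a, b, hF'.trans c⟩
  have hD : Down (Ω ∪ B) := hΩ.union hBd
  have fixΩ : ∀ q ∈ Cn Ω, mn τ q = 0 ∧ fl τ σ q = q := fun q hq =>
    ⟨mn_zero hq.1 (hτ _ hq.2), fl_fix σ hq.1 (hτ _ hq.2)⟩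
  have flB : ∀ q ∈ Cn B, fl τ σ q ∈ Cn K := fun q hq =>
    let ⟨_, a, b, c⟩ := hq.2; fl_mem h a b hq.1 c
  have flΩ : MapsTo (fl τ σ) (Cn (Ω ∪ B)) (Cn Ω) := by
    intro q hq
    rw [Cn_union] at hq
    rcases hq with hq | hq
    · rw [(fixΩ q hq).2]; exact hq
    · exact Cn_mono hK (flB q hq)
  have top : ∀ y ∈ Cn K0, Ψ' (y, len y) = π' y := by
    intro y hy
    have a := hπ.mg hy
    have b := e1 _ a
    rw [hπ.fg y hy] at b
    rw [← b, hΨ.gf _ (Cn_mono hK a)]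
  have hm0 : ∀ y ∈ Cn K0, 0 ≤ mn σ (π' y) := fun y hy => mn_nonneg σ (hπ.mg hy).1
  -- the upper part of the new cylinder
  have upper : ∀ y ∈ Cn K0, ∀ s : ℝ, 0 < s → s ≤ mn σ (π' y) →
      π' y + s • (ind τ - ind σ) ∈ Cn B ∧ mn τ (π' y + s • (ind τ - ind σ)) = s ∧
        fl τ σ (π' y + s • (ind τ - ind σ)) = π' y := by
    intro y hy s hs hs'
    have a := hπ.mg hy
    have hσ : σ ⊆ supp (π' y) := sub_of_mn_pos (hs.trans_le hs')
    have m : mn τ (π' y + s • (ind τ - ind σ)) = s := by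
      rw [mn_add (p := π' y) (c := s) h.nτ fun v hv => by
        simp [ind, hv, show v ∉ σ from fun b => hd b hv], mn_zero a.1 (h.new _ a.2), zero_add]
    refine ⟨⟨fun v => ?_, _, a.2, hσ, fun v hv => ?_⟩, m, ?_⟩
    · have := a.1 v
      by_cases b : v ∈ σ
      · have := mn_le (π' y) b
        simp [ind, b, hd b]; linarith
      · by_cases c : v ∈ τ
        · simp [ind, b, c]; linarith
        · simpa [ind, b, c] using this
    · by_cases c : v ∈ τ
      · exact Finset.mem_union_right _ c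
      · by_cases b : v ∈ σ
        · exact Finset.mem_union_left _ (hσ b)
        · exact Finset.mem_union_left _ (by simpa [ind, b, c] using hv)
    · rw [fl, m]
      module
  have hmin : ∀ q : (V → ℝ) × ℝ, q.1 ∈ Cn K0 → 0 ≤ q.2 →
      (q.1, min q.2 (len q.1)) ∈ {q : (V → ℝ) × ℝ | q.1 ∈ Cn K0 ∧ 0 ≤ q.2 ∧ q.2 ≤ len q.1} :=
    fun q a b => ⟨a, le_min b (hl0 _ a), min_le_right _ _⟩
  refine ⟨fun q => Ψ (fl τ σ q) + (0, mn τ q),
    fun q => Ψ' (q.1, min q.2 (len q.1)) + max (q.2 - len q.1) 0 • (ind τ - ind σ),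
    fun p => π (fl τ σ p), fun y => fl σ τ (π' y), fun y => len y + mn σ (π' y),
    ⟨?_, ?_, ?_, ?_, ?_, ?_, hD.smul, ?_⟩, h.hh.symm.trans hπ,
    hlc.add ((continuous_mn σ).comp_continuousOn hπ.cg),
    fun y hy => add_nonneg (hl0 y hy) (hm0 y hy), fun y hy t ht => ?_,
    hK0.trans subset_union_left, ?_, fun y hy => ?_, fun p hp => ?_⟩
  · exact (hΨ.cf.comp (continuous_fl τ σ).continuousOn flΩ).add
      (continuous_const.prodMk (continuous_mn τ)).continuousOn
  · have hl : ContinuousOn (fun q : (V → ℝ) × ℝ => len q.1)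
        {q | q.1 ∈ Cn K0 ∧ 0 ≤ q.2 ∧ q.2 ≤ len q.1 + mn σ (π' q.1)} :=
      hlc.comp continuousOn_fst fun _ hq => hq.1
    refine (hΨ.cg.comp (continuousOn_fst.prodMk (continuousOn_snd.inf hl))
      fun q hq => hmin q hq.1 hq.2.1).add ?_
    exact ((continuousOn_snd.sub hl).sup continuousOn_const).smul continuousOn_const
  · intro q hq
    rw [Cn_union] at hq
    rcases hq with hq | hq
    · obtain ⟨a, b⟩ := fixΩ q hq
      obtain ⟨c1, c2, c3⟩ := hΨ.mf hq
      simp only [a, b, mem_ofPred_eq, Prod.fst_add, Prod.snd_add, add_zero]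
      exact ⟨c1, c2, c3.trans (le_add_of_nonneg_right (hm0 _ c1))⟩
    · have a := flB q hq
      have b := hπ.mf a
      simp only [e1 _ a, mem_ofPred_eq, Prod.fst_add, Prod.snd_add, add_zero, hπ.gf _ a,
        mn_fl h.disj h.nσ]
      exact ⟨b, add_nonneg (hl0 _ b) (mn_nonneg τ hq.1), by linarith [mn_nonneg σ hq.1]⟩
  · rintro ⟨y, t⟩ ⟨hy, ht, ht'⟩
    rw [Cn_union]
    rcases le_or_gt t (len y) with c | c
    · left
      simp only [max_eq_right (sub_nonpos.2 c), zero_smul, add_zero]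
      exact hΨ.mg (hmin (y, t) hy ht)
    · right
      simp only [max_eq_left (sub_pos.2 c).le, min_eq_right c.le, top y hy]
      exact (upper y hy _ (sub_pos.2 c) (by dsimp only at ht'; linarith)).1
  · intro q hq
    rw [Cn_union] at hq
    rcases hq with hq | hq
    · obtain ⟨a, b⟩ := fixΩ q hq
      obtain ⟨c1, c2, c3⟩ := hΨ.mf hq
      simp only [a, b, Prod.fst_add, Prod.snd_add, add_zero, min_eq_left c3,
        max_eq_right (sub_nonpos.2 c3), zero_smul, Prod.mk.eta, hΨ.gf q hq]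
    · have a := flB q hq
      have b := hπ.mf a
      have c := mn_nonneg τ hq.1
      simp only [e1 _ a, Prod.fst_add, Prod.snd_add, add_zero,
        min_eq_right (le_add_of_nonneg_right c), add_sub_cancel_left, max_eq_left c, top _ b,
        hπ.gf _ a]
      rw [fl]
      module
  · rintro ⟨y, t⟩ ⟨hy, ht, ht'⟩
    rcases le_or_gt t (len y) with c | c
    · have a := hΨ.mg (hmin (y, t) hy ht)
      simp only [min_eq_left c] at a
      obtain ⟨a1, a2⟩ := fixΩ _ a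
      simp only [max_eq_right (sub_nonpos.2 c), zero_smul, add_zero, min_eq_left c, a1, a2]
      rw [hΨ.fg _ ⟨hy, ht, c⟩]
      simp
    · obtain ⟨-, a1, a2⟩ := upper y hy _ (sub_pos.2 c) (by dsimp only at ht'; linarith)
      simp only [max_eq_left (sub_pos.2 c).le, min_eq_right c.le, top y hy, a1, a2,
        e1 _ (hπ.mg hy), hπ.fg y hy]
      simp
  · intro q hq t ht
    simp only [fl_smul τ σ q ht, hΨ.hf _ (flΩ hq) t ht, mn_smul τ q ht, smul_add, Prod.smul_mk,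
      smul_zero, smul_eq_mul]
  · simp only [hls y hy t ht, hπ.symm.hf y hy t ht, mn_smul σ _ ht, mul_add]
  · rintro F ⟨-, a | ⟨a, b⟩⟩
    · exact Or.inl (hK a)
    · obtain ⟨t, ht⟩ := h.nτ
      refine Or.inr ⟨_, b t ht, fun v hv => Finset.mem_erase.2
        ⟨fun e => hd hv (e ▸ ht), Finset.mem_union_right _ hv⟩, fun v hv => ?_⟩
      by_cases e : v = t
      · exact Finset.mem_union_right _ (e ▸ ht)
      · exact Finset.mem_union_left _ (Finset.mem_erase.2 ⟨e, Finset.mem_union_left _ hv⟩)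
  · obtain ⟨a, b⟩ := fixΩ y (Cn_mono hK0 hy)
    simp [a, b, e0 y hy]
  · have a := h.hh.mg hp
    simp only [e1 _ a, hπ.gf _ a, mn_fl h.disj h.nσ, mn_zero hp.1 hp.2.1]
    simp

end ArcAux

theorem arcStmt : ArcStmt := fun _ _ _ =>
  ⟨fun _ hK => ArcAux.base hK, fun _ _ _ _ _ hA h hΩ hτ => ArcAux.step hA h hΩ hτ⟩

end Pool.Agent.MP_6a6613_co
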