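import Pool.Agent.MP_6a6613_co.Stmts

/-! The nested family of open books on the cyclic complexes. -/

namespace Pool.Agent.MP_6a6613_co

open Set

namespace BDaux

variable {m : ℕ}

theorem mem_sh {I : Finset (ZMod m)} {x : ZMod m} : x ∈ sh I ↔ x - 1 ∈ I := by
  unfold sh
  rw [Finset.mem_image]
  constructor
  · rintro ⟨y, hy, rfl⟩
    simpa using hy
  · intro h
    exact ⟨x - 1, h, by ring⟩

theorem card_sh (I : Finset (ZMod m)) : (sh I).card = I.card :=
  Finset.card_image_of_injective _ (add_left_injective 1)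

theorem sum_sh (I : Finset (ZMod m)) : ∑ x ∈ sh I, x = ∑ x ∈ I, x + (I.card : ZMod m) := by
  unfold sh
  rw [Finset.sum_image fun a _ b _ h => add_left_injective 1 h, Finset.sum_add_distrib]
  simp

theorem sep_sh {I : Finset (ZMod m)} (h : Sep I) : Sep (sh I) := fun x hx hx' => by
  rw [mem_sh] at hx hx'
  have := h _ hx
  rw [sub_add_cancel] at this
  exact this (by simpa using hx')

theorem sep_mono {I X : Finset (ZMod m)} (h : Sep I) (hX : X ⊆ I) : Sep X :=
  fun x hx hx' => h x (hX hx) (hX hx')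

/-- Splitting of a separated subset of `I ∪ sh I`. -/
theorem split {I X : Finset (ZMod m)} (hI : Sep I) (hX : Sep X) (h : X ⊆ I ∪ sh I) :
    ∃ X0 X1 : Finset (ZMod m), X0 ⊆ I ∧ X1 ⊆ I ∧ Disjoint X0 X1 ∧ Disjoint X0 (sh X1) ∧
      X = X0 ∪ sh X1 := by
  refine ⟨X ∩ I, I.filter fun i => i + 1 ∈ X, Finset.inter_subset_right, Finset.filter_subset _ _,
    ?_, ?_, ?_⟩
  · rw [Finset.disjoint_left]
    intro x hx hx'
    exact hX x (Finset.mem_inter.1 hx).1 (Finset.mem_filter.1 hx').2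
  · rw [Finset.disjoint_left]
    intro x hx hx'
    rw [mem_sh] at hx'
    have := hI _ (Finset.mem_filter.1 hx').1
    rw [sub_add_cancel] at this
    exact this (Finset.mem_inter.1 hx).2
  · ext x
    rw [Finset.mem_union, mem_sh, Finset.mem_inter, Finset.mem_filter, sub_add_cancel]
    constructor
    · intro hx
      rcases Finset.mem_union.1 (h hx) with a | a
      · exact Or.inl ⟨hx, a⟩
      · exact Or.inr ⟨mem_sh.1 a, hx⟩
    · rintro (a | a)
      exacts [a.1, a.2]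

theorem card_le {I X : Finset (ZMod m)} (hI : Sep I) (hX : Sep X) (h : X ⊆ I ∪ sh I) :
    X.card ≤ I.card := by
  obtain ⟨X0, X1, a0, a1, d, d', rfl⟩ := split hI hX h
  rw [Finset.card_union_of_disjoint d', card_sh, ← Finset.card_union_of_disjoint d]
  exact Finset.card_le_card (Finset.union_subset a0 a1)

theorem sum_eq {I X : Finset (ZMod m)} (hI : Sep I) (hX : Sep X) (h : X ⊆ I ∪ sh I)
    (hc : X.card = I.card) : ∃ r : ℕ, r ≤ I.card ∧ ∑ x ∈ X, x = ∑ x ∈ I, x + (r : ZMod m) := by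
  obtain ⟨X0, X1, a0, a1, d, d', rfl⟩ := split hI hX h
  rw [Finset.card_union_of_disjoint d', card_sh, ← Finset.card_union_of_disjoint d] at hc
  have e : X0 ∪ X1 = I := Finset.eq_of_subset_of_card_le (Finset.union_subset a0 a1) hc.ge
  refine ⟨X1.card, Finset.card_le_card a1, ?_⟩
  rw [Finset.sum_union d', sum_sh, ← e, Finset.sum_union d, add_assoc]

/-- The greedy cover. -/
theorem greedy [NeZero m] {F : Finset (ZMod m)} {g : ZMod m} (hg : g ∉ F) :
    ∃ I : Finset (ZMod m), Sep I ∧ I ⊆ F ∧ F ⊆ I ∪ sh I := by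
  classical
  have ex : ∀ x : ZMod m, ∃ n : ℕ, x - (n : ZMod m) ∉ F := fun x =>
    ⟨(x - g).val, by simpa using hg⟩
  have step : ∀ x : ZMod m, x + 1 ∈ F → Nat.find (ex (x + 1)) = Nat.find (ex x) + 1 := by
    intro x hx
    rw [Nat.find_eq_iff]
    refine ⟨?_, fun n hn => ?_⟩
    · have := Nat.find_spec (ex x)
      push_cast
      rwa [add_sub_add_right_eq_sub]
    · rcases n with _ | n
      · simpa using hx
      · have := Nat.find_min (ex x) (Nat.lt_of_succ_lt_succ hn)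
        push_cast
        rwa [add_sub_add_right_eq_sub]
  refine ⟨F.filter fun x => Nat.find (ex x) % 2 = 1, fun x hx hx' => ?_, Finset.filter_subset _ _,
    fun x hx => ?_⟩
  · rw [Finset.mem_filter] at hx hx'
    have := step x hx'.1
    omega
  · have h1 := step (x - 1) (by simpa using hx)
    rw [sub_add_cancel] at h1
    rw [Finset.mem_union, mem_sh, Finset.mem_filter, Finset.mem_filter]
    by_cases a : Nat.find (ex x) % 2 = 1
    · exact Or.inl ⟨hx, a⟩
    · refine Or.inr ⟨?_, by omega⟩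
      have := Nat.find_min (ex (x - 1)) (m := 0) (by omega)
      simpa using this

theorem down_Aj (j : ℕ) : Down (Aj m j) := fun _ hF _ hG I hI => hF I (hI.trans hG)

theorem down_Pg (j t : ℕ) : Down (Pg m j t) := fun F hF G hG =>
  ⟨down_Aj j F hF.1 G hG, fun I hI => hF.2 I (hI.trans hG)⟩

theorem down_Om (j a b : ℕ) : Down (Om m j a b) := fun F hF G hG => by
  rcases hF with h | ⟨I, h1, h2, h3, h4⟩
  · exact Or.inl (down_Pg j a F h G hG)
  · exact Or.inr ⟨I, h1, h2, h3, hG.trans h4⟩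

theorem cover [NeZero m] {j : ℕ} (hm : 2 * j + 2 ≤ m) {F : Finset (ZMod m)} (hF : F ∈ Aj m j) :
    ∃ I : Finset (ZMod m), Sep I ∧ I ⊆ F ∧ F ⊆ I ∪ sh I := by
  by_cases a : ∃ g, g ∉ F
  · obtain ⟨g, hg⟩ := a
    exact greedy hg
  · exfalso
    push Not at a
    obtain ⟨I, h1, h2, h3⟩ := greedy (F := Finset.univ.erase (0 : ZMod m)) (g := 0) (by simp)
    have b := hF I (fun x _ => a x) h1
    have c := (Finset.card_le_card h3).trans (Finset.card_union_le _ _)
    rw [card_sh, Finset.card_erase_of_mem (Finset.mem_univ _), Finset.card_univ, ZMod.card] at c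
    omega

theorem card_Aj [NeZero m] {j : ℕ} (hm : 2 * j + 2 ≤ m) {F : Finset (ZMod m)}
    (hF : F ∈ Aj m j) : F.card ≤ 2 * j := by
  obtain ⟨I, h1, h2, h3⟩ := cover hm hF
  have b := hF I h2 h1
  have c := (Finset.card_le_card h3).trans (Finset.card_union_le _ _)
  rw [card_sh] at c
  omega

theorem exists_sep {j : ℕ} {F : Finset (ZMod m)} (hF : F ∈ Aj m (j + 1)) (hF' : F ∉ Aj m j) :
    ∃ X ⊆ F, Sep X ∧ X.card = j + 1 := by
  by_contra a
  refine hF' fun I hI hs => ?_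
  have := hF I hI hs
  by_contra b
  exact a ⟨I, hI, hs, by omega⟩

/-- The facet lemma. -/
theorem facet [NeZero m] {j : ℕ} (hm : 2 * j + 4 ≤ m) {F : Finset (ZMod m)}
    (hF : F ∈ Aj m (j + 1)) (hF' : F ∉ Aj m j) :
    ∃ I : Finset (ZMod m), Sep I ∧ I.card = j + 1 ∧ I ⊆ F ∧ F ⊆ I ∪ sh I := by
  obtain ⟨I, h1, h2, h3⟩ := cover (by omega) hF
  obtain ⟨X, a1, a2, a3⟩ := exists_sep hF hF'
  have b := hF I h2 h1
  have c := card_le h1 a2 (a1.trans h3)
  exact ⟨I, h1, by omega, h2, h3⟩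

theorem win_iff [NeZero m] {a b : ℕ} (hb : b ≤ 2 * m) (I : Finset (ZMod m)) :
    Win a b I ↔ (a ≤ (∑ x ∈ I, x).val ∧ (∑ x ∈ I, x).val < b) ∨
      (a ≤ (∑ x ∈ I, x).val + m ∧ (∑ x ∈ I, x).val + m < b) := by
  constructor
  · rintro ⟨s, h1, h2, h3⟩
    rw [← h3, ZMod.val_natCast]
    by_cases c : s < m
    · rw [Nat.mod_eq_of_lt c]
      exact Or.inl ⟨h1, h2⟩
    · rw [Nat.mod_eq_sub_mod (by omega), Nat.mod_eq_of_lt (by omega)]
      exact Or.inr ⟨by omega, by omega⟩
  · rintro (h | h)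
    · exact ⟨_, h.1, h.2, by simp⟩
    · exact ⟨_, h.1, h.2, by simp⟩

theorem Pg_period (j : ℕ) : Pg m j m = Pg m j 0 := by
  have key : ∀ I : Finset (ZMod m), Win m (m + j) I ↔ Win 0 (0 + j) I := fun I => by
    constructor
    · rintro ⟨s, h1, h2, h3⟩
      obtain ⟨s, rfl⟩ := Nat.exists_eq_add_of_le h1
      exact ⟨s, by omega, by omega, by simpa using h3⟩
    · rintro ⟨s, -, h2, h3⟩
      exact ⟨m + s, by omega, by omega, by simpa using h3⟩
  ext F
  simp only [Pg, mem_ofPred_eq, key]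

theorem Om_sub {j a b : ℕ} {F : Finset (ZMod m)} (h : F ∈ Om m j a b) : F ∈ Aj m j := by
  rcases h with h | ⟨I, h1, h2, -, h4⟩
  · exact h.1
  · exact fun X hX hs => h2 ▸ card_le h1 hs (hX.trans h4)

theorem Om_win {j a b : ℕ} (hab : a ≤ b) {F : Finset (ZMod m)} (h : F ∈ Om m j a b)
    {X : Finset (ZMod m)} (hX : X ⊆ F) (hs : Sep X) (hc : X.card = j) : Win a (b + j) X := by
  rcases h with h | ⟨I, h1, h2, ⟨s, b1, b2, b3⟩, h4⟩
  · obtain ⟨s, b1, b2, b3⟩ := h.2 X hX hs hc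
    exact ⟨s, b1, by omega, b3⟩
  · obtain ⟨r, c1, c2⟩ := sum_eq h1 hs (hX.trans h4) (by omega)
    exact ⟨s + r, by omega, by omega, by rw [c2, ← b3]; simp⟩

theorem Aj_sub_Om {j a b : ℕ} {F : Finset (ZMod m)} (h : F ∈ Aj m j) : F ∈ Om m (j + 1) a b :=
  Or.inl ⟨fun I hI hs => (h I hI hs).trans (Nat.le_succ j), fun I hI hs hc => by
    have := h I hI hs
    omega⟩

theorem val_add_nat [NeZero m] (σ : ZMod m) {r : ℕ} (hr : r ≤ m) :
    (σ + (r : ZMod m)).val = σ.val + r ∨ (σ + (r : ZMod m)).val + m = σ.val + r := by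
  have e : σ + (r : ZMod m) = ((σ.val + r : ℕ) : ZMod m) := by simp
  have := ZMod.val_lt σ
  rw [e, ZMod.val_natCast]
  by_cases c : σ.val + r < m
  · exact Or.inl (Nat.mod_eq_of_lt c)
  · rw [Nat.mod_eq_sub_mod (by omega), Nat.mod_eq_of_lt (by omega)]
    exact Or.inr (by omega)

/-- The pages. -/
def P (M j : ℕ) (k : Fin 6) : Set (Finset (ZMod (6 * M))) := Pg (6 * M) (j + 1) (k.val * M)

/-- The regions. -/
def O (M j : ℕ) (k : Fin 6) : Set (Finset (ZMod (6 * M))) :=
  Om (6 * M) (j + 1) (k.val * M) ((k.val + 1) * M)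

open Classical in
/-- The carrier in the hexagon. -/
noncomputable def tau (M j : ℕ) (F : Finset (ZMod (6 * M))) : Finset (Fin 6) :=
  Finset.univ.filter fun l => ∀ k : Fin 6, F ∈ O M j k → l = k ∨ l = k + 1

/-- The height function on the cycle. -/
def w (M x : ℕ) : ℤ :=
  (M : ℤ) - min (2 * (M : ℤ)) (max 0 (min ((x : ℤ) - M) (6 * (M : ℤ) - x)))

open Classical in
/-- The position. -/
noncomputable def pos (M j : ℕ) (F : Finset (ZMod (6 * M))) : ℤ :=
  if h : ∃ X ⊆ F, Sep X ∧ X.card = j + 1 then w M (∑ x ∈ h.choose, x).val else 0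

variable {M j : ℕ} [NeZero (6 * M)]

theorem P_win (hj : j + 1 ≤ M) {k : Fin 6} {F X : Finset (ZMod (6 * M))} (h : F ∈ P M j k)
    (hX : X ⊆ F) (hs : Sep X) (hc : X.card = j + 1) :
    k.val * M ≤ (∑ x ∈ X, x).val ∧ (∑ x ∈ X, x).val < k.val * M + (j + 1) := by
  have a := h.2 X hX hs hc
  have b := ZMod.val_lt (∑ x ∈ X, x)
  have c : k.val * M ≤ 5 * M := Nat.mul_le_mul_right M (by omega)
  rw [win_iff (by omega)] at a
  omega

theorem O_win (hj : j + 1 ≤ M) {k : Fin 6} {F X : Finset (ZMod (6 * M))} (h : F ∈ O M j k)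
    (hX : X ⊆ F) (hs : Sep X) (hc : X.card = j + 1) :
    (k.val * M ≤ (∑ x ∈ X, x).val ∧ (∑ x ∈ X, x).val < k.val * M + M + (j + 1)) ∨
      (∑ x ∈ X, x).val + 6 * M < k.val * M + M + (j + 1) := by
  have a := Om_win (Nat.mul_le_mul_right M (Nat.le_succ _)) h hX hs hc
  have c : k.val * M ≤ 5 * M := Nat.mul_le_mul_right M (by omega)
  have d : k.val.succ * M = k.val * M + M := Nat.succ_mul _ _
  rw [d, win_iff (by omega)] at a
  omega

theorem inter1 (hj : j + 1 ≤ M) (k : Fin 6) : P M j k ∩ P M j (k + 1) ⊆ Aj (6 * M) j := by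
  rintro F ⟨h1, h2⟩
  by_contra a
  obtain ⟨X, a1, a2, a3⟩ := exists_sep h1.1 a
  have b1 := P_win hj h1 a1 a2 a3
  have b2 := P_win hj h2 a1 a2 a3
  fin_cases k <;> simp at b1 b2 <;> omega

theorem inter2 (hj : j + 1 ≤ M) (k : Fin 6) : O M j k ∩ O M j (k + 1) ⊆ P M j (k + 1) := by
  rintro F ⟨h1, h2⟩
  refine ⟨Om_sub h1, fun X a1 a2 a3 => ?_⟩
  have b1 := O_win hj h1 a1 a2 a3
  have b2 := O_win hj h2 a1 a2 a3
  have c : (k + 1).val * M ≤ 5 * M := Nat.mul_le_mul_right M (by omega)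
  rw [win_iff (by omega)]
  left
  clear c
  fin_cases k <;> simp at b1 b2 ⊢ <;> omega

theorem inter3 (hj : j + 1 ≤ M) (k l : Fin 6) (e1 : l ≠ k) (e2 : l ≠ k + 1) (e3 : k ≠ l + 1) :
    O M j k ∩ O M j l ⊆ Aj (6 * M) j := by
  rintro F ⟨h1, h2⟩
  by_contra a
  obtain ⟨X, a1, a2, a3⟩ := exists_sep (Om_sub h1) a
  have b1 := O_win hj h1 a1 a2 a3
  have b2 := O_win hj h2 a1 a2 a3
  clear h1 h2
  fin_cases k <;> fin_cases l <;> simp at b1 b2 e1 e2 e3 <;> omega

theorem union_O (hj : j + 1 ≤ M) : ⋃ k, O M j k = Aj (6 * M) (j + 1) := by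
  ext F
  rw [mem_iUnion]
  constructor
  · rintro ⟨k, hk⟩
    exact Om_sub hk
  · intro hF
    by_cases a : F ∈ Aj (6 * M) j
    · exact ⟨0, Aj_sub_Om a⟩
    · obtain ⟨I, h1, h2, -, h4⟩ := facet (by omega) hF a
      have b := ZMod.val_lt (∑ x ∈ I, x)
      have hM : 0 < M := by omega
      refine ⟨⟨(∑ x ∈ I, x).val / M, (Nat.div_lt_iff_lt_mul hM).2 b⟩,
        Or.inr ⟨I, h1, h2, ⟨(∑ x ∈ I, x).val, Nat.div_mul_le_self _ _, ?_, by simp⟩, h4⟩⟩
      exact (Nat.lt_mul_div_succ _ hM).trans_eq (mul_comm _ _)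

theorem hex : ∀ G : Finset (Fin 6), (∃ k : Fin 6, G ⊆ {k, k + 1}) → ∀ l : Fin 6,
    (l ∈ G ↔ ∀ k : Fin 6, G ⊆ {k, k + 1} → l = k ∨ l = k + 1) := by
  decide +kernel

theorem book (h1 : BallQStmt) (h2 : PageStmt) (h3 : BookStmt) (hj : j + 1 ≤ M) :
    ∃ (h : (ZMod (6 * M) → ℝ) → (ZMod (6 * M) → ℝ) × (Fin 6 → ℝ))
      (g : (ZMod (6 * M) → ℝ) × (Fin 6 → ℝ) → (ZMod (6 * M) → ℝ)),
      HH h g (Cn (Aj (6 * M) (j + 1))) (Cn (Aj (6 * M) j) ×ˢ Cn C6) ∧
      (∀ p ∈ Cn (Aj (6 * M) (j + 1)), supp (h p).2 = tau M j (supp p)) ∧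
      ∀ F ∈ Aj (6 * M) (j + 1), ∀ k, (F ∈ O M j k ↔ tau M j F ⊆ {k, k + 1}) := by
  have hb := h1 (6 * M) j (by omega)
  obtain ⟨hr, ha⟩ := h2 (6 * M) j (by omega)
  obtain ⟨h, g, hh, hk⟩ := h3 (ZMod (6 * M)) (Aj (6 * M) j) (P M j) (O M j) (down_Aj j)
    (fun k => down_Pg _ _) (fun k => down_Om _ _ _) (fun k => (hr _).ball hb)
    (fun k => by
      have a := ha (k.val * M) ((k.val + 1) * M) (Nat.mul_le_mul_right M (Nat.le_succ _))
        (by
          have d : (k.val + 1) * M = k.val * M + M := Nat.succ_mul _ _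
          omega)
      have e : Pg (6 * M) (j + 1) ((k.val + 1) * M) = P M j (k + 1) := by
        unfold P
        fin_cases k
        exacts [rfl, rfl, rfl, rfl, rfl, (Pg_period _).trans (by simp)]
      rw [e] at a
      exact a)
    (inter1 hj) (inter2 hj) (inter3 hj)
  rw [union_O hj] at hh hk
  have key : ∀ p ∈ Cn (Aj (6 * M) (j + 1)), supp (h p).2 = tau M j (supp p) := fun p hp => by
    ext l
    rw [hex _ (hh.mf hp).2.2 l]
    simp only [tau, Finset.mem_filter, Finset.mem_univ, true_and, hk _ p hp]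
  refine ⟨h, g, hh, key, fun F hF k => ?_⟩
  have a := hk k _ (ind_mem hF)
  rwa [key _ (ind_mem hF), supp_ind] at a

omit [NeZero (6 * M)] in
theorem pos_spec {F : Finset (ZMod (6 * M))} (hF : F ∈ Aj (6 * M) (j + 1))
    (hF' : F ∉ Aj (6 * M) j) :
    ∃ X ⊆ F, Sep X ∧ X.card = j + 1 ∧ pos M j F = w M (∑ x ∈ X, x).val := by
  have h := exists_sep hF hF'
  exact ⟨h.choose, h.choose_spec.1, h.choose_spec.2.1, h.choose_spec.2.2, by rw [pos, dif_pos h]⟩

theorem near (hj : j + 1 ≤ M) {F X : Finset (ZMod (6 * M))} (hF : F ∈ Aj (6 * M) (j + 1))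
    (hX : X ⊆ F) (hs : Sep X) (hc : X.card = j + 1) :
    pos M j F ≤ w M (∑ x ∈ X, x).val + (j + 1) ∧ w M (∑ x ∈ X, x).val ≤ pos M j F + (j + 1) := by
  have hF' : F ∉ Aj (6 * M) j := fun a => by
    have := a X hX hs
    omega
  obtain ⟨Y, a1, a2, a3, a4⟩ := pos_spec hF hF'
  obtain ⟨I, b1, b2, -, b4⟩ := facet (by omega) hF hF'
  obtain ⟨r, c1, c2⟩ := sum_eq b1 hs (hX.trans b4) (by omega)
  obtain ⟨r', d1, d2⟩ := sum_eq b1 a2 (a1.trans b4) (by omega)
  have e1 := val_add_nat (∑ x ∈ I, x) (r := r) (by omega)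
  have e2 := val_add_nat (∑ x ∈ I, x) (r := r') (by omega)
  have f0 := ZMod.val_lt (∑ x ∈ I, x)
  have f1 := ZMod.val_lt (∑ x ∈ X, x)
  have f2 := ZMod.val_lt (∑ x ∈ Y, x)
  rw [← c2] at e1
  rw [← d2] at e2
  rw [a4]
  unfold w
  omega

end BDaux

open BDaux in
theorem bdStmt (h1 : BallQStmt) (h2 : PageStmt) (h3 : BookStmt) : BDStmt := by
  intro K M _ hK
  have hM : 0 < M := by
    have := NeZero.ne (6 * M)
    omega
  have hO : ∀ j < K, ∀ F ∈ Aj (6 * M) (j + 1), ∀ k, (F ∈ O M j k ↔ tau M j F ⊆ {k, k + 1}) :=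
    fun j hj => by
      obtain ⟨h, g, -, -, a⟩ := book (M := M) (j := j) h1 h2 h3 (by omega)
      exact a
  have hE : ∀ j < K, ∀ F ∈ Aj (6 * M) (j + 1), (tau M j F = ∅ ↔ F ∈ Aj (6 * M) j) := by
    intro j hj F hF
    constructor
    · intro e
      exact inter3 (by omega) 0 3 (by decide) (by decide) (by decide)
        ⟨(hO j hj F hF 0).2 (by simp [e]), (hO j hj F hF 3).2 (by simp [e])⟩
    · intro a
      have b0 := (hO j hj F hF 0).1 (Aj_sub_Om a)
      have b3 := (hO j hj F hF 3).1 (Aj_sub_Om a)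
      have := Finset.subset_inter b0 b3
      rwa [show ({0, 0 + 1} : Finset (Fin 6)) ∩ {3, 3 + 1} = ∅ by decide,
        Finset.subset_empty] at this
  have hP : ∀ j < K, ∀ F ∈ Aj (6 * M) (j + 1), ∀ l, tau M j F = {l} →
      F ∈ P M j l ∧ F ∉ Aj (6 * M) j := by
    intro j hj F hF l e
    refine ⟨?_, fun a => by simpa [e] using (hE j hj F hF).2 a⟩
    have := inter2 (M := M) (j := j) (by omega) (l - 1)
      ⟨(hO j hj F hF _).2 (by simp [e]), (hO j hj F hF _).2 (by simp [e])⟩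
    rwa [sub_add_cancel] at this
  refine ⟨tau M, pos M, down_Aj, ?_, fun j F hF I hI hs => (hF I hI hs).trans (Nat.le_succ j),
    fun j hj => ?_, hE, ?_, ?_, ?_, ?_, ?_, ?_, ?_, ?_⟩
  · ext F
    rw [mem_singleton_iff]
    constructor
    · intro hF
      have := card_Aj (by omega) hF
      exact Finset.card_eq_zero.1 (by omega)
    · rintro rfl I hI _
      simp [Finset.subset_empty.1 hI]
  · obtain ⟨h, g, a, b, -⟩ := book (M := M) (j := j) h1 h2 h3 (by omega)
    exact ⟨h, g, a, b⟩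
  · intro j _ F _ G hG l hl
    simp only [tau, Finset.mem_filter, Finset.mem_univ, true_and] at hl ⊢
    exact fun k hk => hl k (down_Om _ _ _ F hk G hG)
  · intro j hj F hF
    have c := card_Aj (by omega) hF
    by_cases a : F ∈ Aj (6 * M) j
    · have := card_Aj (by omega) a
      omega
    · have t0 : (tau M j F).card ≠ 0 := fun e => a ((hE j hj F hF).1 (Finset.card_eq_zero.1 e))
      by_cases t1 : (tau M j F).card = 1
      · obtain ⟨l, e⟩ := Finset.card_eq_one.1 t1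
        have p := (hP j hj F hF l e).1
        obtain ⟨I, b1, b2, b3, b4⟩ := facet (by omega) hF a
        by_contra d
        have e' : F = I ∪ sh I := Finset.eq_of_subset_of_card_le b4
          ((Finset.card_union_le _ _).trans (by rw [card_sh]; omega))
        have w1 := P_win (by omega) p b3 b1 b2
        have w2 := P_win (by omega) p (X := sh I) (e' ▸ Finset.subset_union_right) (sep_sh b1)
          (by rw [card_sh, b2])
        rw [sum_sh, b2] at w2
        have := val_add_nat (∑ x ∈ I, x) (r := j + 1) (by omega)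
        omega
      · omega
  · intro j hj F hF G hG a
    obtain ⟨X, a1, a2, a3⟩ := exists_sep (down_Aj _ F hF _ Finset.inter_subset_left) a
    have b1 := near (by omega) hF (a1.trans Finset.inter_subset_left) a2 a3
    have b2 := near (by omega) hG (a1.trans Finset.inter_subset_right) a2 a3
    omega
  · intro j F
    unfold pos
    split_ifs
    · unfold w
      omega
    · omega
  · intro j hj F hF e
    rcases e with e | e <;>
    · obtain ⟨p, a⟩ := hP j hj F hF _ e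
      obtain ⟨X, a1, a2, a3, a4⟩ := pos_spec hF a
      have := P_win (by omega) p a1 a2 a3
      rw [a4]
      unfold w
      simp at this
      omega
  · intro j hj F hF e
    rcases e with e | e <;>
    · obtain ⟨p, a⟩ := hP j hj F hF _ e
      obtain ⟨X, a1, a2, a3, a4⟩ := pos_spec hF a
      have := P_win (by omega) p a1 a2 a3
      rw [a4]
      unfold w
      simp at this
      omega
  · intro j hj F hF a e
    obtain ⟨X, a1, a2, a3, a4⟩ := pos_spec hF a
    have f := ZMod.val_lt (∑ x ∈ X, x)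
    rw [a4]
    unfold w
    rcases e with e | e | e
    · have := O_win (by omega) ((hO j hj F hF 5).2 e) a1 a2 a3
      simp at this
      omega
    · have := O_win (by omega) ((hO j hj F hF 0).2 e) a1 a2 a3
      simp at this
      omega
    · have := O_win (by omega) ((hO j hj F hF 1).2 e) a1 a2 a3
      simp at this
      omega
  · intro j hj F hF a e
    obtain ⟨X, a1, a2, a3, a4⟩ := pos_spec hF a
    have f := ZMod.val_lt (∑ x ∈ X, x)
    rw [a4]
    unfold w
    rcases e with e | e | e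
    · have := O_win (by omega) ((hO j hj F hF 2).2 e) a1 a2 a3
      simp at this
      omega
    · have := O_win (by omega) ((hO j hj F hF 3).2 e) a1 a2 a3
      simp at this
      omega
    · have := O_win (by omega) ((hO j hj F hF 4).2 e) a1 a2 a3
      simp at this
      omega

end Pool.Agent.MP_6a6613_co
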