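import Pool.Agent.MP_6a6613_co.BallQ2

/-! The cone page of the cyclic polytope is a ball. -/

namespace Pool.Agent.MP_6a6613_co

namespace BallQ

open Set

variable {m : ℕ}

/-- The ball spanned by `j` pairs on the path. -/
def LL (m j b : ℕ) : Set (Finset (ZMod m)) := {F | In 1 b F ∧ al 1 b F ≤ j}

/-- Its boundary. -/
def Lam (m j b : ℕ) : Set (Finset (ZMod m)) :=
  {F | In 1 b F ∧ al 1 b F ≤ j ∧ al 2 (b - 1) F < j}

/-- The left part of the boundary. -/
def TL (m j c : ℕ) : Set (Finset (ZMod m)) := {F | In 1 (c + 1) F ∧ al 1 c F ≤ j}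

/-- The right part of the boundary. -/
def TR (m j c : ℕ) : Set (Finset (ZMod m)) := {F | In 1 (c + 1) F ∧ al 2 (c + 1) F ≤ j}

theorem down_LL (j b : ℕ) : Down (LL m j b) := fun _ hF _ hG =>
  ⟨fun x hx => hF.1 x (hG hx), (al_sub _ _ hG).trans hF.2⟩

theorem down_Lam (j b : ℕ) : Down (Lam m j b) := fun _ hF _ hG =>
  ⟨fun x hx => hF.1 x (hG hx), (al_sub _ _ hG).trans hF.2.1, (al_sub _ _ hG).trans_lt hF.2.2⟩

theorem down_TL (j b : ℕ) : Down (TL m j b) := fun _ hF _ hG =>
  ⟨fun x hx => hF.1 x (hG hx), (al_sub _ _ hG).trans hF.2⟩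

theorem down_TR (j b : ℕ) : Down (TR m j b) := fun _ hF _ hG =>
  ⟨fun x hx => hF.1 x (hG hx), (al_sub _ _ hG).trans hF.2⟩

variable [NeZero m]

theorem cone_LL {j c : ℕ} {u : ZMod m} (hu : u.val = c + 1) : cone u (LL m j c) = TL m j c := by
  ext F
  simp only [cone, LL, TL, mem_ofPred_eq, In_erase F hu, al_erase F (Or.inr (by omega) :
    u.val < 1 ∨ c < u.val)]

theorem id1 {j c : ℕ} {u : ZMod m} (hu : u.val = c + 2) :
    LL m j (c + 1) ∪ cone u (Lam m j (c + 1)) = TL m j (c + 1) ∩ TR m j (c + 1) := by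
  ext F
  simp only [cone, LL, TL, TR, Lam, mem_ofPred_eq, mem_union, mem_inter_iff, In_erase F hu,
    Nat.add_sub_cancel, al_erase F (Or.inr (by omega) : u.val < 1 ∨ c + 1 < u.val),
    al_erase F (Or.inr (by omega) : u.val < 2 ∨ c < u.val), In_iff F hu]
  by_cases h : u ∈ F
  · have := al_mem (a := 2) hu h (by omega)
    simp only [h, this]
    constructor
    · rintro (a | a)
      · exact absurd a.1.2 (by simp)
      · exact ⟨⟨a.1, a.2.1⟩, a.1, a.2.2⟩
    · exact fun a => Or.inr ⟨a.1.1, a.1.2, a.2.2⟩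
  · have h1 := al_not (a := 2) hu h
    have h2 : al 2 (c + 1) F ≤ al 1 (c + 1) F := al_le F (by omega) le_rfl
    simp only [h, h1]
    constructor
    · rintro (a | a)
      · exact ⟨⟨a.1.1, a.2⟩, a.1.1, h2.trans a.2⟩
      · exact ⟨⟨a.1, a.2.1⟩, a.1, h2.trans a.2.1⟩
    · exact fun a => Or.inl ⟨⟨a.1.1, by simp⟩, a.1.2⟩

theorem id2 {j c : ℕ} {n : ZMod m} (hn : n.val = c + 2) :
    LL m (j + 1) (c + 1) ∪ cone n (TL m j c) = LL m (j + 1) (c + 2) := by
  ext F
  simp only [cone, LL, TL, mem_ofPred_eq, mem_union, In_erase F hn,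
    al_erase F (Or.inr (by omega) : n.val < 1 ∨ c < n.val), In_iff F hn]
  by_cases h : n ∈ F
  · have := al_mem (a := 1) hn h (by omega)
    simp only [h, this]
    constructor
    · rintro (a | a)
      · exact absurd a.1.2 (by simp)
      · exact ⟨a.1, by omega⟩
    · exact fun a => Or.inr ⟨a.1, by omega⟩
  · have h1 := al_not (a := 1) hn h
    have h2 : al 1 (c + 1) F ≤ al 1 c F + 1 := al_succ F (by omega)
    simp only [h, h1]
    constructor
    · rintro (a | a)
      · exact ⟨a.1.1, a.2⟩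
      · exact ⟨a.1, by omega⟩
    · exact fun a => Or.inl ⟨⟨a.1, by simp⟩, a.2⟩

theorem id3 {j c : ℕ} {n : ZMod m} (hn : n.val = c + 2) :
    TR m j c ∪ cone n (TL m j c ∩ TR m j c) = Lam m (j + 1) (c + 2) := by
  ext F
  simp only [cone, Lam, TL, TR, mem_ofPred_eq, mem_union, mem_inter_iff, In_erase F hn,
    al_erase F (Or.inr (by omega) : n.val < 1 ∨ c < n.val),
    al_erase F (Or.inr (by omega) : n.val < 2 ∨ c + 1 < n.val), In_iff F hn,
    show c + 2 - 1 = c + 1 from rfl]
  by_cases h : n ∈ F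
  · have := al_mem (a := 1) hn h (by omega)
    simp only [h, this]
    constructor
    · rintro (a | a)
      · exact absurd a.1.2 (by simp)
      · exact ⟨a.1.1, by omega, by omega⟩
    · exact fun a => Or.inr ⟨⟨a.1, by omega⟩, a.1, by omega⟩
  · have h1 := al_not (a := 1) hn h
    have h2 : al 1 (c + 1) F ≤ al 2 (c + 1) F + 1 := al_succ F (by omega)
    simp only [h, h1]
    constructor
    · rintro (a | a)
      · exact ⟨a.1.1, by omega, by omega⟩
      · exact ⟨a.1.1, by omega, by omega⟩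
    · exact fun a => Or.inl ⟨⟨a.1, by simp⟩, by omega⟩

theorem step {j c : ℕ} (hc : c + 3 < m)
    (h1 : Ball (LL m (j + 1) (c + 2)) (TL m j (c + 1) ∪ TR m j (c + 1)))
    (h2 : ∀ u : ZMod m, c + 1 < u.val →
      Ball (cone u (LL m j (c + 1))) (LL m j (c + 1) ∪ cone u (Lam m j (c + 1)))) :
    Ball (LL m (j + 1) (c + 3)) (Lam m (j + 1) (c + 3)) := by
  have hu : ((c + 2 : ℕ) : ZMod m).val = c + 2 := ZMod.val_cast_of_lt (by omega)
  have hn : ((c + 3 : ℕ) : ZMod m).val = c + 1 + 2 := ZMod.val_cast_of_lt (by omega)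
  have h3 := h2 _ (by rw [hu]; omega)
  rw [cone_LL hu, id1 hu] at h3
  have h4 := ball_attach h1 h3 rfl (down_LL _ _) (down_TL _ _) (down_TR _ _)
    (fun F hF G hG => ⟨down_TL _ _ F hF.1 G hG, down_TR _ _ F hF.2 G hG⟩)
    (n := ((c + 3 : ℕ) : ZMod m)) fun F hF h => by
      have := hF.1 _ h
      omega
  rwa [id2 hn, id3 hn] at h4

theorem id4 {j c : ℕ} (hc : 2 * j + 2 ≤ c) : Lam m (j + 1) (c + 1) = TL m j c ∪ TR m j c := by
  obtain ⟨c, rfl⟩ : ∃ d, c = d + 1 := ⟨c - 1, by omega⟩
  ext F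
  simp only [Lam, TL, TR, mem_ofPred_eq, mem_union, Nat.add_sub_cancel]
  constructor
  · rintro ⟨a1, a2, a3⟩
    by_cases h : ∀ n, 1 ≤ n → n ≤ c + 1 + 1 → ∃ x ∈ F, x.val = n
    · have := al_lb F (j + 1) _ h (by omega)
      omega
    · push Not at h
      obtain ⟨n, n1, n2, n3⟩ := h
      have := al_gap n3 n1 n2
      by_cases b : al 1 (c + 1) F ≤ j
      · exact Or.inl ⟨a1, b⟩
      · exact Or.inr ⟨a1, by omega⟩
  · rintro (⟨a1, a2⟩ | ⟨a1, a2⟩)
    · have b1 : al 1 (c + 1 + 1) F ≤ al 1 (c + 1) F + 1 := al_succ F (by omega)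
      have b2 : al 2 (c + 1) F ≤ al 1 (c + 1) F := al_le F (by omega) le_rfl
      exact ⟨a1, by omega, by omega⟩
    · have b1 : al 1 (c + 1 + 1) F ≤ al 2 (c + 1 + 1) F + 1 := al_succ F (by omega)
      have b2 : al 2 (c + 1) F ≤ al 2 (c + 1 + 1) F := al_le F le_rfl (by omega)
      exact ⟨a1, by omega, by omega⟩

theorem base {j : ℕ} (hj : 2 * j + 2 < m) :
    Ball (LL m (j + 1) (2 * j + 2)) (TL m j (2 * j + 1) ∪ TR m j (2 * j + 1)) := by
  set S : Finset (ZMod m) := Finset.univ.filter fun x => 1 ≤ x.val ∧ x.val ≤ 2 * j + 2 with hS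
  have mS : ∀ x, x ∈ S ↔ 1 ≤ x.val ∧ x.val ≤ 2 * j + 2 := fun x => by simp [hS]
  have full : ∀ n, 1 ≤ n → n ≤ 2 * j + 2 → ∃ x ∈ S, x.val = n := fun n p q => by
    have e : (n : ZMod m).val = n := ZMod.val_cast_of_lt (by omega)
    exact ⟨n, (mS _).2 (by omega), e⟩
  have iS : ∀ F : Finset (ZMod m), F ⊆ S ↔ In 1 (2 * j + 2) F := fun F =>
    ⟨fun h x hx => (mS x).1 (h hx), fun h x hx => (mS x).2 (h x hx)⟩
  have hne : S.Nonempty := by
    obtain ⟨x, hx, -⟩ := full 1 le_rfl (by omega)
    exact ⟨x, hx⟩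
  have h := ball_simplex hne
  have e1 : {F | F ⊆ S} = LL m (j + 1) (2 * j + 2) := by
    ext F
    simp only [LL, mem_ofPred_eq, iS]
    exact ⟨fun a => ⟨a, al_ub le_rfl F _ _ (by omega)⟩, fun a => a.1⟩
  have e2 : {F | F ⊆ S ∧ F ≠ S} = TL m j (2 * j + 1) ∪ TR m j (2 * j + 1) := by
    ext F
    simp only [TL, TR, mem_ofPred_eq, mem_union]
    constructor
    · rintro ⟨a1, a2⟩
      obtain ⟨x, x1, x2⟩ : ∃ x ∈ S, x ∉ F := by
        by_contra b
        push Not at b
        exact a2 (Finset.Subset.antisymm a1 b)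
      have x3 := (mS x).1 x1
      have g := al_gap (N := 2 * j + 1) (F := F) (c := x.val)
        (fun y hy e => x2 (ZMod.val_injective m e ▸ hy)) x3.1 x3.2
      have u1 := al_ub (a := 1) le_rfl F (j + 1) (2 * j + 1 + 1) (by omega)
      have u2 := al_ub (a := 2) (by omega) F j (2 * j + 1) (by omega)
      by_cases b : al 1 (2 * j + 1) F ≤ j
      · exact Or.inl ⟨(iS F).1 a1, b⟩
      · exact Or.inr ⟨(iS F).1 a1, by omega⟩
    · rintro (⟨a1, a2⟩ | ⟨a1, a2⟩)
      · refine ⟨(iS F).2 a1, fun e => ?_⟩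
        have := al_lb (a := 1) S j (2 * j + 1) (fun n p q => full n p (by omega)) (by omega)
        rw [e] at a2
        omega
      · refine ⟨(iS F).2 a1, fun e => ?_⟩
        have := al_lb (a := 2) S j (2 * j + 1 + 1) (fun n p q => full n (by omega) q) (by omega)
        rw [e] at a2
        omega
  rwa [e1, e2] at h

theorem main (j : ℕ) : ∀ b, 2 * j + 1 ≤ b → b < m → ∀ u : ZMod m, u.val < 1 ∨ b < u.val →
    Ball (cone u (LL m j b)) (LL m j b ∪ cone u (Lam m j b)) := by
  induction j with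
  | zero =>
    intro b _ _ u _
    have e0 : LL m 0 b = {∅} := by
      ext F
      simp only [LL, mem_ofPred_eq, mem_singleton_iff]
      constructor
      · rintro ⟨a1, a2⟩
        refine Finset.eq_empty_iff_forall_notMem.2 fun x hx => ?_
        have := al_one hx (a1 x hx).1 (a1 x hx).2
        omega
      · rintro rfl
        obtain ⟨I, i1, -, -, e⟩ := exists_al 1 b (∅ : Finset (ZMod m))
        refine ⟨fun x hx => absurd hx (by simp), ?_⟩
        rw [← e, Finset.subset_empty.1 i1]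
        simp
    have h := ball_simplex (Finset.singleton_nonempty u)
    have e1 : {F | F ⊆ {u}} = cone u (LL m 0 b) := by
      ext F
      simp only [e0, cone, mem_ofPred_eq, mem_singleton_iff, Finset.subset_singleton_iff,
        Finset.erase_eq_empty_iff]
    have e2 : {F | F ⊆ {u} ∧ F ≠ {u}} = LL m 0 b ∪ cone u (Lam m 0 b) := by
      ext F
      simp only [e0, cone, Lam, mem_ofPred_eq, mem_singleton_iff, Finset.subset_singleton_iff,
        mem_union, Nat.not_lt_zero, and_false, or_false]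
      constructor
      · rintro ⟨a | a, b⟩
        · exact a
        · exact absurd a b
      · rintro rfl
        exact ⟨Or.inl rfl, (Finset.singleton_ne_empty u).symm⟩
    rwa [e1, e2] at h
  | succ j ih =>
    have key : ∀ d, 2 * j + 3 + d < m →
        Ball (LL m (j + 1) (2 * j + d + 3)) (Lam m (j + 1) (2 * j + d + 3)) := by
      intro d
      induction d with
      | zero =>
        intro hd
        exact step (by omega) (base (by omega))
          fun u hu => ih _ (by omega) (by omega) u (Or.inr hu)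
      | succ d ihd =>
        intro hd
        have h := ihd (by omega)
        rw [id4 (c := 2 * j + d + 2) (by omega)] at h
        exact step (c := 2 * j + d + 1) (by omega) h
          fun u hu => ih _ (by omega) (by omega) u (Or.inr hu)
    intro b h1 h2 u hu
    obtain ⟨d, rfl⟩ : ∃ d, b = 2 * j + d + 3 := ⟨b - (2 * j + 3), by omega⟩
    refine ball_cone (key d (by omega)) (down_LL _ _) (down_Lam _ _) fun F hF h => ?_
    have := hF.1 _ h
    omega

theorem val_succ (hm : 1 < m) (x : ZMod m) :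
    (x + 1).val = if x.val + 1 < m then x.val + 1 else 0 := by
  have : Fact (1 < m) := ⟨hm⟩
  rw [ZMod.val_add, ZMod.val_one]
  split_ifs with h
  · exact Nat.mod_eq_of_lt h
  · have := ZMod.val_lt x
    rw [show x.val + 1 = m by omega, Nat.mod_self]

theorem sepN_of_sep (hm : 1 < m) {I : Finset (ZMod m)} (h : Sep I) : SepN I := by
  intro x hx y hy e
  have h1 := ZMod.val_lt y
  have h2 : y = x + 1 := ZMod.val_injective m (by rw [val_succ hm, if_pos (by omega), e])
  exact h x hx (h2 ▸ hy)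

theorem sep_of_sepN (hm : 1 < m) {I : Finset (ZMod m)} (h : SepN I)
    (h0 : (0 : ZMod m) ∈ I → ∀ x ∈ I, x.val + 1 < m) : Sep I := by
  intro x hx hx'
  have h1 := val_succ hm x
  split_ifs at h1 with h2
  · exact h x hx _ hx' h1
  · rw [ZMod.val_eq_zero] at h1
    exact h2 (h0 (h1 ▸ hx') x hx)

theorem In_erase0 (F : Finset (ZMod m)) : In 1 (m - 1) (F.erase 0) := fun x hx => by
  have h1 := ZMod.val_lt x
  have h2 : x.val ≠ 0 := fun e => (Finset.mem_erase.1 hx).1 ((ZMod.val_eq_zero x).1 e)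
  omega

theorem sep_erase (hm : 1 < m) {F I : Finset (ZMod m)} (h1 : I ⊆ F) (h2 : Sep I) :
    (I.erase 0).card ≤ al 1 (m - 1) F :=
  le_al ((Finset.erase_subset _ _).trans h1) (In_erase0 I) fun x hx y hy =>
    sepN_of_sep hm h2 x (Finset.mem_of_mem_erase hx) y (Finset.mem_of_mem_erase hy)

theorem exists_sep (hm : 1 < m) (F : Finset (ZMod m)) :
    ∃ I ⊆ F, (0 : ZMod m) ∉ I ∧ Sep I ∧ I.card = al 1 (m - 1) F := by
  obtain ⟨I, i1, i2, i3, e⟩ := exists_al 1 (m - 1) F
  have h0 : (0 : ZMod m) ∉ I := fun h => by simpa using (i2 _ h).1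
  exact ⟨I, i1, h0, sep_of_sepN hm i3 fun h => absurd h h0, e⟩

theorem Q0_eq (hm : 1 < m) (j : ℕ) : Q0 m (j + 1) = cone 0 (LL m j (m - 1)) := by
  ext F
  simp only [Q0, Aj, cone, LL, mem_ofPred_eq, In_erase0, true_and,
    al_erase F (Or.inl (by simp) : (0 : ZMod m).val < 1 ∨ m - 1 < (0 : ZMod m).val)]
  constructor
  · rintro ⟨a1, a2⟩
    obtain ⟨I, i1, i2, i3, e⟩ := exists_sep hm F
    have b1 := a1 I i1 i3
    have b2 : I.card ≠ j + 1 := fun c => i2 (a2 I i1 i3 c)
    omega
  · intro a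
    refine ⟨fun I i1 i2 => ?_, fun I i1 i2 i3 => ?_⟩
    · have b1 := sep_erase hm i1 i2
      have b2 : I.card - 1 ≤ (I.erase 0).card := Finset.pred_card_le_card_erase
      omega
    · by_contra b
      have b1 := sep_erase hm i1 i2
      rw [Finset.erase_eq_of_notMem b] at b1
      omega

theorem Aj_eq (hm : 1 < m) (j : ℕ) :
    Aj m j = LL m j (m - 1) ∪ cone 0 (Lam m j (m - 1)) := by
  ext F
  simp only [Aj, cone, LL, Lam, mem_ofPred_eq, mem_union, In_erase0, true_and,
    al_erase F (Or.inl (by simp) : (0 : ZMod m).val < 1 ∨ m - 1 < (0 : ZMod m).val),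
    al_erase F (Or.inl (by simp) : (0 : ZMod m).val < 2 ∨ m - 1 - 1 < (0 : ZMod m).val)]
  constructor
  · intro a
    have b : al 1 (m - 1) F ≤ j := by
      obtain ⟨I, i1, -, i3, e⟩ := exists_sep hm F
      exact e ▸ a I i1 i3
    by_cases h : (0 : ZMod m) ∈ F
    · refine Or.inr ⟨b, ?_⟩
      obtain ⟨I, i1, i2, i3, e⟩ := exists_al 2 (m - 1 - 1) F
      have h0 : (0 : ZMod m) ∉ I := fun h => by simpa using (i2 _ h).1
      have c := a (insert 0 I) (Finset.insert_subset h i1) (sep_of_sepN hm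
        (fun x hx y hy => ?_) fun _ x hx => ?_)
      · rw [Finset.card_insert_of_notMem h0] at c
        omega
      · rcases Finset.mem_insert.1 hy with ey | hy'
        · rw [ey, ZMod.val_zero]
          omega
        · rcases Finset.mem_insert.1 hx with ex | hx'
          · have := i2 y hy'
            rw [ex, ZMod.val_zero]
            omega
          · exact i3 x hx' y hy'
      · rcases Finset.mem_insert.1 hx with ex | hx'
        · rw [ex, ZMod.val_zero]
          omega
        · have := i2 x hx'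
          omega
    · refine Or.inl ⟨?_, b⟩
      rw [← Finset.erase_eq_of_notMem h]
      exact In_erase0 F
  · intro a I i1 i2
    by_cases h : (0 : ZMod m) ∈ I
    · rcases a with a | a
      · simpa using (a.1 _ (i1 h)).1
      · have s := sepN_of_sep hm i2
        have b : (I.erase 0).card ≤ al 2 (m - 1 - 1) F := by
          refine le_al ((Finset.erase_subset _ _).trans i1) (fun x hx => ?_) fun x hx y hy =>
            s x (Finset.mem_of_mem_erase hx) y (Finset.mem_of_mem_erase hy)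
          have c1 := In_erase0 I x hx
          have c2 := s 0 h x (Finset.mem_of_mem_erase hx)
          rw [ZMod.val_zero] at c2
          have c3 : x.val + 1 < m := by
            by_contra c
            have c4 := val_succ hm x
            rw [if_neg c, ZMod.val_eq_zero] at c4
            exact i2 x (Finset.mem_of_mem_erase hx) (c4 ▸ h)
          omega
        have c : I.card - 1 ≤ (I.erase 0).card := Finset.pred_card_le_card_erase
        omega
    · have b := sep_erase hm i1 i2
      rw [Finset.erase_eq_of_notMem h] at b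
      exact b.trans (a.elim (fun c => c.2) fun c => c.1)

end BallQ

theorem ballQStmt : BallQStmt := by
  intro m _ j hm
  rw [BallQ.Q0_eq (by omega), BallQ.Aj_eq (by omega)]
  exact BallQ.main j (m - 1) (by omega) (by omega) 0 (Or.inl (by simp))

end Pool.Agent.MP_6a6613_co
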