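import Pool.Agent.MP_6a6613_co.Stmts

/-! Abstract ball lemmas: simplex, cone over a ball, attaching a cone along a boundary ball. -/

namespace Pool.Agent.MP_6a6613_co

namespace BallQ

open Set

variable {V : Type} [Fintype V] [DecidableEq V]

theorem supp_update (p : V → ℝ) (v : V) (r : ℝ) :
    (supp (Function.update p v r)).erase v = (supp p).erase v := by
  ext w
  by_cases h : w = v <;> simp [h]

theorem supp_update0 (p : V → ℝ) (v : V) : supp (Function.update p v 0) = (supp p).erase v := by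
  ext w
  by_cases h : w = v <;> simp [h]

omit [DecidableEq V] in
theorem zero_at {L : Set (Finset V)} {v : V} (hv : ∀ F ∈ L, v ∉ F) {p : V → ℝ} (hp : p ∈ Cn L) :
    p v = 0 := by
  simpa using hv _ hp.2

theorem update_self0 {L : Set (Finset V)} {v : V} (hv : ∀ F ∈ L, v ∉ F) {p : V → ℝ}
    (hp : p ∈ Cn L) : Function.update p v 0 = p := by
  rw [← zero_at hv hp, Function.update_eq_self]

theorem update_mem {L : Set (Finset V)} {v : V} {p : V → ℝ} (hp : p ∈ Cn (cone v L)) :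
    Function.update p v 0 ∈ Cn L := by
  refine ⟨fun w => ?_, by rw [supp_update0]; exact hp.2⟩
  by_cases h : w = v
  · simp [h]
  · simp [h, hp.1 w]

theorem update_mem_cone {L : Set (Finset V)} {v : V} (hv : ∀ F ∈ L, v ∉ F) {p : V → ℝ}
    (hp : p ∈ Cn L) {r : ℝ} (hr : 0 ≤ r) : Function.update p v r ∈ Cn (cone v L) := by
  refine ⟨fun w => ?_, ?_⟩
  · by_cases h : w = v
    · simp [h, hr]
    · simp [h, hp.1 w]
  · change (supp (Function.update p v r)).erase v ∈ L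
    rw [supp_update, Finset.erase_eq_of_notMem (hv _ hp.2)]
    exact hp.2

theorem smul_Ici : ∀ x ∈ Ici (0 : ℝ), ∀ t : ℝ, 0 ≤ t → t • x ∈ Ici (0 : ℝ) :=
  fun _ hx _ ht => mul_nonneg ht hx

theorem hh_cone {L : Set (Finset V)} (hL : Down L) {v : V} (hv : ∀ F ∈ L, v ∉ F) :
    HH (fun p : V → ℝ => (Function.update p v 0, p v))
      (fun q : (V → ℝ) × ℝ => Function.update q.1 v q.2) (Cn (cone v L)) (Cn L ×ˢ Ici 0) where
  cf := by fun_prop
  cg := by fun_prop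
  mf p hp := ⟨update_mem hp, hp.1 v⟩
  mg q hq := update_mem_cone hv hq.1 hq.2
  gf p _ := by simp
  fg q hq := by simp [update_self0 hv hq.1]
  sX := (hL.cone v).smul
  hf p _ t _ := by
    refine Prod.ext ?_ rfl
    funext w
    by_cases h : w = v <;> simp [h]

theorem ball_sub {D Γ : Set (Finset V)} (h : Ball D Γ) : Γ ⊆ D := by
  obtain ⟨f, g, -, h2⟩ := h
  intro F hF
  simpa using (h2 _ (ind_mem hF)).1.2

theorem ball_simplex {S : Finset V} (hS : S.Nonempty) :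
    Ball {F | F ⊆ S} {F | F ⊆ S ∧ F ≠ S} := by
  have hD : Down {F : Finset V | F ⊆ S} := fun F hF G hG => hG.trans hF
  have key : ∀ q ∈ Cn {F : Finset V | F ⊆ S ∧ F ≠ S}, mn S q = 0 := fun q hq =>
    mn_zero hq.1 fun h => hq.2.2 (Finset.Subset.antisymm hq.2.1 h)
  refine ⟨fun p => (p - mn S p • ind S, mn S p), fun q => q.1 + q.2 • ind S,
    ⟨?_, ?_, fun p hp => ⟨⟨fun v => ?_, fun v hv => ?_, fun e => ?_⟩, mn_nonneg S hp.1⟩,
      fun q hq => ⟨fun v => ?_, fun v hv => ?_⟩, fun p _ => by simp, fun q hq => ?_, hD.smul,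
      fun p _ t ht => ?_⟩, fun p hp => ⟨⟨hp.1, hp.2.1⟩, by simp [key p hp]⟩⟩
  · have := continuous_mn S
    fun_prop
  · fun_prop
  · by_cases h : v ∈ S
    · simpa [ind, h] using mn_le p h
    · simpa [ind, h] using hp.1 v
  · by_contra h
    have h1 : p v = 0 := by_contra fun a => h (hp.2 (mem_supp.2 a))
    simp [ind, h, h1] at hv
  · obtain ⟨v, hv, e'⟩ := exists_mn hS p
    have h1 : v ∈ supp (p - mn S p • ind S) := by
      have e2 : supp (p - mn S p • ind S) = S := e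
      rw [e2]; exact hv
    simp [ind, hv, e'] at h1
  · have h1 := hq.1.1 v
    have h2 : (0 : ℝ) ≤ q.2 := hq.2
    by_cases h : v ∈ S
    · simpa [ind, h] using add_nonneg h1 h2
    · simpa [ind, h] using h1
  · by_contra h
    have h1 : q.1 v = 0 := by_contra fun a => h (hq.1.2.1 (mem_supp.2 a))
    simp [ind, h, h1] at hv
  · have e : mn S (q.1 + q.2 • ind S) = q.2 := by
      rw [mn_add (p := q.1) (c := q.2) hS fun v hv => by simp [ind, hv], key _ hq.1, zero_add]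
    simp [e]
  · simp [mn_smul S p ht, smul_sub, mul_smul]

theorem hh_quad {E : Type} [TopologicalSpace E] [SMul ℝ E] {X : Set E}
    (hX : ∀ x ∈ X, ∀ t : ℝ, 0 ≤ t → t • x ∈ X) :
    HH (fun z : (E × ℝ) × ℝ => (((z.1.1, z.1.2 - min z.1.2 z.2), z.2 - min z.1.2 z.2),
        min z.1.2 z.2))
      (fun w : ((E × ℝ) × ℝ) × ℝ => ((w.1.1.1, w.1.1.2 + w.2), w.1.2 + w.2))
      ((X ×ˢ Ici 0) ×ˢ Ici 0)
      ({z | z ∈ (X ×ˢ Ici 0) ×ˢ Ici 0 ∧ min z.1.2 z.2 = 0} ×ˢ Ici 0) where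
  cf := by fun_prop
  cg := by fun_prop
  mf z hz := ⟨⟨⟨⟨hz.1.1, (sub_nonneg.2 (min_le_left _ _) : 0 ≤ z.1.2 - min z.1.2 z.2)⟩,
    (sub_nonneg.2 (min_le_right _ _) : 0 ≤ z.2 - min z.1.2 z.2)⟩, by
    simp only [min_sub_sub_right, sub_self]⟩, (le_min hz.1.2 hz.2 : 0 ≤ min z.1.2 z.2)⟩
  mg w hw := ⟨⟨hw.1.1.1.1, (add_nonneg hw.1.1.1.2 hw.2 : 0 ≤ w.1.1.2 + w.2)⟩,
    (add_nonneg hw.1.1.2 hw.2 : 0 ≤ w.1.2 + w.2)⟩
  gf z _ := by simp
  fg w hw := by
    have h : min w.1.1.2 w.1.2 = 0 := hw.1.2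
    simp [min_add_add_right, h]
  sX z hz t ht := ⟨⟨hX _ hz.1.1 t ht, mul_nonneg ht hz.1.2⟩, mul_nonneg ht hz.2⟩
  hf z _ t ht := by
    simp [mul_sub, mul_min_of_nonneg _ _ ht]

theorem ball_cone {L Λ : Set (Finset V)} (h : Ball L Λ) (hL : Down L) (hΛ : Down Λ) {v : V}
    (hv : ∀ F ∈ L, v ∉ F) : Ball (cone v L) (L ∪ cone v Λ) := by
  have hsub := ball_sub h
  have hv' : ∀ F ∈ Λ, v ∉ F := fun F hF => hv F (hsub hF)
  obtain ⟨f, g, h1, h2⟩ := h
  have Φ := (hh_cone hL hv).trans (h1.prod (HH.refl smul_Ici))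
  have hin : Cn (L ∪ cone v Λ) ⊆ Cn (cone v L) := Cn_mono fun F hF =>
    hF.elim (fun a => hL F a _ (Finset.erase_subset _ _)) fun a => hsub a
  have m1 : ∀ p ∈ Cn (L ∪ cone v Λ), min (f (Function.update p v 0)).2 (p v) = 0 := by
    intro p hp
    have a := (Φ.mf (hin hp)).1.2
    rw [Cn_union] at hp
    rcases hp with hp | hp
    · rw [zero_at hv hp]
      exact min_eq_right a
    · rw [(h2 _ (update_mem hp)).2]
      exact min_eq_left (hp.1 v)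
  have Φ0 := Φ.restrict (X' := Cn (L ∪ cone v Λ))
    (Y' := {z | z ∈ (Cn Λ ×ˢ Ici 0) ×ˢ Ici 0 ∧ min z.1.2 z.2 = 0}) hin (fun z hz => hz.1)
    (fun p hp => ⟨Φ.mf (hin hp), m1 p hp⟩)
    (fun z hz => by
      rw [Cn_union]
      have a := h1.mg hz.1.1
      rcases min_eq_iff.1 hz.2 with b | b
      · right
        have c := h1.gf _ (h2 _ hz.1.1.1).1
        rw [(h2 _ hz.1.1.1).2, ← b.1] at c
        change Function.update (g z.1) v z.2 ∈ _
        rw [show g z.1 = z.1.1 from c]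
        exact update_mem_cone hv' hz.1.1.1 hz.1.2
      · left
        change Function.update (g z.1) v z.2 ∈ _
        rw [b.1, update_self0 hv a]
        exact a)
    (hL.union (hΛ.cone v)).smul
  refine ⟨_, _, (Φ.trans (hh_quad hΛ.smul)).trans (Φ0.symm.prod (HH.refl smul_Ici)),
    fun p hp => ⟨hin hp, ?_⟩⟩
  have e := Φ0.gf p hp
  simp only [m1 p hp, sub_zero] at e ⊢
  rw [e]

theorem hh_neg {E : Type} [TopologicalSpace E] [SMul ℝ E] {X : Set E}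
    (hX : ∀ x ∈ X, ∀ t : ℝ, 0 ≤ t → t • x ∈ X) :
    HH (fun z : E × ℝ => (z.1, -z.2)) (fun z : E × ℝ => (z.1, -z.2)) (X ×ˢ Ici 0)
      (X ×ˢ Iic 0) where
  cf := by fun_prop
  cg := by fun_prop
  mf z hz := ⟨hz.1, (neg_nonpos.2 hz.2 : -z.2 ≤ 0)⟩
  mg z hz := ⟨hz.1, (neg_nonneg.2 hz.2 : 0 ≤ -z.2)⟩
  gf z _ := by simp
  fg z _ := by simp
  sX z hz t ht := ⟨hX _ hz.1 t ht, mul_nonneg ht hz.2⟩
  hf z _ t _ := by simp

theorem hh_half {E : Type} [TopologicalSpace E] [SMul ℝ E] {X : Set E}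
    (hX : ∀ x ∈ X, ∀ t : ℝ, 0 ≤ t → t • x ∈ X) :
    HH (fun z : (E × ℝ) × ℝ => ((z.1.1, z.1.2 - min z.2 0), z.1.2 + max z.2 0))
      (fun w : (E × ℝ) × ℝ => ((w.1.1, min w.1.2 w.2), w.2 - w.1.2))
      ((X ×ˢ Ici 0) ×ˢ univ) ((X ×ˢ Ici 0) ×ˢ Ici 0) where
  cf := by fun_prop
  cg := by fun_prop
  mf z hz := ⟨⟨hz.1.1, (sub_nonneg.2 ((min_le_right _ _).trans hz.1.2) : 0 ≤ z.1.2 - min z.2 0)⟩,
    (add_nonneg hz.1.2 (le_max_right _ _) : 0 ≤ z.1.2 + max z.2 0)⟩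
  mg w hw := ⟨⟨hw.1.1, (le_min hw.1.2 hw.2 : 0 ≤ min w.1.2 w.2)⟩, mem_univ _⟩
  gf z _ := by
    rcases le_total z.2 0 with h | h <;> simp [h]
  fg w _ := by
    rcases le_total w.1.2 w.2 with h | h <;> simp [h]
  sX z hz t ht := ⟨⟨hX _ hz.1.1 t ht, mul_nonneg ht hz.1.2⟩, mem_univ _⟩
  hf z _ t ht := by
    simp [mul_sub, mul_add, mul_min_of_nonneg _ _ ht, mul_max_of_nonneg _ _ ht]

theorem ball_attach {D T T' Λ : Set (Finset V)} (h : Ball D (T ∪ T')) (hT : Ball T Λ)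
    (hi : T ∩ T' = Λ) (dD : Down D) (dT : Down T) (dT' : Down T') (dΛ : Down Λ) {n : V}
    (hn : ∀ F ∈ D, n ∉ F) : Ball (D ∪ cone n T) (T' ∪ cone n Λ) := by
  have hsub := ball_sub h
  have nT : ∀ F ∈ T, n ∉ F := fun F hF => hn F (hsub (Or.inl hF))
  have nT' : ∀ F ∈ T', n ∉ F := fun F hF => hn F (hsub (Or.inr hF))
  have sΛ : Λ ⊆ T := ball_sub hT
  have nΛ : ∀ F ∈ Λ, n ∉ F := fun F hF => nT F (sΛ hF)
  obtain ⟨f, g, h1, h2⟩ := h
  obtain ⟨f', g', k1, k2⟩ := hT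
  have inT : Cn T ⊆ Cn (T ∪ T') := Cn_mono subset_union_left
  have inT' : Cn T' ⊆ Cn (T ∪ T') := Cn_mono subset_union_right
  obtain ⟨F, G, a, a1, a2, -, -⟩ := HH.glue2 h1 ((hh_cone dT nT).trans (hh_neg dT.smul))
    dD.isClosed (dT.cone n).isClosed ((dT.union dT').isClosed.prod isClosed_Ici)
    (dT.isClosed.prod isClosed_Iic)
    (fun p hp hp' => by
      have b := update_mem hp'
      rw [update_self0 hn hp] at b
      simp only [(h2 p (inT b)).2, update_self0 hn hp, zero_at hn hp, neg_zero])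
    (fun q hq hq' => by
      have b : q.2 = 0 := le_antisymm hq'.2 hq.2
      have c := h1.gf _ (h2 _ hq.1).1
      rw [(h2 _ hq.1).2, ← b] at c
      simp only [b, neg_zero, update_self0 nT hq'.1]
      exact c)
  have e1 : Cn (T ∪ T') ×ˢ Ici (0 : ℝ) ∪ Cn T ×ˢ Iic 0 = Cn T' ×ˢ Ici 0 ∪ Cn T ×ˢ univ := by
    ext q
    simp only [Cn_union, mem_union, mem_prod, mem_Ici, mem_Iic, mem_univ, and_true]
    have := le_total q.2 0
    tauto
  rw [← Cn_union, e1] at a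
  have su : ∀ x ∈ (univ : Set ℝ), ∀ t : ℝ, 0 ≤ t → t • x ∈ (univ : Set ℝ) :=
    fun _ _ _ _ => mem_univ _
  obtain ⟨F', G', b, b1, b2, -, -⟩ := HH.glue2
    (HH.refl (X := Cn T' ×ˢ Ici (0 : ℝ)) fun q hq t ht => ⟨dT'.smul _ hq.1 t ht,
      mul_nonneg ht hq.2⟩)
    (((k1.prod (HH.refl su)).trans (hh_half dΛ.smul)).trans
      ((hh_cone dΛ nΛ).symm.prod (HH.refl smul_Ici)))
    (dT'.isClosed.prod isClosed_Ici) (dT.isClosed.prod isClosed_univ)
    (dT'.isClosed.prod isClosed_Ici) ((dΛ.cone n).isClosed.prod isClosed_Ici)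
    (fun q hq hq' => by
      have c : q.1 ∈ Cn Λ := ⟨hq.1.1, hi ▸ ⟨hq'.1.2, hq.1.2⟩⟩
      have d : (0 : ℝ) ≤ q.2 := hq.2
      simp [(k2 _ c).2, d, update_self0 nΛ c])
    (fun q hq hq' => by
      have c := update_mem hq'.1
      rw [update_self0 nT' hq.1] at c
      have d : (0 : ℝ) ≤ q.2 := hq.2
      have e := k1.gf _ (k2 _ c).1
      rw [(k2 _ c).2] at e
      simp [update_self0 nT' hq.1, zero_at nT' hq.1, d, e])
  rw [← union_prod, ← Cn_union] at b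
  refine ⟨_, _, a.trans b, fun p hp => ?_⟩
  rw [Cn_union] at hp
  rcases hp with hp | hp
  · have c := h2 p (inT' hp)
    refine ⟨Cn_mono subset_union_left c.1, ?_⟩
    rw [a1 p c.1, c.2, b1 (p, 0) ⟨hp, le_refl (0 : ℝ)⟩]
  · have c : p ∈ Cn (cone n T) := ⟨hp.1, sΛ hp.2⟩
    refine ⟨Cn_mono subset_union_right c, ?_⟩
    have d := update_mem hp
    rw [a2 p c, b2 (Function.update p n 0, -p n) ⟨update_mem c, mem_univ _⟩]
    simp [(k2 _ d).2, hp.1 n]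

end BallQ

end Pool.Agent.MP_6a6613_co
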