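import Pool.Agent.MP_6a6613_co.BallQ1

/-! The largest separated subset of an interval. -/

namespace Pool.Agent.MP_6a6613_co

namespace BallQ

open Set

variable {m : ℕ}

/-- No two consecutive values. -/
def SepN (I : Finset (ZMod m)) : Prop := ∀ x ∈ I, ∀ y ∈ I, y.val ≠ x.val + 1

/-- All values lie in the interval. -/
def In (a b : ℕ) (F : Finset (ZMod m)) : Prop := ∀ x ∈ F, a ≤ x.val ∧ x.val ≤ b

open Classical in
/-- The size of the largest separated subset of `F` inside the interval. -/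
noncomputable def al (a b : ℕ) (F : Finset (ZMod m)) : ℕ :=
  (F.powerset.filter fun I => In a b I ∧ SepN I).sup Finset.card

theorem le_al {a b : ℕ} {F I : Finset (ZMod m)} (h1 : I ⊆ F) (h2 : In a b I) (h3 : SepN I) :
    I.card ≤ al a b F := by
  classical
  unfold al
  exact Finset.le_sup (f := Finset.card)
    (Finset.mem_filter.2 ⟨Finset.mem_powerset.2 h1, h2, h3⟩)

theorem exists_al (a b : ℕ) (F : Finset (ZMod m)) :
    ∃ I ⊆ F, In a b I ∧ SepN I ∧ I.card = al a b F := by
  classical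
  obtain ⟨I, hI, e⟩ := Finset.exists_mem_eq_sup (F.powerset.filter fun I => In a b I ∧ SepN I)
    ⟨∅, by simp [In, SepN]⟩ Finset.card
  rw [Finset.mem_filter, Finset.mem_powerset] at hI
  exact ⟨I, hI.1, hI.2.1, hI.2.2, by unfold al; convert e.symm⟩

theorem al_mono {a b a' b' : ℕ} {F F' : Finset (ZMod m)}
    (h : ∀ x ∈ F, a ≤ x.val → x.val ≤ b → x ∈ F' ∧ a' ≤ x.val ∧ x.val ≤ b') :
    al a b F ≤ al a' b' F' := by
  obtain ⟨I, h1, h2, h3, e⟩ := exists_al a b F
  rw [← e]
  exact le_al (fun x hx => (h x (h1 hx) (h2 x hx).1 (h2 x hx).2).1)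
    (fun x hx => (h x (h1 hx) (h2 x hx).1 (h2 x hx).2).2) h3

theorem al_le {a b a' b' : ℕ} (F : Finset (ZMod m)) (h1 : a' ≤ a) (h2 : b ≤ b') :
    al a b F ≤ al a' b' F := al_mono fun _ hx p q => ⟨hx, h1.trans p, q.trans h2⟩

theorem al_sub (a b : ℕ) {F G : Finset (ZMod m)} (h : G ⊆ F) : al a b G ≤ al a b F :=
  al_mono fun _ hx p q => ⟨h hx, p, q⟩

theorem al_erase {a b : ℕ} (F : Finset (ZMod m)) {u : ZMod m} (h : u.val < a ∨ b < u.val) :
    al a b (F.erase u) = al a b F :=
  le_antisymm (al_sub a b (Finset.erase_subset _ _)) (al_mono fun x hx p q =>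
    ⟨Finset.mem_erase.2 ⟨fun e => by rw [e] at p q; omega, hx⟩, p, q⟩)

variable [NeZero m]

theorem al_succ {a b a' b' : ℕ} (F : Finset (ZMod m))
    (h : ∀ x y : ℕ, a ≤ x → x ≤ b → a ≤ y → y ≤ b → ¬ (a' ≤ x ∧ x ≤ b') → ¬ (a' ≤ y ∧ y ≤ b') →
      x ≤ y + 1) : al a b F ≤ al a' b' F + 1 := by
  obtain ⟨I, h1, h2, h3, e⟩ := exists_al a b F
  rw [← e, ← Finset.card_filter_add_card_filter_not (s := I) fun x => a' ≤ x.val ∧ x.val ≤ b']
  refine add_le_add (le_al ((Finset.filter_subset _ _).trans h1)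
    (fun x hx => (Finset.mem_filter.1 hx).2)
    fun x hx y hy => h3 x (Finset.mem_filter.1 hx).1 y (Finset.mem_filter.1 hy).1) ?_
  refine Finset.card_le_one.2 fun x hx y hy => ZMod.val_injective m ?_
  rw [Finset.mem_filter] at hx hy
  have a1 := h2 x hx.1
  have a2 := h2 y hy.1
  have a3 := h _ _ a1.1 a1.2 a2.1 a2.2 hx.2 hy.2
  have a4 := h _ _ a2.1 a2.2 a1.1 a1.2 hy.2 hx.2
  have a5 := h3 x hx.1 y hy.1
  have a6 := h3 y hy.1 x hx.1
  omega

omit [NeZero m] in
theorem al_top {a b b' : ℕ} {F : Finset (ZMod m)} {v : ZMod m} (hv : v ∈ F) (h1 : a ≤ v.val)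
    (h2 : v.val ≤ b') (h3 : b + 2 ≤ v.val) : al a b F + 1 ≤ al a b' F := by
  obtain ⟨I, k1, k2, k3, e⟩ := exists_al a b F
  have hn : v ∉ I := fun h => by have := k2 v h; omega
  rw [← e, ← Finset.card_insert_of_notMem hn]
  refine le_al (Finset.insert_subset hv k1) (fun x hx => ?_) fun x hx y hy => ?_
  · rcases Finset.mem_insert.1 hx with rfl | hx
    · exact ⟨h1, h2⟩
    · have := k2 x hx
      omega
  · rcases Finset.mem_insert.1 hx with ex | hx' <;> rcases Finset.mem_insert.1 hy with ey | hy'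
    · rw [ex, ey]
      omega
    · have := k2 y hy'
      rw [ex]
      omega
    · have := k2 x hx'
      rw [ey]
      omega
    · exact k3 x hx' y hy'

omit [NeZero m] in
theorem al_gap {N c : ℕ} {F : Finset (ZMod m)} (hc : ∀ x ∈ F, x.val ≠ c) (h1 : 1 ≤ c)
    (h2 : c ≤ N + 1) : al 1 N F + al 2 (N + 1) F ≤ al 1 (N + 1) F + al 2 N F := by
  obtain ⟨I, i1, i2, i3, e⟩ := exists_al 1 N F
  obtain ⟨J, j1, j2, j3, e'⟩ := exists_al 2 (N + 1) F
  have key : ∀ (A B : Finset (ZMod m)) (a b : ℕ), A ⊆ F → B ⊆ F → SepN A → SepN B →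
      (∀ x ∈ A, x.val < c → a ≤ x.val ∧ x.val ≤ b) →
      (∀ x ∈ B, c < x.val → a ≤ x.val ∧ x.val ≤ b) →
      (A.filter fun x => x.val < c).card + (B.filter fun x => ¬ x.val < c).card ≤ al a b F := by
    intro A B a b hA hB sA sB iA iB
    have hd : Disjoint (A.filter fun x => x.val < c) (B.filter fun x => ¬ x.val < c) :=
      Finset.disjoint_left.2 fun x hx hx' =>
        (Finset.mem_filter.1 hx').2 (Finset.mem_filter.1 hx).2
    rw [← Finset.card_union_of_disjoint hd]
    refine le_al (Finset.union_subset ((Finset.filter_subset _ _).trans hA)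
      ((Finset.filter_subset _ _).trans hB)) (fun x hx => ?_) fun x hx y hy => ?_
    · rcases Finset.mem_union.1 hx with hx | hx <;> rw [Finset.mem_filter] at hx
      · exact iA x hx.1 hx.2
      · have := hc x (hB hx.1)
        exact iB x hx.1 (by omega)
    · rcases Finset.mem_union.1 hx with hx | hx <;> rcases Finset.mem_union.1 hy with hy | hy <;>
        rw [Finset.mem_filter] at hx hy
      · exact sA x hx.1 y hy.1
      · have := hc y (hB hy.1)
        omega
      · omega
      · exact sB x hx.1 y hy.1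
  have k1 := key I J 1 (N + 1) i1 j1 i3 j3 (fun x hx _ => by have := i2 x hx; omega)
    (fun x hx _ => by have := j2 x hx; omega)
  have k2 := key J I 2 N j1 i1 j3 i3 (fun x hx _ => by have := j2 x hx; omega)
    (fun x hx _ => by have := i2 x hx; omega)
  have k3 := Finset.card_filter_add_card_filter_not (s := I) fun x => x.val < c
  have k4 := Finset.card_filter_add_card_filter_not (s := J) fun x => x.val < c
  omega

theorem al_ub {a : ℕ} (ha : 1 ≤ a) (F : Finset (ZMod m)) (k : ℕ) :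
    ∀ b, b + 1 ≤ a + 2 * k → al a b F ≤ k := by
  induction k with
  | zero =>
    intro b hb
    obtain ⟨I, -, i2, -, e⟩ := exists_al a b F
    rw [← e, Nat.le_zero, Finset.card_eq_zero, Finset.eq_empty_iff_forall_notMem]
    intro x hx
    have := i2 x hx
    omega
  | succ k ih =>
    intro b hb
    have h1 := ih (b - 2) (by omega)
    have h2 : al a b F ≤ al a (b - 2) F + 1 := al_succ F (by omega)
    omega

omit [NeZero m] in
theorem al_one {a b : ℕ} {F : Finset (ZMod m)} {v : ZMod m} (hv : v ∈ F) (h1 : a ≤ v.val)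
    (h2 : v.val ≤ b) : 1 ≤ al a b F := by
  rw [← Finset.card_singleton v]
  refine le_al (Finset.singleton_subset_iff.2 hv) (fun x hx => ?_) fun x hx y hy => ?_
  · rw [Finset.mem_singleton.1 hx]
    exact ⟨h1, h2⟩
  · rw [Finset.mem_singleton.1 hx, Finset.mem_singleton.1 hy]
    omega

omit [NeZero m] in
theorem al_lb {a : ℕ} (F : Finset (ZMod m)) (k : ℕ) :
    ∀ b, (∀ n, a ≤ n → n ≤ b → ∃ x ∈ F, x.val = n) → a + 2 * k ≤ b → k + 1 ≤ al a b F := by
  induction k with
  | zero =>
    intro b h hb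
    obtain ⟨x, hx, e⟩ := h a le_rfl (by omega)
    exact al_one hx (by omega) (by omega)
  | succ k ih =>
    intro b h hb
    obtain ⟨x, hx, e⟩ := h b (by omega) le_rfl
    have h1 := ih (b - 2) (fun n p q => h n p (by omega)) (by omega)
    have h2 : al a (b - 2) F + 1 ≤ al a b F := al_top hx (by omega) (by omega) (by omega)
    omega

theorem In_erase {c : ℕ} (F : Finset (ZMod m)) {u : ZMod m} (hu : u.val = c + 1) :
    In 1 c (F.erase u) ↔ In 1 (c + 1) F := by
  constructor
  · intro h x hx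
    by_cases e : x = u
    · rw [e]; omega
    · have := h x (Finset.mem_erase.2 ⟨e, hx⟩)
      omega
  · intro h x hx
    rw [Finset.mem_erase] at hx
    have h1 := h x hx.2
    have h2 : x.val ≠ u.val := fun e => hx.1 (ZMod.val_injective m e)
    omega

theorem In_iff {c : ℕ} (F : Finset (ZMod m)) {u : ZMod m} (hu : u.val = c + 1) :
    In 1 c F ↔ In 1 (c + 1) F ∧ u ∉ F := by
  constructor
  · intro h
    exact ⟨fun x hx => by have := h x hx; omega, fun hx => by have := h u hx; omega⟩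
  · intro h
    rw [← Finset.erase_eq_of_notMem h.2, In_erase F hu]
    exact h.1

theorem al_not {a c : ℕ} {F : Finset (ZMod m)} {u : ZMod m} (hu : u.val = c + 1) (h : u ∉ F) :
    al a (c + 1) F = al a c F :=
  le_antisymm (al_mono fun x hx p q => ⟨hx, p, by
    have h2 : x.val ≠ u.val := fun e => h (ZMod.val_injective m e ▸ hx)
    omega⟩) (al_le F le_rfl (Nat.le_succ c))

theorem al_mem {a c : ℕ} {F : Finset (ZMod m)} {u : ZMod m} (hu : u.val = c + 2) (h : u ∈ F)
    (ha : a ≤ c + 2) : al a (c + 2) F = al a c F + 1 :=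
  le_antisymm (al_succ F (by omega)) (al_top h (by omega) (by omega) (by omega))

end BallQ

end Pool.Agent.MP_6a6613_co
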