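import Mathlib

/-! Cones over finite set families, homogeneous homeomorphisms, generalized bistellar flips. -/

namespace Pool.Agent.MP_6a6613_co

open Set

/-- `f`, `g` are mutually inverse, positively homogeneous homeomorphisms between `X` and `Y`. -/
structure HH {E E' : Type} [TopologicalSpace E] [TopologicalSpace E'] [SMul ℝ E] [SMul ℝ E']
    (f : E → E') (g : E' → E) (X : Set E) (Y : Set E') : Prop where
  cf : ContinuousOn f X
  cg : ContinuousOn g Y
  mf : MapsTo f X Y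
  mg : MapsTo g Y X
  gf : ∀ x ∈ X, g (f x) = x
  fg : ∀ y ∈ Y, f (g y) = y
  sX : ∀ x ∈ X, ∀ t : ℝ, 0 ≤ t → t • x ∈ X
  hf : ∀ x ∈ X, ∀ t : ℝ, 0 ≤ t → f (t • x) = t • f x

section HH

variable {E E' E'' E''' : Type} [TopologicalSpace E] [TopologicalSpace E'] [TopologicalSpace E'']
  [TopologicalSpace E'''] [SMul ℝ E] [SMul ℝ E'] [SMul ℝ E''] [SMul ℝ E''']

theorem HH.symm {f : E → E'} {g : E' → E} {X : Set E} {Y : Set E'} (h : HH f g X Y) :
    HH g f Y X where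
  cf := h.cg
  cg := h.cf
  mf := h.mg
  mg := h.mf
  gf := h.fg
  fg := h.gf
  sX y hy t ht := by
    have := h.mf (h.sX _ (h.mg hy) t ht)
    rwa [h.hf _ (h.mg hy) t ht, h.fg y hy] at this
  hf y hy t ht := by
    have := h.gf _ (h.sX _ (h.mg hy) t ht)
    rwa [h.hf _ (h.mg hy) t ht, h.fg y hy] at this

theorem HH.trans {f : E → E'} {g : E' → E} {X : Set E} {Y : Set E'} {f' : E' → E''}
    {g' : E'' → E'} {Z : Set E''} (h : HH f g X Y) (h' : HH f' g' Y Z) :
    HH (fun x => f' (f x)) (fun z => g (g' z)) X Z where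
  cf := h'.cf.comp h.cf h.mf
  cg := h.cg.comp h'.cg h'.mg
  mf _ hx := h'.mf (h.mf hx)
  mg _ hz := h.mg (h'.mg hz)
  gf x hx := by rw [h'.gf _ (h.mf hx), h.gf x hx]
  fg z hz := by rw [h.fg _ (h'.mg hz), h'.fg z hz]
  sX := h.sX
  hf x hx t ht := by rw [h.hf x hx t ht, h'.hf _ (h.mf hx) t ht]

theorem HH.refl {X : Set E} (hX : ∀ x ∈ X, ∀ t : ℝ, 0 ≤ t → t • x ∈ X) :
    HH (fun x => x) (fun x => x) X X :=
  ⟨continuousOn_id, continuousOn_id, fun _ h => h, fun _ h => h, fun _ _ => rfl, fun _ _ => rfl,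
    hX, fun _ _ _ _ => rfl⟩

theorem HH.prod {f : E → E'} {g : E' → E} {X : Set E} {Y : Set E'} {f' : E'' → E'''}
    {g' : E''' → E''} {X' : Set E''} {Y' : Set E'''} (h : HH f g X Y) (h' : HH f' g' X' Y') :
    HH (fun x : E × E'' => (f x.1, f' x.2)) (fun y : E' × E''' => (g y.1, g' y.2))
      (X ×ˢ X') (Y ×ˢ Y') where
  cf := (h.cf.comp continuousOn_fst fun _ hx => hx.1).prodMk
    (h'.cf.comp continuousOn_snd fun _ hx => hx.2)
  cg := (h.cg.comp continuousOn_fst fun _ hx => hx.1).prodMk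
    (h'.cg.comp continuousOn_snd fun _ hx => hx.2)
  mf _ hx := ⟨h.mf hx.1, h'.mf hx.2⟩
  mg _ hx := ⟨h.mg hx.1, h'.mg hx.2⟩
  gf x hx := by simp [h.gf _ hx.1, h'.gf _ hx.2]
  fg x hx := by simp [h.fg _ hx.1, h'.fg _ hx.2]
  sX x hx t ht := ⟨h.sX _ hx.1 t ht, h'.sX _ hx.2 t ht⟩
  hf x hx t ht := by simp [h.hf _ hx.1 t ht, h'.hf _ hx.2 t ht]

/-- Restriction to matching subsets. -/
theorem HH.restrict {f : E → E'} {g : E' → E} {X : Set E} {Y : Set E'} (h : HH f g X Y)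
    {X' : Set E} {Y' : Set E'} (hX : X' ⊆ X) (hY : Y' ⊆ Y) (h1 : MapsTo f X' Y')
    (h2 : MapsTo g Y' X') (hs : ∀ x ∈ X', ∀ t : ℝ, 0 ≤ t → t • x ∈ X') : HH f g X' Y' :=
  ⟨h.cf.mono hX, h.cg.mono hY, h1, h2, fun x hx => h.gf x (hX hx), fun y hy => h.fg y (hY hy), hs,
    fun x hx => h.hf x (hX hx)⟩

theorem HH.inj {f : E → E'} {g : E' → E} {X : Set E} {Y : Set E'} (h : HH f g X Y) {x x' : E}
    (hx : x ∈ X) (hx' : x' ∈ X) (e : f x = f x') : x = x' := by
  rw [← h.gf x hx, e, h.gf x' hx']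

/-- Gluing along finite closed covers. -/
theorem HH.glue {ι : Type} [Finite ι] [Nonempty E] [Nonempty E'] {X : ι → Set E} {Y : ι → Set E'}
    {f : ι → E → E'} {g : ι → E' → E} (h : ∀ i, HH (f i) (g i) (X i) (Y i))
    (cX : ∀ i, IsClosed (X i)) (cY : ∀ i, IsClosed (Y i))
    (hf : ∀ i k, ∀ x, x ∈ X i → x ∈ X k → f i x = f k x)
    (hg : ∀ i k, ∀ y, y ∈ Y i → y ∈ Y k → g i y = g k y) :
    ∃ F G, HH F G (⋃ i, X i) (⋃ i, Y i) ∧ (∀ i, ∀ x ∈ X i, F x = f i x) ∧
      ∀ i, ∀ y ∈ Y i, G y = g i y := by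
  classical
  let F : E → E' := fun x => if hx : ∃ i, x ∈ X i then f hx.choose x else Classical.arbitrary _
  let G : E' → E := fun y => if hy : ∃ i, y ∈ Y i then g hy.choose y else Classical.arbitrary _
  have hF : ∀ i, ∀ x ∈ X i, F x = f i x := fun i x hx => by
    have hx' : ∃ i, x ∈ X i := ⟨i, hx⟩
    simp only [F, dif_pos hx']
    exact hf _ _ x hx'.choose_spec hx
  have hG : ∀ i, ∀ y ∈ Y i, G y = g i y := fun i y hy => by
    have hy' : ∃ i, y ∈ Y i := ⟨i, hy⟩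
    simp only [G, dif_pos hy']
    exact hg _ _ y hy'.choose_spec hy
  refine ⟨F, G, ⟨?_, ?_, ?_, ?_, ?_, ?_, ?_, ?_⟩, hF, hG⟩
  · exact (locallyFinite_of_finite X).continuousOn_iUnion cX
      fun i => (h i).cf.congr fun x hx => hF i x hx
  · exact (locallyFinite_of_finite Y).continuousOn_iUnion cY
      fun i => (h i).cg.congr fun x hx => hG i x hx
  · intro x hx
    obtain ⟨i, hi⟩ := mem_iUnion.1 hx
    exact mem_iUnion.2 ⟨i, hF i x hi ▸ (h i).mf hi⟩
  · intro x hx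
    obtain ⟨i, hi⟩ := mem_iUnion.1 hx
    exact mem_iUnion.2 ⟨i, hG i x hi ▸ (h i).mg hi⟩
  · intro x hx
    obtain ⟨i, hi⟩ := mem_iUnion.1 hx
    rw [hF i x hi, hG i _ ((h i).mf hi), (h i).gf x hi]
  · intro x hx
    obtain ⟨i, hi⟩ := mem_iUnion.1 hx
    rw [hG i x hi, hF i _ ((h i).mg hi), (h i).fg x hi]
  · intro x hx t ht
    obtain ⟨i, hi⟩ := mem_iUnion.1 hx
    exact mem_iUnion.2 ⟨i, (h i).sX x hi t ht⟩
  · intro x hx t ht
    obtain ⟨i, hi⟩ := mem_iUnion.1 hx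
    rw [hF i x hi, hF i _ ((h i).sX x hi t ht), (h i).hf x hi t ht]

/-- Gluing of two pieces. -/
theorem HH.glue2 [Nonempty E] [Nonempty E'] {X1 X2 : Set E} {Y1 Y2 : Set E'}
    {f1 f2 : E → E'} {g1 g2 : E' → E} (h1 : HH f1 g1 X1 Y1) (h2 : HH f2 g2 X2 Y2)
    (c1 : IsClosed X1) (c2 : IsClosed X2) (d1 : IsClosed Y1) (d2 : IsClosed Y2)
    (hf : ∀ x, x ∈ X1 → x ∈ X2 → f1 x = f2 x) (hg : ∀ y, y ∈ Y1 → y ∈ Y2 → g1 y = g2 y) :
    ∃ F G, HH F G (X1 ∪ X2) (Y1 ∪ Y2) ∧ (∀ x ∈ X1, F x = f1 x) ∧ (∀ x ∈ X2, F x = f2 x) ∧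
      (∀ y ∈ Y1, G y = g1 y) ∧ ∀ y ∈ Y2, G y = g2 y := by
  obtain ⟨F, G, h, hF, hG⟩ := HH.glue (ι := Bool) (X := fun b => cond b X1 X2)
    (Y := fun b => cond b Y1 Y2) (f := fun b => cond b f1 f2) (g := fun b => cond b g1 g2)
    (fun b => by cases b; exacts [h2, h1]) (fun b => by cases b; exacts [c2, c1])
    (fun b => by cases b; exacts [d2, d1])
    (fun b b' x hx hx' => by
      cases b <;> cases b'
      exacts [rfl, (hf x hx' hx).symm, hf x hx hx', rfl])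
    (fun b b' x hx hx' => by
      cases b <;> cases b'
      exacts [rfl, (hg x hx' hx).symm, hg x hx hx', rfl])
  refine ⟨F, G, ?_, hF true, hF false, hG true, hG false⟩
  rwa [← union_eq_iUnion, ← union_eq_iUnion] at h

end HH

variable {V : Type} [Fintype V] [DecidableEq V]

open Classical in
/-- The support of a vector. -/
noncomputable def supp (p : V → ℝ) : Finset V := Finset.univ.filter fun v => p v ≠ 0

/-- The cone over a family of finite sets: nonnegative vectors with support in the family. -/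
def Cn (K : Set (Finset V)) : Set (V → ℝ) := {p | (∀ v, 0 ≤ p v) ∧ supp p ∈ K}

/-- Down-closed families. -/
def Down (K : Set (Finset V)) : Prop := ∀ F ∈ K, ∀ G, G ⊆ F → G ∈ K

omit [DecidableEq V] in
@[simp] theorem mem_supp {p : V → ℝ} {v : V} : v ∈ supp p ↔ p v ≠ 0 := by simp [supp]

omit [DecidableEq V] in
theorem supp_smul_sub (p : V → ℝ) (t : ℝ) : supp (t • p) ⊆ supp p := fun v hv => by
  rw [mem_supp] at hv ⊢
  exact fun h => hv (by simp [h])

omit [DecidableEq V] in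
theorem Down.smul {K : Set (Finset V)} (hK : Down K) : ∀ p ∈ Cn K, ∀ t : ℝ, 0 ≤ t → t • p ∈ Cn K :=
  fun p hp t ht => ⟨fun v => mul_nonneg ht (hp.1 v), hK _ hp.2 _ (supp_smul_sub p t)⟩

omit [DecidableEq V] in
theorem Cn_mono {K L : Set (Finset V)} (h : K ⊆ L) : Cn K ⊆ Cn L := fun _ hp => ⟨hp.1, h hp.2⟩

omit [DecidableEq V] in
theorem Cn_union (K L : Set (Finset V)) : Cn (K ∪ L) = Cn K ∪ Cn L := by
  ext p; simp only [Cn, mem_ofPred_eq, mem_union]; tauto

omit [DecidableEq V] in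
theorem Cn_iUnion {ι : Type} (K : ι → Set (Finset V)) : Cn (⋃ i, K i) = ⋃ i, Cn (K i) := by
  ext p; simp only [Cn, mem_ofPred_eq, mem_iUnion]; tauto

omit [DecidableEq V] in
theorem Down.isClosed {K : Set (Finset V)} (hK : Down K) : IsClosed (Cn K) := by
  have : Cn K = ⋃ F ∈ K, {p : V → ℝ | (∀ v, 0 ≤ p v) ∧ ∀ v, v ∉ F → p v = 0} := by
    ext p
    simp only [Cn, mem_ofPred_eq, mem_iUnion]
    constructor
    · rintro ⟨h1, h2⟩
      exact ⟨_, h2, h1, fun v hv => by simpa using hv⟩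
    · rintro ⟨F, hF, h1, h2⟩
      exact ⟨h1, hK F hF _ fun v hv => by_contra fun h => (mem_supp.1 hv) (h2 v h)⟩
  rw [this]
  refine (toFinite K).isClosed_biUnion fun F _ => ?_
  simp only [ofPred_and, ofPred_forall]
  exact (isClosed_iInter fun v => isClosed_le continuous_const (continuous_apply v)).inter
    (isClosed_iInter fun v => isClosed_iInter fun _ =>
      isClosed_eq (continuous_apply v) continuous_const)

omit [Fintype V] [DecidableEq V] in
theorem Down.union {K L : Set (Finset V)} (hK : Down K) (hL : Down L) : Down (K ∪ L) :=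
  fun F hF G hG => hF.elim (fun h => Or.inl (hK F h G hG)) fun h => Or.inr (hL F h G hG)

/-- The indicator vector of a finite set. -/
def ind (F : Finset V) : V → ℝ := fun v => if v ∈ F then 1 else 0

@[simp] theorem supp_ind (F : Finset V) : supp (ind F) = F := by
  ext v; simp [ind]

theorem ind_mem {K : Set (Finset V)} {F : Finset V} (h : F ∈ K) : ind F ∈ Cn K :=
  ⟨fun v => by unfold ind; split_ifs <;> norm_num, by simpa using h⟩

/-- The cone with apex `z`. -/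
def cone (z : V) (K : Set (Finset V)) : Set (Finset V) := {F | F.erase z ∈ K}

omit [Fintype V] in
theorem Down.cone {K : Set (Finset V)} (hK : Down K) (z : V) : Down (cone z K) :=
  fun _ hF _ hG => hK _ hF _ (Finset.erase_subset_erase z hG)

/-- The cone over `K` is homogeneously homeomorphic to `ℝ^d`. -/
def Sph (K : Set (Finset V)) (d : ℕ) : Prop :=
  ∃ (f : (V → ℝ) → (Fin d → ℝ)) (g : (Fin d → ℝ) → (V → ℝ)), HH f g (Cn K) univ

/-- Homeomorphism of cones fixing the points supported on members of `Γ`. -/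
def RI (D D' Γ : Set (Finset V)) : Prop :=
  ∃ f g : (V → ℝ) → (V → ℝ), HH f g (Cn D) (Cn D') ∧ ∀ p ∈ Cn D, supp p ∈ Γ → f p = p

/-- `D` is a ball with boundary `Γ`. -/
def Ball (D Γ : Set (Finset V)) : Prop :=
  ∃ (f : (V → ℝ) → (V → ℝ) × ℝ) (g : (V → ℝ) × ℝ → (V → ℝ)),
    HH f g (Cn D) (Cn Γ ×ˢ Ici (0 : ℝ)) ∧ ∀ p ∈ Cn Γ, p ∈ Cn D ∧ f p = (p, 0)

omit [DecidableEq V] in
theorem RI.refl {D : Set (Finset V)} (hD : Down D) (Γ : Set (Finset V)) : RI D D Γ :=
  ⟨_, _, HH.refl hD.smul, fun _ _ _ => rfl⟩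

omit [DecidableEq V] in
theorem RI.trans {D D' D'' Γ : Set (Finset V)} (h : RI D D' Γ) (h' : RI D' D'' Γ) :
    RI D D'' Γ := by
  obtain ⟨f, g, h, hf⟩ := h
  obtain ⟨f', g', h', hf'⟩ := h'
  refine ⟨_, _, h.trans h', fun p hp hs => ?_⟩
  have := h.mf hp
  rw [hf p hp hs] at this ⊢
  exact hf' p this hs

omit [DecidableEq V] in
theorem RI.sph {D D' Γ : Set (Finset V)} {d : ℕ} (h : RI D D' Γ) (hs : Sph D d) : Sph D' d := by
  obtain ⟨f, g, h, -⟩ := h
  obtain ⟨f', g', h'⟩ := hs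
  exact ⟨_, _, h.symm.trans h'⟩

omit [DecidableEq V] in
theorem RI.ball {D D' Γ : Set (Finset V)} (h : RI D D' Γ) (hb : Ball D Γ) : Ball D' Γ := by
  obtain ⟨f, g, h, hf⟩ := h
  obtain ⟨f', g', h', hf'⟩ := hb
  refine ⟨_, _, h.symm.trans h', fun p hp => ?_⟩
  have h1 := (hf' p hp).1
  have h2 := hf p h1 hp.2
  have h3 := h.mf h1
  have h4 := h.gf p h1
  rw [h2] at h3 h4
  exact ⟨h3, by simp only [h4, (hf' p hp).2]⟩

omit [DecidableEq V] in
theorem RI.glue {U D D' Γ : Set (Finset V)} (h : RI D D' Γ) (hU : Down U) (hD : Down D)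
    (hD' : Down D') (h1 : U ∩ D ⊆ Γ) (h2 : U ∩ D' ⊆ D) : RI (U ∪ D) (U ∪ D') U := by
  obtain ⟨f, g, h, hf⟩ := h
  obtain ⟨F, G, hh, a1, -, -, -⟩ := HH.glue2 (HH.refl hU.smul) h hU.isClosed hD.isClosed
    hU.isClosed hD'.isClosed (fun p hp hp' => (hf p hp' (h1 ⟨hp.2, hp'.2⟩)).symm)
    (fun p hp hp' => by
      have a : p ∈ Cn D := ⟨hp.1, h2 ⟨hp.2, hp'.2⟩⟩
      have b := h.gf p a
      rw [hf p a (h1 ⟨hp.2, a.2⟩)] at b
      exact b.symm)
  rw [← Cn_union, ← Cn_union] at hh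
  exact ⟨F, G, hh, fun p hp hs => a1 p ⟨hp.1, hs⟩⟩

/-- The conditions for a generalized bistellar flip. -/
structure FC (K : Set (Finset V)) (σ τ : Finset V) : Prop where
  down : Down K
  disj : Disjoint σ τ
  nσ : σ.Nonempty
  nτ : τ.Nonempty
  new : ∀ F ∈ K, ¬ τ ⊆ F
  link : ∀ F ∈ K, σ ⊆ F → ∀ t ∈ τ, (F ∪ τ).erase t ∈ K

/-- The result of a flip. -/
def flip (K : Set (Finset V)) (σ τ : Finset V) : Set (Finset V) :=
  {F | ¬ σ ⊆ F ∧ (F ∈ K ∨ (τ ⊆ F ∧ ∀ t ∈ τ, (F ∪ σ).erase t ∈ K))}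

/-- The minimum of the coordinates in `σ`. -/
noncomputable def mn (σ : Finset V) (p : V → ℝ) : ℝ := if h : σ.Nonempty then σ.inf' h p else 0

/-- The flip map. -/
noncomputable def fl (σ τ : Finset V) (p : V → ℝ) : V → ℝ := p + mn σ p • (ind τ - ind σ)

omit [Fintype V] [DecidableEq V] in
theorem mn_le {σ : Finset V} (p : V → ℝ) {v : V} (hv : v ∈ σ) : mn σ p ≤ p v := by
  rw [mn, dif_pos ⟨v, hv⟩]; exact Finset.inf'_le _ hv

omit [Fintype V] [DecidableEq V] in
theorem exists_mn {σ : Finset V} (h : σ.Nonempty) (p : V → ℝ) : ∃ v ∈ σ, mn σ p = p v := by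
  rw [mn, dif_pos h]; exact Finset.exists_mem_eq_inf' h p

omit [Fintype V] [DecidableEq V] in
theorem mn_eq {σ : Finset V} {p : V → ℝ} {c : ℝ} (h1 : ∀ v ∈ σ, c ≤ p v) {w : V} (hw : w ∈ σ)
    (h2 : p w = c) : mn σ p = c := by
  obtain ⟨v, hv, e⟩ := exists_mn ⟨w, hw⟩ p
  exact le_antisymm (h2 ▸ mn_le p hw) (e ▸ h1 v hv)

omit [Fintype V] [DecidableEq V] in
theorem mn_nonneg (σ : Finset V) {p : V → ℝ} (hp : ∀ v, 0 ≤ p v) : 0 ≤ mn σ p := by
  by_cases h : σ.Nonempty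
  · obtain ⟨v, -, e⟩ := exists_mn h p
    exact e ▸ hp v
  · rw [mn, dif_neg h]

omit [DecidableEq V] in
theorem mn_zero {σ : Finset V} {p : V → ℝ} (hp : ∀ v, 0 ≤ p v) (h : ¬ σ ⊆ supp p) :
    mn σ p = 0 := by
  obtain ⟨v, hv, hv'⟩ := Finset.not_subset.1 h
  exact mn_eq (fun v _ => hp v) hv (by simpa using hv')

omit [DecidableEq V] in
theorem sub_of_mn_pos {σ : Finset V} {p : V → ℝ} (h : 0 < mn σ p) : σ ⊆ supp p :=
  fun _ hv => mem_supp.2 (h.trans_le (mn_le p hv)).ne'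

omit [Fintype V] [DecidableEq V] in
theorem mn_add {σ : Finset V} (h : σ.Nonempty) {p q : V → ℝ} {c : ℝ}
    (hq : ∀ v ∈ σ, q v = p v + c) : mn σ q = mn σ p + c := by
  obtain ⟨v, hv, e⟩ := exists_mn h p
  exact mn_eq (fun w hw => by rw [hq w hw]; linarith [mn_le p hw]) hv (by rw [hq v hv, e])

omit [Fintype V] [DecidableEq V] in
theorem mn_smul (σ : Finset V) (p : V → ℝ) {t : ℝ} (ht : 0 ≤ t) : mn σ (t • p) = t * mn σ p := by
  by_cases h : σ.Nonempty
  · obtain ⟨v, hv, e⟩ := exists_mn h p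
    exact mn_eq (fun w hw => mul_le_mul_of_nonneg_left (mn_le p hw) ht) hv (by simp [e])
  · simp [mn, dif_neg h]

omit [Fintype V] [DecidableEq V] in
theorem continuous_mn (σ : Finset V) : Continuous (mn σ : (V → ℝ) → ℝ) := by
  by_cases h : σ.Nonempty
  · have : (mn σ : (V → ℝ) → ℝ) = fun p => σ.inf' h p := by funext p; rw [mn, dif_pos h]
    rw [this]
    exact Continuous.finset_inf'_apply h fun v _ => continuous_apply v
  · have : (mn σ : (V → ℝ) → ℝ) = fun _ => 0 := by funext p; rw [mn, dif_neg h]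
    rw [this]; exact continuous_const

omit [Fintype V] in
theorem continuous_fl (σ τ : Finset V) : Continuous (fl σ τ) :=
  continuous_id.add ((continuous_mn σ).smul continuous_const)

theorem fl_fix {σ : Finset V} (τ : Finset V) {p : V → ℝ} (hp : ∀ v, 0 ≤ p v)
    (h : ¬ σ ⊆ supp p) : fl σ τ p = p := by simp [fl, mn_zero hp h]

omit [Fintype V] in
theorem fl_smul (σ τ : Finset V) (p : V → ℝ) {t : ℝ} (ht : 0 ≤ t) :
    fl σ τ (t • p) = t • fl σ τ p := by
  simp only [fl, mn_smul σ p ht, smul_add, mul_smul]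

omit [Fintype V] in
theorem FC.symm {K : Set (Finset V)} {σ τ : Finset V} (h : FC K σ τ) : FC (flip K σ τ) τ σ where
  down F hF G hG := by
    refine ⟨fun a => hF.1 (a.trans hG), ?_⟩
    rcases hF.2 with a | ⟨-, a⟩
    · exact Or.inl (h.down F a G hG)
    · by_cases b : τ ⊆ G
      · exact Or.inr ⟨b, fun t ht => h.down _ (a t ht) _
          (Finset.erase_subset_erase t (Finset.union_subset_union_left hG))⟩
      · obtain ⟨t, ht, ht'⟩ := Finset.not_subset.1 b
        exact Or.inl (h.down _ (a t ht) _ fun v hv => Finset.mem_erase.2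
          ⟨fun e => ht' (e ▸ hv), Finset.mem_union_left _ (hG hv)⟩)
  disj := h.disj.symm
  nσ := h.nτ
  nτ := h.nσ
  new F hF := hF.1
  link F hF hτ s hs := by
    rcases hF.2 with a | ⟨-, a⟩
    · exact absurd hτ (h.new F a)
    · refine ⟨fun b => by simpa using b hs, Or.inr ⟨fun t ht => Finset.mem_erase.2
        ⟨fun e => Finset.disjoint_left.1 h.disj hs (e ▸ ht), Finset.mem_union_left _ (hτ ht)⟩,
        fun t ht => h.down _ (a t ht) _ (Finset.erase_subset_erase t ?_)⟩⟩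
      exact Finset.union_subset (Finset.erase_subset _ _) Finset.subset_union_right

omit [Fintype V] in
theorem FC.flip_flip {K : Set (Finset V)} {σ τ : Finset V} (h : FC K σ τ) :
    flip (flip K σ τ) τ σ = K := by
  ext F
  constructor
  · rintro ⟨h1, ⟨-, a | a⟩ | ⟨h2, h3⟩⟩
    · exact a
    · exact absurd a.1 h1
    · obtain ⟨s, hs⟩ := h.nσ
      obtain ⟨t, ht, ht'⟩ := Finset.not_subset.1 h1
      have b : τ ⊆ (F ∪ τ).erase s := fun t ht => Finset.mem_erase.2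
        ⟨fun e => Finset.disjoint_left.1 h.disj hs (e ▸ ht), Finset.mem_union_right _ ht⟩
      rcases (h3 s hs).2 with a | a
      · exact absurd b (h.new _ a)
      · refine h.down _ (a.2 t ht) _ fun v hv => Finset.mem_erase.2 ⟨fun e => ht' (e ▸ hv), ?_⟩
        by_cases e : v = s
        · exact Finset.mem_union_right _ (e ▸ hs)
        · exact Finset.mem_union_left _ (Finset.mem_erase.2 ⟨e, Finset.mem_union_left _ hv⟩)
  · intro hF
    refine ⟨h.new F hF, ?_⟩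
    by_cases a : σ ⊆ F
    · refine Or.inr ⟨a, fun s hs => ⟨fun b => by simpa using b hs, Or.inr ⟨fun t ht =>
        Finset.mem_erase.2 ⟨fun e => Finset.disjoint_left.1 h.disj hs (e ▸ ht),
          Finset.mem_union_right _ ht⟩, fun t ht => h.down _ (h.link F hF a t ht) _
            (Finset.erase_subset_erase t ?_)⟩⟩⟩
      exact Finset.union_subset (Finset.erase_subset _ _) (a.trans Finset.subset_union_left)
    · exact Or.inl ⟨a, Or.inl hF⟩

omit [Fintype V] in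
theorem fl_apply (σ τ : Finset V) (p : V → ℝ) (v : V) :
    fl σ τ p v = p v + mn σ p * ((if v ∈ τ then 1 else 0) - if v ∈ σ then 1 else 0) := rfl

theorem FC.maps {K : Set (Finset V)} {σ τ : Finset V} (h : FC K σ τ) :
    MapsTo (fl σ τ) (Cn K) (Cn (flip K σ τ)) ∧ ∀ p ∈ Cn K, fl τ σ (fl σ τ p) = p := by
  have hd := Finset.disjoint_left.1 h.disj
  have key : ∀ p ∈ Cn K, mn τ (fl σ τ p) = mn σ p := fun p hp => by
    rw [mn_add (p := p) (c := mn σ p) h.nτ fun v hv => by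
      simp [fl_apply, hv, show v ∉ σ from fun a => hd a hv], mn_zero hp.1 (h.new _ hp.2), zero_add]
  refine ⟨fun p hp => ?_, fun p hp => ?_⟩
  · have h0 := mn_nonneg σ hp.1
    rcases h0.eq_or_lt with e | e
    · have : fl σ τ p = p := by simp [fl, ← e]
      rw [this]
      obtain ⟨v, hv, e'⟩ := exists_mn h.nσ p
      exact ⟨hp.1, fun a => mem_supp.1 (a hv) (by rw [← e', ← e]), Or.inl hp.2⟩
    · refine ⟨fun v => ?_, ?_, Or.inr ⟨sub_of_mn_pos (by rwa [key p hp]), fun t ht =>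
        h.down _ (h.link _ hp.2 (sub_of_mn_pos e) t ht) _ (Finset.erase_subset_erase t ?_)⟩⟩
      · rw [fl_apply]
        by_cases a : v ∈ σ
        · simp only [a, hd a, if_true, if_false]; linarith [mn_le p a]
        · have := hp.1 v
          simp only [a, if_false]; split_ifs <;> linarith
      · obtain ⟨v, hv, e'⟩ := exists_mn h.nσ p
        exact fun a => mem_supp.1 (a hv) (by simp [fl_apply, hv, hd hv, e'])
      · refine Finset.union_subset (fun v hv => ?_) ((sub_of_mn_pos e).trans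
          Finset.subset_union_left)
        by_cases a : v ∈ τ
        · exact Finset.mem_union_right _ a
        · by_cases b : v ∈ σ
          · exact Finset.mem_union_left _ (sub_of_mn_pos e b)
          · exact Finset.mem_union_left _ (by simpa [fl_apply, a, b] using hv)
  · funext v
    rw [fl_apply, key p hp, fl_apply]
    ring

theorem FC.hh {K : Set (Finset V)} {σ τ : Finset V} (h : FC K σ τ) :
    HH (fl σ τ) (fl τ σ) (Cn K) (Cn (flip K σ τ)) where
  cf := (continuous_fl σ τ).continuousOn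
  cg := (continuous_fl τ σ).continuousOn
  mf := h.maps.1
  mg := by have := h.symm.maps.1; rwa [h.flip_flip] at this
  gf := h.maps.2
  fg := h.symm.maps.2
  sX := h.down.smul
  hf p _ _ ht := fl_smul σ τ p ht

theorem FC.ri {K : Set (Finset V)} {σ τ : Finset V} (h : FC K σ τ) {Γ : Set (Finset V)}
    (hΓ : ∀ F ∈ Γ, ¬ σ ⊆ F) : RI K (flip K σ τ) Γ :=
  ⟨_, _, h.hh, fun _ hp hs => fl_fix τ hp.1 (hΓ _ hs)⟩

end Pool.Agent.MP_6a6613_co
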