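import Pool.Agent.MP_6a6613_co.Stmts

/-! Gluing six pinched cylinders into an open book. -/

namespace Pool.Agent.MP_6a6613_co

open Set Filter Topology

namespace BookAux

theorem cont_frac {E : Type} [TopologicalSpace E] {S : Set E} {u v w : E → ℝ}
    (hu : ContinuousOn u S) (hv : ContinuousOn v S) (hw : ContinuousOn w S)
    (h0 : ∀ x ∈ S, 0 ≤ u x) (h1 : ∀ x ∈ S, u x ≤ w x) (h2 : ∀ x ∈ S, w x = 0 → v x = 0) :
    ContinuousOn (fun x => u x * v x / w x) S := by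
  intro x hx
  by_cases e : w x = 0
  · have a : Tendsto (fun y => |v y|) (𝓝[S] x) (𝓝 0) := by
      have := (hv x hx).abs
      rwa [ContinuousWithinAt, h2 x hx e, abs_zero] at this
    rw [ContinuousWithinAt, e, div_zero]
    refine squeeze_zero_norm' ?_ a
    filter_upwards [self_mem_nhdsWithin] with y hy
    have b := h0 y hy
    have c := h1 y hy
    rw [Real.norm_eq_abs, mul_comm, mul_div_assoc, abs_mul]
    refine mul_le_of_le_one_right (abs_nonneg _) ?_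
    rw [abs_of_nonneg (div_nonneg b (b.trans c))]
    exact div_le_one_of_le₀ c (b.trans c)
  · exact ((hu x hx).mul (hv x hx)).div (hw x hx) e

theorem frac_bounds {u v w : ℝ} (h0 : 0 ≤ u) (h1 : u ≤ w) (hv : 0 ≤ v) :
    0 ≤ u * v / w ∧ u * v / w ≤ v := by
  refine ⟨div_nonneg (mul_nonneg h0 hv) (h0.trans h1), ?_⟩
  rw [mul_comm, mul_div_assoc]
  exact mul_le_of_le_one_right hv (div_le_one_of_le₀ h1 (h0.trans h1))

variable {V : Type} [Fintype V]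

/-- The Alexander trick on a quadrant bundle. -/
noncomputable def alex (ϱ : (V → ℝ) × ℝ → (V → ℝ) × ℝ) (x : (V → ℝ) × ℝ × ℝ) :
    (V → ℝ) × ℝ × ℝ :=
  ((ϱ (x.1, x.2.2 - min x.2.1 x.2.2)).1, x.2.1,
    min x.2.1 x.2.2 + (ϱ (x.1, x.2.2 - min x.2.1 x.2.2)).2)

omit [Fintype V] in
theorem alex_low {ϱ : (V → ℝ) × ℝ → (V → ℝ) × ℝ} {x : (V → ℝ) × ℝ × ℝ}
    (h : ϱ (x.1, 0) = (x.1, 0)) (hx : x.2.2 ≤ x.2.1) : alex ϱ x = x := by
  simp [alex, min_eq_right hx, h]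

omit [Fintype V] in
theorem alex_aux {A : Set (V → ℝ)} {ϱ ϱ' : (V → ℝ) × ℝ → (V → ℝ) × ℝ}
    (h : HH ϱ ϱ' (A ×ˢ Ici (0 : ℝ)) (A ×ˢ Ici (0 : ℝ))) (hfix : ∀ a ∈ A, ϱ (a, 0) = (a, 0)) :
    ContinuousOn (alex ϱ) (A ×ˢ Ici (0 : ℝ) ×ˢ Ici (0 : ℝ)) ∧
    MapsTo (alex ϱ) (A ×ˢ Ici (0 : ℝ) ×ˢ Ici (0 : ℝ)) (A ×ˢ Ici (0 : ℝ) ×ˢ Ici (0 : ℝ)) ∧
    ∀ x ∈ A ×ˢ Ici (0 : ℝ) ×ˢ Ici (0 : ℝ), alex ϱ' (alex ϱ x) = x := by
  have m : ∀ x ∈ A ×ˢ Ici (0 : ℝ) ×ˢ Ici (0 : ℝ),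
      (x.1, x.2.2 - min x.2.1 x.2.2) ∈ A ×ˢ Ici (0 : ℝ) :=
    fun x hx => ⟨hx.1, mem_Ici.2 (sub_nonneg.2 (min_le_right x.2.1 x.2.2))⟩
  have c : ContinuousOn (fun x : (V → ℝ) × ℝ × ℝ => ϱ (x.1, x.2.2 - min x.2.1 x.2.2))
      (A ×ˢ Ici (0 : ℝ) ×ˢ Ici (0 : ℝ)) := h.cf.comp (by fun_prop) m
  refine ⟨c.fst.prodMk (ContinuousOn.prodMk (by fun_prop)
      (ContinuousOn.add (by fun_prop) c.snd)),
    fun x hx => ⟨(h.mf (m x hx)).1, hx.2.1,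
      mem_Ici.2 (add_nonneg (le_min (mem_Ici.1 hx.2.1) (mem_Ici.1 hx.2.2))
        (mem_Ici.1 (h.mf (m x hx)).2))⟩, fun x hx => ?_⟩
  rcases le_total x.2.2 x.2.1 with e | e
  · rw [alex_low (hfix _ hx.1) e]
    refine alex_low ?_ e
    have := h.gf (x.1, 0) ⟨hx.1, le_refl (0 : ℝ)⟩
    rwa [hfix _ hx.1] at this
  · have a := m x hx
    have b : 0 ≤ (ϱ (x.1, x.2.2 - min x.2.1 x.2.2)).2 := (h.mf a).2
    have d := h.gf _ a
    rw [min_eq_left e] at b d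
    simp only [alex, min_eq_left e, min_eq_left (le_add_of_nonneg_right b), add_sub_cancel_left,
      Prod.mk.eta, d, add_sub_cancel]

omit [Fintype V] in
theorem alex_hh {A : Set (V → ℝ)} {ϱ ϱ' : (V → ℝ) × ℝ → (V → ℝ) × ℝ}
    (h : HH ϱ ϱ' (A ×ˢ Ici (0 : ℝ)) (A ×ˢ Ici (0 : ℝ))) (hfix : ∀ a ∈ A, ϱ (a, 0) = (a, 0)) :
    HH (alex ϱ) (alex ϱ') (A ×ˢ Ici (0 : ℝ) ×ˢ Ici (0 : ℝ))
      (A ×ˢ Ici (0 : ℝ) ×ˢ Ici (0 : ℝ)) := by
  have hfix' : ∀ a ∈ A, ϱ' (a, 0) = (a, 0) := fun a ha => by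
    have := h.gf (a, 0) ⟨ha, le_refl (0 : ℝ)⟩
    rwa [hfix a ha] at this
  obtain ⟨a1, a2, a3⟩ := alex_aux h hfix
  obtain ⟨b1, b2, b3⟩ := alex_aux h.symm hfix'
  refine ⟨a1, b1, a2, b2, a3, b3, fun x hx t ht => ⟨(h.sX (x.1, 0) ⟨hx.1, le_refl (0 : ℝ)⟩ t ht).1,
    mul_nonneg ht hx.2.1, mul_nonneg ht hx.2.2⟩, fun x hx t ht => ?_⟩
  have e : ((t • x).1, (t • x).2.2 - min (t • x).2.1 (t • x).2.2) =
      t • (x.1, x.2.2 - min x.2.1 x.2.2) := by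
    simp [mul_min_of_nonneg _ _ ht, mul_sub]
  have f := h.hf (x.1, x.2.2 - min x.2.1 x.2.2)
    ⟨hx.1, mem_Ici.2 (sub_nonneg.2 (min_le_right x.2.1 x.2.2))⟩ t ht
  simp only [alex]
  rw [e, f]
  simp [mul_min_of_nonneg _ _ ht, mul_add]

theorem quad {A' K0 Ω K : Set (Finset V)} (hA : Arc K0 Ω K) (hK : K0 ∩ K ⊆ A')
    {b0 b1 : (V → ℝ) → (V → ℝ) × ℝ} {c0 c1 : (V → ℝ) × ℝ → (V → ℝ)}
    (h0 : HH b0 c0 (Cn K0) (Cn A' ×ˢ Ici (0 : ℝ))) (f0 : ∀ p ∈ Cn A', p ∈ Cn K0 ∧ b0 p = (p, 0))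
    (h1 : HH b1 c1 (Cn K) (Cn A' ×ˢ Ici (0 : ℝ))) (f1 : ∀ p ∈ Cn A', p ∈ Cn K ∧ b1 p = (p, 0)) :
    ∃ k k', HH k k' (Cn Ω) (Cn A' ×ˢ Ici (0 : ℝ) ×ˢ Ici (0 : ℝ)) ∧
      (∀ y ∈ Cn K0, y ∈ Cn Ω ∧ k y = ((b0 y).1, (b0 y).2, 0)) ∧
      ∀ p ∈ Cn K, p ∈ Cn Ω ∧ k p = ((b1 p).1, 0, (b1 p).2) := by
  obtain ⟨Ψ, Ψ', π, π', len, hΨ, hπ, hlc, hl0, hls, hK0, hK1, e0, e1⟩ := hA
  have g1 : ∀ y ∈ Cn A', π y = y ∧ len y = 0 := by
    intro y hy
    have a := (e0 y (f0 y hy).1).symm.trans (e1 y (f1 y hy).1)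
    have b : π y = y := (congrArg Prod.fst a).symm
    have c : len (π y) = 0 := (congrArg Prod.snd a).symm
    exact ⟨b, b ▸ c⟩
  have g2 : ∀ y ∈ Cn K0, len y = 0 → (b0 y).2 = 0 := by
    intro y hy hl
    have a := hπ.mg hy
    have b := e1 _ a
    rw [hπ.fg y hy, hl, ← e0 y hy] at b
    have c := hΨ.inj (Cn_mono hK1 a) (Cn_mono hK0 hy) b
    rw [c] at a
    rw [(f0 y ⟨hy.1, hK ⟨hy.2, a.2⟩⟩).2]
  have g3 : ∀ a ∈ Cn A', c0 (a, 0) = a := fun a ha => by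
    have := h0.gf a (f0 a ha).1
    rwa [(f0 a ha).2] at this
  have g4 : ∀ y ∈ Cn K0, (b0 y).2 = 0 → len y = 0 := by
    intro y hy hb
    have a := h0.gf y hy
    have b := (h0.mf hy).1
    rw [show b0 y = ((b0 y).1, 0) from Prod.ext rfl hb, g3 _ b] at a
    exact (g1 y (a ▸ b)).2
  set T : Set ((V → ℝ) × ℝ) := {q | q.1 ∈ Cn K0 ∧ 0 ≤ q.2 ∧ q.2 ≤ len q.1} with hT
  let k0 : (V → ℝ) × ℝ → (V → ℝ) × ℝ × ℝ := fun q =>
    ((b0 q.1).1, (b0 q.1).2 - q.2 * (b0 q.1).2 / len q.1, q.2 * (b0 q.1).2 / len q.1)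
  let k0' : (V → ℝ) × ℝ × ℝ → (V → ℝ) × ℝ := fun x =>
    (c0 (x.1, x.2.1 + x.2.2), x.2.2 * len (c0 (x.1, x.2.1 + x.2.2)) / (x.2.1 + x.2.2))
  have m : ∀ x ∈ Cn A' ×ˢ Ici (0 : ℝ) ×ˢ Ici (0 : ℝ),
      (x.1, x.2.1 + x.2.2) ∈ Cn A' ×ˢ Ici (0 : ℝ) :=
    fun x hx => ⟨hx.1, mem_Ici.2 (add_nonneg (mem_Ici.1 hx.2.1) (mem_Ici.1 hx.2.2))⟩
  have hk0 : HH k0 k0' T (Cn A' ×ˢ Ici (0 : ℝ) ×ˢ Ici (0 : ℝ)) := by
    refine ⟨?_, ?_, ?_, ?_, ?_, ?_, hΨ.symm.sX, ?_⟩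
    · have cb : ContinuousOn (fun q : (V → ℝ) × ℝ => b0 q.1) T :=
        h0.cf.comp continuousOn_fst fun _ hq => hq.1
      have cθ := cont_frac (S := T) continuousOn_snd cb.snd
        (hlc.comp continuousOn_fst fun _ hq => hq.1) (fun _ hq => hq.2.1) (fun _ hq => hq.2.2)
        fun q hq => g2 _ hq.1
      exact cb.fst.prodMk ((cb.snd.sub cθ).prodMk cθ)
    · have cc : ContinuousOn (fun x : (V → ℝ) × ℝ × ℝ => c0 (x.1, x.2.1 + x.2.2))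
          (Cn A' ×ˢ Ici (0 : ℝ) ×ˢ Ici (0 : ℝ)) := h0.cg.comp (by fun_prop) m
      refine cc.prodMk (cont_frac (by fun_prop) (hlc.comp cc fun x hx => h0.mg (m x hx))
        (by fun_prop) (fun _ hx => hx.2.2) (fun _ hx => le_add_of_nonneg_left hx.2.1)
        fun x hx e => ?_)
      rw [e, g3 _ hx.1]
      exact (g1 _ hx.1).2
    · intro q hq
      obtain ⟨a, b⟩ := frac_bounds hq.2.1 hq.2.2 (h0.mf hq.1).2
      exact ⟨(h0.mf hq.1).1, sub_nonneg.2 b, a⟩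
    · intro x hx
      have a := h0.mg (m x hx)
      exact ⟨a, frac_bounds hx.2.2 (le_add_of_nonneg_left hx.2.1) (hl0 _ a)⟩
    · rintro ⟨y, t⟩ ⟨hy, ht, ht'⟩
      dsimp only at hy ht ht'
      simp only [k0, k0', sub_add_cancel, Prod.mk.eta, h0.gf y hy]
      congr 1
      by_cases e : len y = 0
      · have : t = 0 := le_antisymm (e ▸ ht') ht
        simp [this]
      · have e' : (b0 y).2 ≠ 0 := fun a => e (g4 y hy a)
        field_simp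
    · rintro ⟨a, r, r'⟩ hx
      have hr : 0 ≤ r := hx.2.1
      have hr' : 0 ≤ r' := hx.2.2
      have b := h0.fg _ (m _ hx)
      have c := h0.mg (m _ hx)
      dsimp only at b c
      have d : r' * len (c0 (a, r + r')) / (r + r') * (r + r') / len (c0 (a, r + r')) = r' := by
        by_cases e : r + r' = 0
        · have : r' = 0 := by linarith
          simp [this]
        · have e' : len (c0 (a, r + r')) ≠ 0 := fun z => e (by simpa [b] using g2 _ c z)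
          field_simp
      simp only [k0, k0', b, d, add_sub_cancel_right]
    · rintro ⟨y, t⟩ ⟨hy, -, -⟩ s hs
      dsimp only at hy
      have d : s * t * (s * (b0 y).2) / (s * len y) = s * (t * (b0 y).2 / len y) := by
        rcases hs.eq_or_lt with e | e
        · simp [← e]
        · rw [mul_assoc, mul_div_mul_left _ _ e.ne']
          ring
      simp only [k0, Prod.smul_mk, smul_eq_mul, h0.hf y hy s hs, hls y hy s hs, Prod.smul_fst,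
        Prod.smul_snd, d, mul_sub]
  have hϱ := (h0.symm.trans hπ.symm).trans h1
  have hfix : ∀ a ∈ Cn A', b1 (π' (c0 (a, 0))) = (a, 0) := by
    intro a ha
    have b := hπ.gf a (f1 a ha).1
    rw [(g1 a ha).1] at b
    rw [g3 a ha, b, (f1 a ha).2]
  refine ⟨_, _, (hΨ.trans hk0).trans (alex_hh hϱ hfix), fun y hy => ⟨Cn_mono hK0 hy, ?_⟩,
    fun p hp => ⟨Cn_mono hK1 hp, ?_⟩⟩
  · simp only [e0 y hy, k0, zero_mul, zero_div, sub_zero]
    exact alex_low (hfix _ (h0.mf hy).1) (h0.mf hy).2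
  · have a := hπ.mf hp
    have d : len (π p) * (b0 (π p)).2 / len (π p) = (b0 (π p)).2 := by
      by_cases e : len (π p) = 0
      · simp [g2 _ a e]
      · field_simp
    have z : 0 ≤ (b0 (π p)).2 := (h0.mf a).2
    simp only [e1 p hp, k0, d, sub_self, alex, min_eq_left z, sub_zero, Prod.mk.eta, h0.gf _ a,
      hπ.gf p hp, zero_add]

theorem succ_ne (k : Fin 6) : k + 1 ≠ k := by revert k; decide

/-- The embedding of a quadrant as a sector of the cone over the hexagon. -/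
noncomputable def emb (k : Fin 6) (x : (V → ℝ) × ℝ × ℝ) : (V → ℝ) × (Fin 6 → ℝ) :=
  (x.1, fun l => (if l = k then x.2.1 else 0) + if l = k + 1 then x.2.2 else 0)

omit [Fintype V] in
theorem emb_hh {A : Set (V → ℝ)} (hA : ∀ a ∈ A, ∀ t : ℝ, 0 ≤ t → t • a ∈ A) (k : Fin 6) :
    HH (emb k) (fun y => (y.1, y.2 k, y.2 (k + 1))) (A ×ˢ Ici (0 : ℝ) ×ˢ Ici (0 : ℝ))
      (A ×ˢ Cn {T | T ⊆ {k, k + 1}}) := by
  have n1 := succ_ne k
  refine ⟨?_, by fun_prop, fun x hx => ⟨hx.1, fun l => ?_, fun l hl => ?_⟩,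
    fun y hy => ⟨hy.1, hy.2.1 _, hy.2.1 _⟩, fun x _ => ?_, fun y hy => ?_,
    fun x hx t ht => ⟨hA _ hx.1 t ht, mul_nonneg ht hx.2.1, mul_nonneg ht hx.2.2⟩,
    fun x _ t _ => ?_⟩
  · refine continuousOn_fst.prodMk (continuousOn_pi.2 fun l => ?_)
    split_ifs <;> fun_prop
  · have a : 0 ≤ x.2.1 := hx.2.1
    have b : 0 ≤ x.2.2 := hx.2.2
    simp only [emb]
    split_ifs <;> linarith
  · rw [mem_supp] at hl
    by_contra e
    simp only [Finset.mem_insert, Finset.mem_singleton, not_or] at e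
    exact hl (by simp [emb, e.1, e.2])
  · simp [emb, n1, n1.symm]
  · refine Prod.ext rfl (funext fun l => ?_)
    by_cases e : l = k
    · simp [emb, e, n1.symm]
    · by_cases e' : l = k + 1
      · simp [emb, e', n1]
      · have : y.2 l = 0 := by
          by_contra z
          have := hy.2.2 (mem_supp.2 z)
          simp [e, e'] at this
        simp [emb, e, e', this]
  · refine Prod.ext rfl (funext fun l => ?_)
    simp [emb, mul_add]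

end BookAux

open BookAux in
theorem bookStmt : BookStmt := by
  intro V _ _ A' P Ω dA dP dΩ hB hArc hPP hΩP hΩA
  choose b c hb fb using hB
  choose q q' hq q0 q1 using fun k =>
    quad (hArc k) (hPP k) (hb k) (fb k) (hb (k + 1)) (fb (k + 1))
  have dY : ∀ k : Fin 6, Down {T : Finset (Fin 6) | T ⊆ {k, k + 1}} :=
    fun k F hF G hG => hG.trans hF
  have hh := fun k => (hq k).trans (emb_hh dA.smul k)
  have page : ∀ k, ∀ x ∈ Cn (P (k + 1)), emb k (q k x) = emb (k + 1) (q (k + 1) x) := by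
    intro k x hx
    simp [emb, (q1 k x hx).2, (q0 (k + 1) x hx).2]
  have spine : ∀ k, ∀ x ∈ Cn A', x ∈ Cn (Ω k) ∧ emb k (q k x) = (x, 0) := by
    intro k x hx
    obtain ⟨a1, a2⟩ := fb k x hx
    exact ⟨(q0 k x a1).1, by simp [emb, (q0 k x a1).2, a2, Pi.zero_def]⟩
  have cases6 : ∀ i k : Fin 6, k = i ∨ k = i + 1 ∨ i = k + 1 ∨
      (k ≠ i ∧ k ≠ i + 1 ∧ i ≠ k + 1) := by decide
  have int1 : ∀ (k l : Fin 6), l ∈ ({k, k + 1} : Finset (Fin 6)) →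
      l ∈ ({k + 1, k + 1 + 1} : Finset (Fin 6)) → l = k + 1 := by decide
  have int0 : ∀ (i k l : Fin 6), k ≠ i → k ≠ i + 1 → i ≠ k + 1 →
      l ∈ ({i, i + 1} : Finset (Fin 6)) → l ∉ ({k, k + 1} : Finset (Fin 6)) := by decide
  have common : ∀ i k y, (∃ p, p ∈ Cn (Ω i) ∧ p ∈ Cn (Ω k) ∧ emb i (q i p) = y ∧
      emb k (q k p) = y) → q' i (y.1, y.2 i, y.2 (i + 1)) = q' k (y.1, y.2 k, y.2 (k + 1)) := by
    rintro i k y ⟨p, a1, a2, a3, a4⟩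
    have b1 := (hh i).gf p a1
    have b2 := (hh k).gf p a2
    simp only [a3] at b1
    simp only [a4] at b2
    rw [b1, b2]
  have adj : ∀ k : Fin 6, ∀ y ∈ Cn A' ×ˢ Cn {T : Finset (Fin 6) | T ⊆ {k, k + 1}},
      y ∈ Cn A' ×ˢ Cn {T : Finset (Fin 6) | T ⊆ {k + 1, k + 1 + 1}} →
      ∃ p, p ∈ Cn (Ω k) ∧ p ∈ Cn (Ω (k + 1)) ∧ emb k (q k p) = y ∧
        emb (k + 1) (q (k + 1) p) = y := by
    intro k y hy hy'
    have m : (y.1, y.2 (k + 1)) ∈ Cn A' ×ˢ Ici (0 : ℝ) := ⟨hy.1, hy.2.1 _⟩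
    have a := (hb (k + 1)).mg m
    have e : emb (k + 1) (q (k + 1) (c (k + 1) (y.1, y.2 (k + 1)))) = y := by
      rw [(q0 _ _ a).2, (hb (k + 1)).fg _ m]
      refine Prod.ext rfl (funext fun l => ?_)
      by_cases z : l = k + 1
      · simp [emb, z]
      · have : y.2 l = 0 := by
          by_contra w
          exact z (int1 k l (hy.2.2 (mem_supp.2 w)) (hy'.2.2 (mem_supp.2 w)))
        simp [emb, z, this]
    exact ⟨_, (q1 k _ a).1, (q0 _ _ a).1, (page k _ a).trans e, e⟩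
  obtain ⟨F, G, hFG, hF, hG⟩ := HH.glue hh (fun k => (dΩ k).isClosed)
    (fun k => dA.isClosed.prod (dY k).isClosed)
    (fun i k x hi hk => by
      rcases cases6 i k with e | e | e | ⟨e1, e2, e3⟩
      · rw [e]
      · subst e
        exact page i x ⟨hi.1, hΩP i ⟨hi.2, hk.2⟩⟩
      · subst e
        exact (page k x ⟨hi.1, hΩP k ⟨hk.2, hi.2⟩⟩).symm
      · have a : x ∈ Cn A' := ⟨hi.1, hΩA i k e1 e2 e3 ⟨hi.2, hk.2⟩⟩
        rw [(spine i x a).2, (spine k x a).2])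
    (fun i k y hi hk => by
      rcases cases6 i k with e | e | e | ⟨e1, e2, e3⟩
      · rw [e]
      · subst e
        exact common _ _ y (adj i y hi hk)
      · subst e
        exact (common _ _ y (adj k y hk hi)).symm
      · have z : y = (y.1, 0) := by
          refine Prod.ext rfl (funext fun l => ?_)
          by_contra w
          exact int0 i k l e1 e2 e3 (hi.2.2 (mem_supp.2 w)) (hk.2.2 (mem_supp.2 w))
        exact common i k y ⟨y.1, (spine i _ hi.1).1, (spine k _ hi.1).1,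
          (spine i _ hi.1).2.trans z.symm, (spine k _ hi.1).2.trans z.symm⟩)
  have eY : (⋃ k : Fin 6, Cn A' ×ˢ Cn {T : Finset (Fin 6) | T ⊆ {k, k + 1}}) =
      Cn A' ×ˢ Cn C6 := by
    rw [← prod_iUnion, ← Cn_iUnion]
    congr 2
    ext T
    simp [C6]
  rw [← Cn_iUnion, eY] at hFG
  refine ⟨F, G, hFG, fun k p hp => ⟨fun a => ?_, fun a => ?_⟩⟩
  · have a' : p ∈ Cn (Ω k) := ⟨hp.1, a⟩
    rw [hF k p a']
    exact ((hh k).mf a').2.2
  · have m := hFG.mf hp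
    have m' : F p ∈ Cn A' ×ˢ Cn {T : Finset (Fin 6) | T ⊆ {k, k + 1}} := ⟨m.1, m.2.1, a⟩
    have := (hh k).mg m'
    rw [← hG k _ m', hFG.gf p hp] at this
    exact this.2

end Pool.Agent.MP_6a6613_co
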