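import Pool.Agent.MP_6a6613_co.Cob

/-! The chain of regions. -/

namespace Pool.Agent.MP_6a6613_co

open Set

/-- Changing a function at two points. -/
def up2 {α β : Type} [DecidableEq α] (u v : α) (f : α → β) (x y : β) : α → β :=
  fun i => if i = u then x else if i = v then y else f i

theorem forall_up2 {α β : Type} [DecidableEq α] {u v : α} (h : u ≠ v) (f : α → β) (x y : β)
    (P : α → β → Prop) :
    (∀ i, P i (up2 u v f x y i)) ↔ P u x ∧ P v y ∧ ∀ i, i ≠ u → i ≠ v → P i (f i) := by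
  constructor
  · intro H
    exact ⟨by simpa [up2] using H u, by simpa [up2, h.symm] using H v,
      fun i a b => by simpa [up2, a, b] using H i⟩
  · rintro ⟨a, b, c⟩ i
    unfold up2
    split_ifs with d e
    exacts [d ▸ a, e ▸ b, c i d e]

theorem up2_self {α β : Type} [DecidableEq α] {u v : α} {f : α → β} {x y : β} (a : f u = x)
    (b : f v = y) : up2 u v f x y = f := by
  funext i
  unfold up2
  split_ifs with d e
  exacts [d ▸ a.symm, e ▸ b.symm, rfl]

theorem sum_up2 {α β : Type} [Fintype α] [DecidableEq α] {u v : α} (h : u ≠ v) (f : α → β)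
    (g : β → ℕ) : ∃ c, ∀ x y, ∑ i, g (up2 u v f x y i) = g x + g y + c := by
  refine ⟨∑ i ∈ (Finset.univ.erase u).erase v, g (f i), fun x y => ?_⟩
  rw [← Finset.add_sum_erase _ _ (Finset.mem_univ u), ← Finset.add_sum_erase _ _
    (Finset.mem_erase.2 ⟨h.symm, Finset.mem_univ v⟩), add_assoc]
  congr 1
  · simp [up2]
  congr 1
  · simp [up2, h.symm]
  · refine Finset.sum_congr rfl fun i hi => ?_
    simp only [Finset.mem_erase] at hi
    simp [up2, hi.1, hi.2.1]

theorem card_fib {ι W : Type} [Fintype ι] [Fintype W] [DecidableEq ι] [DecidableEq W]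
    (F : Finset (ι × W)) : F.card = ∑ i, (pre (fun w => (i, w)) F).card := by
  rw [Finset.card_eq_sum_card_fiberwise (f := Prod.fst) (t := Finset.univ) fun _ _ => by simp]
  refine Finset.sum_congr rfl fun i _ => ?_
  rw [← Finset.card_image_of_injective (pre (fun w => (i, w)) F) (f := fun w => (i, w))
    fun a b h => by simpa using h]
  congr 1
  ext ⟨k, w⟩
  simp only [Finset.mem_filter, Finset.mem_image, mem_pre, Prod.mk.injEq]
  constructor
  · rintro ⟨a, rfl⟩
    exact ⟨w, a, rfl, rfl⟩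
  · rintro ⟨w, a, rfl, rfl⟩
    exact ⟨a, rfl⟩

/-- The global vertex set. -/
abbrev GV (ι κ W : Type) : Type := ((ι × Bool) × W) ⊕ ((κ × Bool) × Fin 3) ⊕ Bool

variable {ι κ W : Type} [Fintype ι] [Fintype κ] [Fintype W] [DecidableEq ι] [DecidableEq κ]
  [DecidableEq W]

/-- The first apex. -/
def zt : GV ι κ W := Sum.inr (Sum.inr false)

/-- The second apex. -/
def zb : GV ι κ W := Sum.inr (Sum.inr true)

/-- The part of a face in a long structure. -/
def fib (i : ι × Bool) (F : Finset (GV ι κ W)) : Finset W := pre (fun w => Sum.inl (i, w)) F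

/-- The part of a face in a triangle. -/
def tri (q : κ × Bool) (F : Finset (GV ι κ W)) : Finset (Fin 3) :=
  pre (fun c => Sum.inr (Sum.inl (q, c))) F

/-- The join spheres. -/
def Sig (A : ℕ → Set (Finset W)) (l : ι × Bool → ℕ) (act : κ × Bool → Bool) :
    Set (Finset (GV ι κ W)) :=
  {F | (∀ i, fib i F ∈ A (l i)) ∧ (∀ q, tri q F ∈ Tri (act q)) ∧ zt ∉ F ∧ zb ∉ F}

/-- The size of the facets of the join spheres. -/
def dimf (l : ι × Bool → ℕ) (act : κ × Bool → Bool) : ℕ :=
  ∑ i, 2 * l i + ∑ q, if act q then 2 else 0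

/-- The embedding of the local region. -/
def emb (a b : ι) (p : κ) : LV W → GV ι κ W :=
  Sum.elim (fun w => Sum.inl ((a, false), w)) (Sum.elim (fun w => Sum.inl ((b, true), w))
    (Sum.elim (fun c => Sum.inr (Sum.inl ((p, false), c)))
      (Sum.elim (fun c => Sum.inr (Sum.inl ((p, true), c))) fun _ => zb)))

omit [Fintype ι] [Fintype κ] [Fintype W] [DecidableEq ι] [DecidableEq κ] [DecidableEq W] in
theorem emb_inj (a b : ι) (p : κ) : Function.Injective (emb (W := W) a b p) := by
  rintro (x | x | x | x | x) (y | y | y | y | y) h <;> simp_all [emb, zb]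

theorem down_Tri (b : Bool) : Down (Tri b) := fun _ hF _ hG =>
  ⟨ne_univ_of_sub hG hF.1, fun h => Finset.subset_empty.1 (hF.2 h ▸ hG)⟩

omit [Fintype ι] [Fintype κ] in
theorem down_Sig {A : ℕ → Set (Finset W)} (hA : ∀ j, Down (A j)) (l : ι × Bool → ℕ)
    (act : κ × Bool → Bool) : Down (Sig A l act) := fun _ hF _ hG =>
  ⟨fun i => hA _ _ (hF.1 i) _ (pre_mono _ hG), fun q => down_Tri _ _ (hF.2.1 q) _ (pre_mono _ hG),
    fun h => hF.2.2.1 (hG h), fun h => hF.2.2.2 (hG h)⟩

theorem empty_Tri (b : Bool) : ∅ ∈ Tri b := ⟨by decide, fun _ => rfl⟩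

omit [Fintype ι] [Fintype κ] in
theorem lift_LS {A : ℕ → Set (Finset W)} (h0 : ∅ ∈ A 0) (a b : ι) (p : κ) (l : ι × Bool → ℕ)
    (act : κ × Bool → Bool) (x y : ℕ) (c d : Bool) :
    lift (emb a b p) (Sig A (up2 (a, false) (b, true) l 0 0)
      (up2 (p, false) (p, true) act false false)) (LS (A x) (A y) c d) =
      Sig A (up2 (a, false) (b, true) l x y) (up2 (p, false) (p, true) act c d) := by
  ext F
  have e1 : (pre (emb a b p) F).toLeft = fib (a, false) F := by ext; simp [emb, fib]
  have e2 : (pre (emb a b p) F).toRight.toLeft = fib (b, true) F := by ext; simp [emb, fib]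
  have e3 : (pre (emb a b p) F).toRight.toRight.toLeft = tri (p, false) F := by
    ext; simp [emb, tri]
  have e4 : (pre (emb a b p) F).toRight.toRight.toRight.toLeft = tri (p, true) F := by
    ext; simp [emb, tri]
  have e5 : lz ∈ pre (emb a b p) F ↔ zb ∈ F := by simp [emb, lz]
  have r1 : fib (a, false) (rest (emb a b p) F) = ∅ := by ext; simp [emb, fib]
  have r2 : fib (b, true) (rest (emb a b p) F) = ∅ := by ext; simp [emb, fib]
  have r3 : tri (p, false) (rest (emb a b p) F) = ∅ := by ext; simp [emb, tri]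
  have r4 : tri (p, true) (rest (emb a b p) F) = ∅ := by ext; simp [emb, tri]
  have r5 : ∀ i, i ≠ (a, false) → i ≠ (b, true) → fib i (rest (emb a b p) F) = fib i F :=
    fun i u v => by ext; simp [emb, fib, zb, u.symm, v.symm]
  have r6 : ∀ i, i ≠ (p, false) → i ≠ (p, true) → tri i (rest (emb a b p) F) = tri i F :=
    fun i u v => by ext; simp [emb, tri, zb, u.symm, v.symm]
  have r7 : zt ∈ rest (emb a b p) F ↔ zt ∈ F := by simp [emb, zt, zb]
  have r8 : zb ∉ rest (emb a b p) F := by simp [emb, zb]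
  have n1 : (a, false) ≠ (b, true) := by simp
  have n2 : (p, false) ≠ (p, true) := by simp
  simp only [lift, LS, Sig, mem_ofPred_eq, e1, e2, e3, e4, e5, r7]
  rw [forall_up2 n1 l 0 0 fun i j => fib i (rest (emb a b p) F) ∈ A j,
    forall_up2 n1 l x y fun i j => fib i F ∈ A j,
    forall_up2 n2 act false false fun i j => tri i (rest (emb a b p) F) ∈ Tri j,
    forall_up2 n2 act c d fun i j => tri i F ∈ Tri j, r1, r2, r3, r4]
  constructor
  · rintro ⟨⟨a1, a2, a3, a4, a5⟩, ⟨-, -, b1⟩, ⟨-, -, b2⟩, b3, -⟩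
    exact ⟨⟨a1, a2, fun i u v => r5 i u v ▸ b1 i u v⟩, ⟨a3, a4, fun i u v => r6 i u v ▸ b2 i u v⟩,
      b3, a5⟩
  · rintro ⟨⟨a1, a2, b1⟩, ⟨a3, a4, b2⟩, b3, a5⟩
    exact ⟨⟨a1, a2, a3, a4, a5⟩, ⟨h0, h0, fun i u v => (r5 i u v).symm ▸ b1 i u v⟩,
      ⟨empty_Tri _, empty_Tri _, fun i u v => (r6 i u v).symm ▸ b2 i u v⟩, b3, r8⟩

theorem card_Tri {b : Bool} {G : Finset (Fin 3)} (h : G ∈ Tri b) :
    G.card ≤ if b then 2 else 0 := by
  cases b
  · simp [h.2 rfl]
  · have := Finset.card_lt_card (Finset.ssubset_univ_iff.2 h.1)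
    simp only [Finset.card_univ, Fintype.card_fin] at this
    simp only [if_true]
    omega

theorem card_Sig {A : ℕ → Set (Finset W)} {l : ι × Bool → ℕ} {act : κ × Bool → Bool}
    (hA : ∀ i, ∀ G ∈ A (l i), G.card ≤ 2 * l i) {F : Finset (GV ι κ W)} (hF : F ∈ Sig A l act) :
    F.card ≤ dimf l act := by
  have a := Finset.card_toLeft_add_card_toRight (u := F)
  have b := Finset.card_toLeft_add_card_toRight (u := F.toRight)
  have c : F.toRight.toRight = ∅ := by
    ext v
    have u := hF.2.2.1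
    have w := hF.2.2.2
    cases v
    · simpa [zt] using u
    · simpa [zb] using w
  have d : F.toLeft.card ≤ ∑ i, 2 * l i := by
    rw [card_fib]
    refine Finset.sum_le_sum fun i _ => hA i _ ?_
    convert hF.1 i using 1
    ext; simp [fib]
  have e : F.toRight.toLeft.card ≤ ∑ q, if act q then 2 else 0 := by
    rw [card_fib]
    refine Finset.sum_le_sum fun i _ => card_Tri ?_
    convert hF.2.1 i using 1
    ext; simp [tri]
  rw [c, Finset.card_empty] at b
  unfold dimf
  omega

variable {K M : ℕ} {A : ℕ → Set (Finset W)} {τ : ℕ → Finset W → Finset (Fin 6)}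
  {pos : ℕ → Finset W → ℤ}

theorem BD.card_le (bd : BD K M A τ pos) {j : ℕ} (hj : j ≤ K) : ∀ G ∈ A j, G.card ≤ 2 * j := by
  intro G hG
  rcases j with _ | j
  · rw [bd.zero] at hG
    simp [mem_singleton_iff.1 hG]
  · have a := bd.card j hj G hG
    obtain ⟨k, hk⟩ := bd.tC6 hj hG
    have b := (Finset.card_le_card hk).trans (Finset.card_le_two)
    omega

theorem BD.empty (bd : BD K M A τ pos) (j : ℕ) : ∅ ∈ A j := by
  induction j with
  | zero => rw [bd.zero]; rfl
  | succ j ih => exact bd.mono j ih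

theorem BD.sph (hS : SphStmt) (bd : BD K M A τ pos) (j : ℕ) (hj : j ≤ K) : Sph (A j) (2 * j) := by
  induction j with
  | zero => rw [bd.zero]; exact hS.2.2.1 W
  | succ j ih =>
    obtain ⟨h, g, hh, -⟩ := bd.iso j hj
    exact hS.2.2.2.2 W _ _ _ h g hh (ih (by omega))

theorem sph_Tri (hS : SphStmt) (b : Bool) : Sph (Tri b) (if b then 2 else 0) := by
  cases b
  · have : Tri false = {∅} := by
      ext G
      exact ⟨fun h => h.2 rfl, fun h => (mem_singleton_iff.1 h).symm ▸ empty_Tri _⟩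
    rw [this]; exact hS.2.2.1 _
  · have : Tri true = {G | G ≠ Finset.univ} := by ext G; simp [Tri]
    rw [this]; exact hS.2.2.2.1 _ 2 (by simp)

/-- The states of the construction. -/
def Good (A : ℕ → Set (Finset W)) (l : ι × Bool → ℕ) (act : κ × Bool → Bool) (D : ℤ) : Prop :=
  ∃ U, Inv zt zb U (Sig A l act) (dimf l act + 1) D ∧
    ∀ F ∈ U, (∀ i, fib (i, true) F ∈ A (l (i, true))) ∧ ∀ q, tri (q, true) F ∈ Tri (act (q, true))

theorem BD.init (hS : SphStmt) (bd : BD K M A τ pos) {l : ι × Bool → ℕ} (hl : ∀ i, l i ≤ K)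
    (act : κ × Bool → Bool) : Good A l act 0 := by
  have f1 : ∀ (b : Bool) i (F : Finset (GV ι κ W)),
      fib i (F.erase (Sum.inr (Sum.inr b))) = fib i F := fun b i F => by ext; simp [fib]
  have f2 : ∀ (b : Bool) i (F : Finset (GV ι κ W)),
      tri i (F.erase (Sum.inr (Sum.inr b))) = tri i F := fun b i F => by ext; simp [tri]
  refine ⟨cone zt (Sig A l act), ⟨(down_Sig bd.down l act).cone _, fun F hF h => ?_, ?_, ?_,
    fun _ => 0, fun _ => le_rfl, fun _ _ _ _ _ _ _ => by simp, fun _ _ _ _ => le_rfl,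
    fun _ _ _ _ _ _ _ => le_rfl⟩, fun F hF => ⟨fun i => ?_, fun q => ?_⟩⟩
  · exact hF.2.2.2 (Finset.mem_erase.2 ⟨by simp [zt, zb], h⟩)
  · show ({zt} : Finset (GV ι κ W)).erase zt ∈ Sig A l act
    rw [Finset.erase_singleton]
    exact ⟨fun i => bd.down _ _ (bd.empty _) _ fun _ h => by simp [fib] at h,
      fun q => down_Tri _ _ (empty_Tri _) _ fun _ h => by simp [tri] at h, by simp, by simp⟩
  · have := hS.2.1 _ _ _ _ _ _ (hS.1 _ _ (fun i => A (l i)) _ fun i => bd.sph hS _ (hl i))
      (hS.2.1 _ _ _ _ _ _ (hS.1 _ _ (fun q => Tri (act q)) _ fun q => sph_Tri hS _)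
        (hS.2.2.2.1 Bool 1 (by simp)))
    convert this using 1
    · ext F
      have g1 : ∀ i, pre (fun w => (i, w)) F.toLeft = fib i F := fun i => by ext; simp [fib]
      have g2 : ∀ i, pre (fun w => (i, w)) F.toRight.toLeft = tri i F := fun i => by
        ext; simp [tri]
      have g3 : F.toRight.toRight ≠ Finset.univ ↔ zb ∉ F ∨ zt ∉ F := by
        rw [Ne, Finset.eq_univ_iff_forall]
        simp [zb, zt]
        tauto
      simp only [cone, Sig, sumC, piC, mem_union, mem_ofPred_eq, zt, zb, f1, f2, g1, g2, g3]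
      simp only [Finset.mem_erase, ne_eq, not_true, false_and, not_false_iff, Sum.inr.injEq,
        Bool.true_eq_false, Bool.false_eq_true, true_and, and_true]
      tauto
    · simp only [dimf]; omega
  · have := hF.1 (i, true)
    rwa [zt, f1] at this
  · have := hF.2.1 (q, true)
    rwa [zt, f2] at this

theorem BD.step (hM : ModelStmt) (bd : BD K M A τ pos) {l : ι × Bool → ℕ} (hl : ∀ i, l i ≤ K)
    {act : κ × Bool → Bool} {D : ℤ} (G : Good A l act D) {a b : ι} {p : κ} {j : ℕ}
    (h1 : l (a, false) = j + 1) (h2 : l (b, true) = j) (h3 : act (p, false) = true)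
    (h4 : act (p, true) = false) {L : ℤ} (h0 : 0 ≤ L)
    (hL : 4 * ((j : ℤ) + 1) * L + 3 * (j + 1) ≤ M) :
    Good A (up2 (a, false) (b, true) l j (j + 1)) (up2 (p, false) (p, true) act false true)
      (D + L) := by
  have hj : j < K := by have := hl (a, false); omega
  have n1 : (a, false) ≠ (b, true) := by simp
  have n2 : (p, false) ≠ (p, true) := by simp
  obtain ⟨U, inv, hU⟩ := G
  obtain ⟨R, hR, cob⟩ := bd.cob hM hj h0 hL
  obtain ⟨c1, s1⟩ := sum_up2 n1 l fun x => 2 * x
  obtain ⟨c2, s2⟩ := sum_up2 n2 act fun x => if x then 2 else 0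
  have cd : ∀ x y c d, x ≤ K → y ≤ K → ∀ F ∈ Sig A (up2 (a, false) (b, true) l x y)
      (up2 (p, false) (p, true) act c d),
      F.card ≤ 2 * x + 2 * y + c1 + ((if c then 2 else 0) + (if d then 2 else 0) + c2) :=
    fun x y c d hx hy F hF => by
      have := card_Sig (fun i => bd.card_le
        ((forall_up2 n1 l x y fun _ j => j ≤ K).2 ⟨hx, hy, fun i _ _ => hl i⟩ i)) hF
      rwa [dimf, s1, s2] at this
  have cob' := cob.lift (emb_inj a b p) (down_Sig bd.down (up2 (a, false) (b, true) l 0 0)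
    (up2 (p, false) (p, true) act false false)) (c := c1 + c2) fun F hF => by
      simpa using cd 0 0 false false (by omega) (by omega) F hF
  rw [lift_LS (bd.empty 0), lift_LS (bd.empty 0), up2_self h1 h2, up2_self h3 h4] at cob'
  have hR' : lift (emb a b p) (Sig A (up2 (a, false) (b, true) l 0 0)
      (up2 (p, false) (p, true) act false false)) R ⊆
      Sig A (up2 (a, false) (b, true) l (j + 1) (j + 1)) (up2 (p, false) (p, true) act true true) := by
    rw [← lift_LS (bd.empty 0) a b p l act (j + 1) (j + 1) true true]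
    exact fun F hF => ⟨hR hF.1, hF.2⟩
  generalize lift (emb a b p) _ R = R' at hR' cob'
  have d1 : dimf l act + 1 = 4 * j + 5 + (c1 + c2) := by
    rw [← up2_self h1 h2, ← up2_self h3 h4, dimf, s1, s2]
    simp only [if_true, Bool.false_eq_true, if_false]
    omega
  have d2 : dimf (up2 (a, false) (b, true) l j (j + 1)) (up2 (p, false) (p, true) act false true)
      + 1 = 4 * j + 5 + (c1 + c2) := by
    rw [dimf, s1, s2]
    simp only [if_true, Bool.false_eq_true, if_false]
    omega
  have low : ∀ x y c d, ∀ F ∈ U, F ∈ Sig A (up2 (a, false) (b, true) l x y)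
      (up2 (p, false) (p, true) act c d) → F ∈ Sig A (up2 (a, false) (b, true) l x j)
      (up2 (p, false) (p, true) act c false) := fun x y c d F hF hS => by
    have u := (forall_up2 n1 l x y fun i j => fib i F ∈ A j).1 hS.1
    have v := (forall_up2 n2 act c d fun i j => tri i F ∈ Tri j).1 hS.2.1
    exact ⟨(forall_up2 n1 l x j fun i j => fib i F ∈ A j).2 ⟨u.1, h2 ▸ (hU F hF).1 b, u.2.2⟩,
      (forall_up2 n2 act c false fun i j => tri i F ∈ Tri j).2 ⟨v.1, h4 ▸ (hU F hF).2 p, v.2.2⟩,
      hS.2.2⟩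
  rw [d1] at inv
  rw [Good, d2]
  refine ⟨U ∪ R', inv.step cob' (fun F hF => ?_) (fun F hF => ?_) (fun F hF => ?_)
    fun F hF => (hR' hF).2.2.symm, fun F hF => ?_⟩
  · have := low _ _ _ _ F hF.1 (hR' hF.2)
    rwa [up2_self h1 h2, up2_self h3 h4] at this
  · have hS := low _ _ _ _ F hF.1 hF.2
    have u := (forall_up2 n1 l j j fun i j => fib i F ∈ A j).1 hS.1
    have v := (forall_up2 n2 act false false fun i j => tri i F ∈ Tri j).1 hS.2.1
    rw [← up2_self h1 h2, ← up2_self h3 h4]
    exact ⟨(forall_up2 n1 l _ _ fun i j => fib i F ∈ A j).2 ⟨bd.mono j u.1, u.2⟩,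
      (forall_up2 n2 act _ _ fun i j => tri i F ∈ Tri j).2 ⟨⟨v.1.1, by simp⟩, v.2⟩, hS.2.2⟩
  · have := cd _ _ _ _ hj.le hj.le F (low _ _ _ _ F hF.1 hF.2)
    simp only [Bool.false_eq_true, if_false] at this
    omega
  · rcases hF with hF | hF
    · refine ⟨fun i => ?_, fun q => ?_⟩
      · by_cases e : i = b
        · subst e
          simpa [up2] using bd.mono j (h2 ▸ (hU F hF).1 i)
        · simpa [up2, e] using (hU F hF).1 i
      · by_cases e : q = p
        · subst e
          simpa [up2, Tri] using ((hU F hF).2 q).1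
        · simpa [up2, e] using (hU F hF).2 q
    · exact ⟨fun i => by simpa [up2] using (hR' hF).1 (i, true),
        fun q => by simpa [up2] using (hR' hF).2.1 (q, true)⟩

end Pool.Agent.MP_6a6613_co
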