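import Pool.Agent.MP_6a6613_co.Lift

/-! The model region with the long structures substituted for the two hexagons. -/

namespace Pool.Agent.MP_6a6613_co

open Set

/-- Vertices of the local region. -/
abbrev LV (W : Type) : Type := W ⊕ W ⊕ Fin 3 ⊕ Fin 3 ⊕ Unit

/-- The apex of the local region. -/
def lz {W : Type} : LV W := Sum.inr (Sum.inr (Sum.inr (Sum.inr ())))

/-- The boundary of a triangle, or the empty complex. -/
def Tri (b : Bool) : Set (Finset (Fin 3)) := {G | G ≠ Finset.univ ∧ (b = false → G = ∅)}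

/-- The model face of a local face. -/
def md {W : Type} (t : Finset W → Finset (Fin 6)) (F : Finset (LV W)) : Finset MV :=
  (t F.toLeft).disjSum ((t F.toRight.toLeft).disjSum F.toRight.toRight)

/-- Substitution of `B` into the model complex. -/
def Loc {W : Type} (B : Set (Finset W)) (t : Finset W → Finset (Fin 6)) (K : Set (Finset MV)) :
    Set (Finset (LV W)) := {F | F.toLeft ∈ B ∧ F.toRight.toLeft ∈ B ∧ md t F ∈ K}

/-- Local joins. -/
def LS {W : Type} (B B' : Set (Finset W)) (c d : Bool) : Set (Finset (LV W)) :=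
  {F | F.toLeft ∈ B ∧ F.toRight.toLeft ∈ B' ∧ F.toRight.toRight.toLeft ∈ Tri c ∧
    F.toRight.toRight.toRight.toLeft ∈ Tri d ∧ lz ∉ F}

variable {W : Type}

@[simp] theorem mX_md (t : Finset W → Finset (Fin 6)) (F : Finset (LV W)) :
    mX (md t F) = t F.toLeft := by ext; simp [mX, md]

@[simp] theorem mY_md (t : Finset W → Finset (Fin 6)) (F : Finset (LV W)) :
    mY (md t F) = t F.toRight.toLeft := by ext; simp [mY, md]

@[simp] theorem mC_md (t : Finset W → Finset (Fin 6)) (F : Finset (LV W)) :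
    mC (md t F) = F.toRight.toRight.toLeft := by ext; simp [mC, md]

@[simp] theorem mD_md (t : Finset W → Finset (Fin 6)) (F : Finset (LV W)) :
    mD (md t F) = F.toRight.toRight.toRight.toLeft := by ext; simp [mD, md]

@[simp] theorem mz_md (t : Finset W → Finset (Fin 6)) (F : Finset (LV W)) :
    mz ∈ md t F ↔ lz ∈ F := by simp [mz, lz, md]

theorem down_C6 : Down C6 := fun _ ⟨k, hk⟩ _ hG => ⟨k, hG.trans hk⟩

theorem mX_mono {T T' : Finset MV} (h : T ⊆ T') : mX T ⊆ mX T' := pre_mono _ h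

theorem mY_mono {T T' : Finset MV} (h : T ⊆ T') : mY T ⊆ mY T' := pre_mono _ h

theorem mC_mono {T T' : Finset MV} (h : T ⊆ T') : mC T ⊆ mC T' := pre_mono _ h

theorem mD_mono {T T' : Finset MV} (h : T ⊆ T') : mD T ⊆ mD T' := pre_mono _ h

theorem ne_univ_of_sub {α : Type} [Fintype α] {A B : Finset α} (h : A ⊆ B)
    (hB : B ≠ Finset.univ) : A ≠ Finset.univ :=
  fun e => hB (Finset.univ_subset_iff.1 (e ▸ h))

theorem down_G0 : Down G0 := fun _ hF _ hG =>
  ⟨down_C6 _ hF.1 _ (mX_mono hG), Finset.subset_empty.1 (hF.2.1 ▸ mY_mono hG),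
    ne_univ_of_sub (mC_mono hG) hF.2.2.1, Finset.subset_empty.1 (hF.2.2.2.1 ▸ mD_mono hG),
    fun h => hF.2.2.2.2 (hG h)⟩

theorem down_G1 : Down G1 := fun _ hF _ hG =>
  ⟨Finset.subset_empty.1 (hF.1 ▸ mX_mono hG), down_C6 _ hF.2.1 _ (mY_mono hG),
    Finset.subset_empty.1 (hF.2.2.1 ▸ mC_mono hG), ne_univ_of_sub (mD_mono hG) hF.2.2.2.1,
    fun h => hF.2.2.2.2 (hG h)⟩

theorem empty_C6 : (∅ : Finset (Fin 6)) ∈ C6 := ⟨0, Finset.empty_subset _⟩

theorem mX_erase (T : Finset MV) : mX (T.erase mz) = mX T := by ext; simp [mX, mz]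

theorem mY_erase (T : Finset MV) : mY (T.erase mz) = mY T := by ext; simp [mY, mz]

variable [Fintype W] [DecidableEq W]

/-- The forward coordinate change. -/
def fw (h : (W → ℝ) → (W → ℝ) × (Fin 6 → ℝ)) (p : LV W → ℝ) :
    ((W → ℝ) × (W → ℝ)) × (MV → ℝ) :=
  (((h fun w => p (Sum.inl w)).1, (h fun w => p (Sum.inr (Sum.inl w))).1),
    Sum.elim (h fun w => p (Sum.inl w)).2
      (Sum.elim (h fun w => p (Sum.inr (Sum.inl w))).2 fun s => p (Sum.inr (Sum.inr s))))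

/-- The backward coordinate change. -/
def bw (g : (W → ℝ) × (Fin 6 → ℝ) → (W → ℝ)) (q : ((W → ℝ) × (W → ℝ)) × (MV → ℝ)) :
    LV W → ℝ :=
  Sum.elim (g (q.1.1, fun i => q.2 (Sum.inl i)))
    (Sum.elim (g (q.1.2, fun i => q.2 (Sum.inr (Sum.inl i)))) fun s => q.2 (Sum.inr (Sum.inr s)))

omit [DecidableEq W] in
theorem supp_l (p : LV W → ℝ) : supp (fun w => p (Sum.inl w)) = (supp p).toLeft := by
  ext; simp

omit [DecidableEq W] in
theorem supp_r (p : LV W → ℝ) :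
    supp (fun w => p (Sum.inr (Sum.inl w))) = (supp p).toRight.toLeft := by
  ext; simp

theorem supp_mX (q : MV → ℝ) : supp (fun i => q (Sum.inl i)) = mX (supp q) := by
  ext; simp [mX]

theorem supp_mY (q : MV → ℝ) : supp (fun i => q (Sum.inr (Sum.inl i))) = mY (supp q) := by
  ext; simp [mY]

omit [Fintype W] [DecidableEq W] in
theorem Loc_down {B : Set (Finset W)} {t : Finset W → Finset (Fin 6)} (hB : Down B)
    (ht : ∀ F ∈ B, ∀ G ⊆ F, t G ⊆ t F) {K : Set (Finset MV)} (hK : Down K) :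
    Down (Loc B t K) := fun F hF G hG => by
  have a : G.toLeft ⊆ F.toLeft := Finset.toLeft_subset_toLeft hG
  have b : G.toRight.toLeft ⊆ F.toRight.toLeft :=
    Finset.toLeft_subset_toLeft (Finset.toRight_subset_toRight hG)
  exact ⟨hB _ hF.1 _ a, hB _ hF.2.1 _ b, hK _ hF.2.2 _ (Finset.disjSum_mono (ht _ hF.1 _ a)
    (Finset.disjSum_mono (ht _ hF.2.1 _ b)
      (Finset.toRight_subset_toRight (Finset.toRight_subset_toRight hG))))⟩

omit [DecidableEq W] in
theorem loc_hh {B B' : Set (Finset W)} {t : Finset W → Finset (Fin 6)} (hB : Down B)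
    (ht : ∀ F ∈ B, ∀ G ⊆ F, t G ⊆ t F) {h : (W → ℝ) → (W → ℝ) × (Fin 6 → ℝ)}
    {g : (W → ℝ) × (Fin 6 → ℝ) → (W → ℝ)} (hh : HH h g (Cn B) (Cn B' ×ˢ Cn C6))
    (hs : ∀ p ∈ Cn B, supp (h p).2 = t (supp p)) {K : Set (Finset MV)} (hK : Down K)
    (hC : ∀ T ∈ K, mX T ∈ C6 ∧ mY T ∈ C6) :
    HH (fw h) (bw g) (Cn (Loc B t K)) ((Cn B' ×ˢ Cn B') ×ˢ Cn K) ∧
      ∀ p ∈ Cn (Loc B t K), supp (fw h p).2 = md t (supp p) := by
  have l1 : ∀ p : LV W → ℝ, (∀ v, 0 ≤ p v) → (supp p).toLeft ∈ B →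
      (fun w => p (Sum.inl w)) ∈ Cn B := fun p a b => ⟨fun _ => a _, by rwa [supp_l]⟩
  have l2 : ∀ p : LV W → ℝ, (∀ v, 0 ≤ p v) → (supp p).toRight.toLeft ∈ B →
      (fun w => p (Sum.inr (Sum.inl w))) ∈ Cn B := fun p a b => ⟨fun _ => a _, by rwa [supp_r]⟩
  have key : ∀ p : LV W → ℝ, (fun w => p (Sum.inl w)) ∈ Cn B →
      (fun w => p (Sum.inr (Sum.inl w))) ∈ Cn B → supp (fw h p).2 = md t (supp p) :=
    fun p a b => by
      have a' := hs _ a
      have b' := hs _ b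
      rw [supp_l] at a'
      rw [supp_r] at b'
      ext v
      rcases v with v | v | v
      · simp [fw, md, ← a']
      · simp [fw, md, ← b']
      · simp [fw, md]
  have m1 : ∀ q ∈ (Cn B' ×ˢ Cn B') ×ˢ Cn K, (q.1.1, fun i => q.2 (Sum.inl i)) ∈ Cn B' ×ˢ Cn C6 :=
    fun q hq => ⟨hq.1.1, fun _ => hq.2.1 _, by rw [supp_mX]; exact (hC _ hq.2.2).1⟩
  have m2 : ∀ q ∈ (Cn B' ×ˢ Cn B') ×ˢ Cn K,
      (q.1.2, fun i => q.2 (Sum.inr (Sum.inl i))) ∈ Cn B' ×ˢ Cn C6 :=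
    fun q hq => ⟨hq.1.2, fun _ => hq.2.1 _, by rw [supp_mY]; exact (hC _ hq.2.2).2⟩
  have fg : ∀ q ∈ (Cn B' ×ˢ Cn B') ×ˢ Cn K, fw h (bw g q) = q := fun q hq => by
    have a := hh.fg _ (m1 q hq)
    have b := hh.fg _ (m2 q hq)
    simp only [fw, bw, Sum.elim_inl, Sum.elim_inr]
    rw [a, b]
    refine Prod.ext rfl (funext fun v => ?_)
    rcases v with v | v | v <;> rfl
  have c1 : ContinuousOn (fun p : LV W → ℝ => h fun w => p (Sum.inl w)) (Cn (Loc B t K)) :=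
    hh.cf.comp (by fun_prop) fun p hp => l1 p hp.1 hp.2.1
  have c2 : ContinuousOn (fun p : LV W → ℝ => h fun w => p (Sum.inr (Sum.inl w)))
      (Cn (Loc B t K)) := hh.cf.comp (by fun_prop) fun p hp => l2 p hp.1 hp.2.2.1
  have d1 : ContinuousOn (fun q : ((W → ℝ) × (W → ℝ)) × (MV → ℝ) =>
      g (q.1.1, fun i => q.2 (Sum.inl i))) ((Cn B' ×ˢ Cn B') ×ˢ Cn K) :=
    hh.cg.comp (by fun_prop) m1
  have d2 : ContinuousOn (fun q : ((W → ℝ) × (W → ℝ)) × (MV → ℝ) =>
      g (q.1.2, fun i => q.2 (Sum.inr (Sum.inl i)))) ((Cn B' ×ˢ Cn B') ×ˢ Cn K) :=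
    hh.cg.comp (by fun_prop) m2
  refine ⟨⟨?_, ?_, fun p hp => ?_, fun q hq => ?_, fun p hp => ?_, fg,
    (Loc_down hB ht hK).smul, fun p hp s hs => ?_⟩,
    fun p hp => key p (l1 p hp.1 hp.2.1) (l2 p hp.1 hp.2.2.1)⟩
  · refine (c1.fst.prodMk c2.fst).prodMk (continuousOn_pi.2 fun v => ?_)
    rcases v with v | v | v
    · exact (continuous_apply v).comp_continuousOn c1.snd
    · exact (continuous_apply v).comp_continuousOn c2.snd
    · exact (continuous_apply _).continuousOn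
  · refine continuousOn_pi.2 fun v => ?_
    rcases v with v | v | v
    · exact (continuous_apply v).comp_continuousOn d1
    · exact (continuous_apply v).comp_continuousOn d2
    · exact ((continuous_apply _).comp continuous_snd).continuousOn
  · have a := hh.mf (l1 p hp.1 hp.2.1)
    have b := hh.mf (l2 p hp.1 hp.2.2.1)
    refine ⟨⟨a.1, b.1⟩, fun v => ?_, ?_⟩
    · rcases v with v | v | v
      exacts [a.2.1 v, b.2.1 v, hp.1 _]
    · rw [key p (l1 p hp.1 hp.2.1) (l2 p hp.1 hp.2.2.1)]; exact hp.2.2.2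
  · have a := hh.mg (m1 q hq)
    have b := hh.mg (m2 q hq)
    refine ⟨fun v => ?_, ?_, ?_, ?_⟩
    · rcases v with v | v | v
      exacts [a.1 v, b.1 v, hq.2.1 _]
    · rw [← supp_l]; exact a.2
    · rw [← supp_r]; exact b.2
    · rw [← key _ a b, fg q hq]; exact hq.2.2
  · have a := hh.gf _ (l1 p hp.1 hp.2.1)
    have b := hh.gf _ (l2 p hp.1 hp.2.2.1)
    funext v
    rcases v with v | v | v
    exacts [congrFun a v, congrFun b v, rfl]
  · have a := hh.hf _ (l1 p hp.1 hp.2.1) s hs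
    have b := hh.hf _ (l2 p hp.1 hp.2.2.1) s hs
    have a' : (h fun w => (s • p) (Sum.inl w)) = s • h fun w => p (Sum.inl w) := a
    have b' : (h fun w => (s • p) (Sum.inr (Sum.inl w))) = s • h fun w => p (Sum.inr (Sum.inl w)) :=
      b
    simp only [fw]
    rw [a', b']
    refine Prod.ext rfl (funext fun v => ?_)
    rcases v with v | v | v <;> rfl

omit [DecidableEq W] in
theorem loc_ri {B B' : Set (Finset W)} {t : Finset W → Finset (Fin 6)} (hB : Down B)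
    (hB' : Down B') (ht : ∀ F ∈ B, ∀ G ⊆ F, t G ⊆ t F) {h : (W → ℝ) → (W → ℝ) × (Fin 6 → ℝ)}
    {g : (W → ℝ) × (Fin 6 → ℝ) → (W → ℝ)} (hh : HH h g (Cn B) (Cn B' ×ˢ Cn C6))
    (hs : ∀ p ∈ Cn B, supp (h p).2 = t (supp p)) {K K' Γ : Set (Finset MV)} (hK : Down K)
    (hK' : Down K') (hC : ∀ T ∈ K, mX T ∈ C6 ∧ mY T ∈ C6) (hC' : ∀ T ∈ K', mX T ∈ C6 ∧ mY T ∈ C6)
    (r : RI K K' Γ) : RI (Loc B t K) (Loc B t K') {F | md t F ∈ Γ} := by
  obtain ⟨a, a'⟩ := loc_hh hB ht hh hs hK hC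
  obtain ⟨b, -⟩ := loc_hh hB ht hh hs hK' hC'
  obtain ⟨f, f', r, hf⟩ := r
  refine ⟨_, _, (a.trans (((HH.refl hB'.smul).prod (HH.refl hB'.smul)).prod r)).trans b.symm,
    fun p hp hs => ?_⟩
  have := hf _ (a.mf hp).2 (by rw [a' p hp]; exact hs)
  show bw g (((fw h p).1.1, (fw h p).1.2), f (fw h p).2) = p
  rw [this]
  exact a.gf p hp

omit [Fintype W] in
theorem Loc_cone (B : Set (Finset W)) (t : Finset W → Finset (Fin 6)) (K : Set (Finset MV)) :
    cone lz (Loc B t K) = Loc B t (cone mz K) := by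
  ext F
  have a : (F.erase lz).toLeft = F.toLeft := by ext; simp [lz]
  have b : (F.erase lz).toRight.toLeft = F.toRight.toLeft := by ext; simp [lz]
  have c : md t (F.erase lz) = (md t F).erase mz := by
    ext v
    rcases v with v | v | v
    · simp [md, a, mz]
    · simp [md, b, mz]
    · simp [md, mz, lz]
  simp only [cone, Loc, mem_ofPred_eq, a, b, c]

omit [Fintype W] [DecidableEq W] in
theorem card_md (t : Finset W → Finset (Fin 6)) (F : Finset (LV W)) {c : ℕ}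
    (h1 : F.toLeft.card ≤ c + (t F.toLeft).card)
    (h2 : F.toRight.toLeft.card ≤ c + (t F.toRight.toLeft).card) :
    F.card ≤ 2 * c + (md t F).card := by
  have a := Finset.card_toLeft_add_card_toRight (u := F)
  have b := Finset.card_toLeft_add_card_toRight (u := F.toRight)
  simp only [md, Finset.card_disjSum]
  omega

theorem BD.tC6 {K M : ℕ} {A : ℕ → Set (Finset W)} {τ : ℕ → Finset W → Finset (Fin 6)}
    {pos : ℕ → Finset W → ℤ} (bd : BD K M A τ pos) {j : ℕ} (hj : j < K) {F : Finset W}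
    (hF : F ∈ A (j + 1)) : τ j F ∈ C6 := by
  obtain ⟨h, g, hh, hs⟩ := bd.iso j hj
  have := (hh.mf (ind_mem hF)).2.2
  rwa [hs _ (ind_mem hF), supp_ind] at this

theorem BD.locG0 {K M : ℕ} {A : ℕ → Set (Finset W)} {τ : ℕ → Finset W → Finset (Fin 6)}
    {pos : ℕ → Finset W → ℤ} (bd : BD K M A τ pos) {j : ℕ} (hj : j < K) :
    Loc (A (j + 1)) (τ j) G0 = LS (A (j + 1)) (A j) true false := by
  ext F
  simp only [Loc, G0, LS, Tri, mem_ofPred_eq, mX_md, mY_md, mC_md, mD_md, mz_md]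
  constructor
  · rintro ⟨a, b, -, c, d, e, f⟩
    exact ⟨a, (bd.tempty j hj _ b).1 c, ⟨d, by simp⟩, ⟨by rw [e]; decide, fun _ => e⟩, f⟩
  · rintro ⟨a, b, c, d, e⟩
    exact ⟨a, bd.mono j b, bd.tC6 hj a, (bd.tempty j hj _ (bd.mono j b)).2 b, c.1, d.2 trivial, e⟩

theorem BD.locG1 {K M : ℕ} {A : ℕ → Set (Finset W)} {τ : ℕ → Finset W → Finset (Fin 6)}
    {pos : ℕ → Finset W → ℤ} (bd : BD K M A τ pos) {j : ℕ} (hj : j < K) :
    Loc (A (j + 1)) (τ j) G1 = LS (A j) (A (j + 1)) false true := by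
  ext F
  simp only [Loc, G1, LS, Tri, mem_ofPred_eq, mX_md, mY_md, mC_md, mD_md, mz_md]
  constructor
  · rintro ⟨a, b, c, -, d, e, f⟩
    exact ⟨(bd.tempty j hj _ a).1 c, b, ⟨by rw [d]; decide, fun _ => d⟩, ⟨e, by simp⟩, f⟩
  · rintro ⟨a, b, c, d, e⟩
    exact ⟨bd.mono j a, b, (bd.tempty j hj _ (bd.mono j a)).2 a, bd.tC6 hj b, c.2 trivial, d.1, e⟩

theorem clamp_lip {a b c L : ℤ} (hc : 0 < c) (h : b ≤ a + c) :
    max 0 (min L (b / c)) ≤ max 0 (min L (a / c)) + 1 := by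
  have h1 := Int.ediv_le_ediv hc h
  have h2 : (a + c) / c = a / c + 1 := by
    have := Int.add_mul_ediv_right a 1 hc.ne'
    rwa [one_mul] at this
  omega

theorem BD.cob (hM : ModelStmt) {K M : ℕ} {A : ℕ → Set (Finset W)}
    {τ : ℕ → Finset W → Finset (Fin 6)} {pos : ℕ → Finset W → ℤ} (bd : BD K M A τ pos) {j : ℕ}
    (hj : j < K) {L : ℤ} (h0 : 0 ≤ L) (hL : 4 * ((j : ℤ) + 1) * L + 3 * (j + 1) ≤ M) :
    ∃ R, R ⊆ LS (A (j + 1)) (A (j + 1)) true true ∧
      Cob lz (LS (A (j + 1)) (A j) true false) (LS (A j) (A (j + 1)) false true) R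
        (4 * j + 5) L := by
  obtain ⟨R, dR, hR, ri, hP⟩ := hM
  obtain ⟨h, g, hh, hs⟩ := bd.iso j hj
  have dn : ∀ {K : Set (Finset MV)}, Down K → Down (Loc (A (j + 1)) (τ j) K) :=
    fun hK => Loc_down (bd.down _) (bd.tmono j hj) hK
  have cd : ∀ {K : Set (Finset MV)}, ∀ F ∈ Loc (A (j + 1)) (τ j) K,
      F.card ≤ 4 * j + (md (τ j) F).card := fun F hF => by
    have := card_md (τ j) F (bd.card j hj _ hF.1) (bd.card j hj _ hF.2.1)
    omega
  have mm : ∀ {K : Set (Finset MV)}, ∀ F ∈ Loc (A (j + 1)) (τ j) K, ∀ G ⊆ F,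
      md (τ j) G ⊆ md (τ j) F := fun F hF G hG =>
    (Loc_down (K := {T | T ⊆ md (τ j) F}) (bd.down _) (bd.tmono j hj)
      (fun _ a _ b => b.trans a) F ⟨hF.1, hF.2.1, Finset.Subset.refl _⟩ G hG).2.2
  rw [← bd.locG0 hj, ← bd.locG1 hj]
  refine ⟨Loc (A (j + 1)) (τ j) R, fun F hF => ?_, dn down_G0, dn down_G1, dn dR,
    fun F hF => ?_, ?_, ?_⟩
  · have := hR _ hF.2.2
    simp only [mX_md, mY_md, mC_md, mD_md, mz_md] at this
    exact ⟨hF.1, hF.2.1, ⟨this.2.2.1, by simp⟩, ⟨this.2.2.2.1, by simp⟩, this.2.2.2.2.1⟩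
  · have := cd F hF
    have := (hR _ hF.2.2).2.2.2.2.2
    omega
  · have := loc_ri (bd.down _) (bd.down _) (bd.tmono j hj) hh hs (down_G0.cone mz)
      (dR.union (down_G1.cone mz))
      (fun T hT => by
        have a : T.erase mz ∈ G0 := hT
        have b := a.1
        have c := a.2.1
        rw [mX_erase] at b
        rw [mY_erase] at c
        exact ⟨b, c ▸ empty_C6⟩)
      (fun T hT => by
        rcases hT with a | a
        · exact ⟨(hR T a).1, (hR T a).2.1⟩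
        · have a' : T.erase mz ∈ G1 := a
          have b := a'.1
          have c := a'.2.1
          rw [mX_erase] at b
          rw [mY_erase] at c
          exact ⟨b ▸ empty_C6, c⟩) ri
    rw [Loc_cone, Loc_cone]
    convert this using 1
    · ext F; simp only [Loc, mem_union, mem_ofPred_eq]; tauto
    · ext F; simp
  have c5 : ∀ F ∈ Loc (A (j + 1)) (τ j) R, F.card = 4 * j + 5 → (md (τ j) F).card = 5 :=
    fun F hF a => by
      have := cd F hF
      have := (hR _ hF.2.2).2.2.2.2.2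
      omega
  have c4 : ∀ F ∈ Loc (A (j + 1)) (τ j) R, ∀ G ⊆ F, 4 * j + 5 ≤ G.card + 1 →
      4 ≤ (md (τ j) G).card := fun F hF G hG a => by
    have := cd G (dn dR F hF G hG)
    omega
  have nA : ∀ F ∈ A (j + 1), τ j F ≠ ∅ → F ∉ A j := fun F hF a b => a ((bd.tempty j hj F hF).2 b)
  have pole : ∀ F ∈ A (j + 1), τ j F = {2} ∨ τ j F = {5} →
      -((j : ℤ) + 1) ≤ pos j F ∧ pos j F ≤ j + 1 := fun F hF a => by
    have n : F ∉ A j := nA F hF (by rcases a with a | a <;> rw [a] <;> decide)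
    exact ⟨bd.vp j hj F hF n (by rcases a with a | a <;> rw [a] <;> decide),
      bd.vn j hj F hF n (by rcases a with a | a <;> rw [a] <;> decide)⟩
  let ψ : Finset (LV W) → ℤ := fun F =>
    min (M - pos j F.toRight.toLeft + max (-pos j F.toLeft) 0)
      (M + pos j F.toRight.toLeft + max (pos j F.toLeft) 0) - 2 * (j + 1)
  have hc : (0 : ℤ) < 4 * (j + 1) := by omega
  have lo : ∀ F ∈ Loc (A (j + 1)) (τ j) R, F.card = 4 * j + 5 → ∀ G ⊆ F, md (τ j) G ∈ G0 →
      4 * j + 5 ≤ G.card + 1 → max 0 (min L (ψ F / (4 * (j + 1)))) ≤ 0 :=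
    fun F hF a G hG hS b => by
      obtain ⟨x0, y0, H⟩ := hP _ hF.2.2 (c5 F hF a)
      have H' := (H _ (mm F hF G hG) (c4 F hF G hG b)).2.2.1 hS
      simp only [mX_md, mY_md] at x0 y0 H'
      have : ψ F ≤ 0 := by
        rcases H' with ⟨u, v⟩ | ⟨u, v⟩
        · have := bd.vp j hj _ hF.1 (nA _ hF.1 x0) u
          have := bd.v01 j hj _ hF.2.1 v
          simp only [ψ]; omega
        · have := bd.vn j hj _ hF.1 (nA _ hF.1 x0) u
          have := bd.v34 j hj _ hF.2.1 v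
          simp only [ψ]; omega
      have := Int.ediv_le_ediv hc this
      rw [Int.zero_ediv] at this
      omega
  have hi : ∀ F ∈ Loc (A (j + 1)) (τ j) R, F.card = 4 * j + 5 → ∀ G ⊆ F, md (τ j) G ∈ G1 →
      4 * j + 5 ≤ G.card + 1 → L ≤ max 0 (min L (ψ F / (4 * (j + 1)))) :=
    fun F hF a G hG hS b => by
      obtain ⟨x0, y0, H⟩ := hP _ hF.2.2 (c5 F hF a)
      have H' := (H _ (mm F hF G hG) (c4 F hF G hG b)).2.2.2 hS
      simp only [mX_md, mY_md] at x0 y0 H'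
      have b1 := bd.bnd j F.toLeft
      have b2 := bd.bnd j F.toRight.toLeft
      have : (M : ℤ) - 3 * (j + 1) ≤ ψ F := by
        rcases H' with ⟨u, v⟩ | ⟨u, v⟩
        · have := bd.vp j hj _ hF.2.1 (nA _ hF.2.1 y0) u
          have := bd.v34 j hj _ hF.1 v
          simp only [ψ]; omega
        · have := bd.vn j hj _ hF.2.1 (nA _ hF.2.1 y0) u
          have := bd.v01 j hj _ hF.1 v
          simp only [ψ]; omega
      have : L ≤ ψ F / (4 * (j + 1)) := Int.le_ediv_of_mul_le hc (by linarith)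
      omega
  refine ⟨fun F => max 0 (min L (ψ F / (4 * (j + 1)))), fun F => ⟨le_max_left _ _, max_le h0 (min_le_left _ _)⟩,
    fun F hF G hG a b ab => ?_, fun F hF a G hG hS b => lo F hF a G hG hS.2.2 b,
    fun F hF a G hG hS b => hi F hF a G hG hS.2.2 b⟩
  have iF : F ∩ G ⊆ F := Finset.inter_subset_left
  have iG : F ∩ G ⊆ G := Finset.inter_subset_right
  by_cases g0 : md (τ j) (F ∩ G) ∈ G0
  · exact (lo G hG b _ iG g0 ab.ge).trans ((le_max_left _ _).trans (le_add_of_nonneg_right zero_le_one))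
  by_cases g1 : md (τ j) (F ∩ G) ∈ G1
  · exact (max_le h0 (min_le_left _ _)).trans
      ((hi F hF a _ iF g1 ab.ge).trans (le_add_of_nonneg_right zero_le_one))
  have HF := (hP _ hF.2.2 (c5 F hF a)).2.2 _ (mm F hF _ iF) (c4 F hF _ iF ab.ge)
  have HG := (hP _ hG.2.2 (c5 G hG b)).2.2 _ (mm G hG _ iG) (c4 G hG _ iG ab.ge)
  have hE := dn dR F hF _ iF
  simp only [mX_md, mY_md, g0, g1, false_or] at HF HG
  have lip : ∀ X ∈ A (j + 1), ∀ Y ∈ A (j + 1), (τ j (X ∩ Y) = ∅ → τ j X = {2} ∨ τ j X = {5}) →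
      (τ j (X ∩ Y) = ∅ → τ j Y = {2} ∨ τ j Y = {5}) →
      pos j Y ≤ pos j X + 2 * (j + 1) ∧ pos j X ≤ pos j Y + 2 * (j + 1) := fun X hX Y hY u v => by
    by_cases w : X ∩ Y ∈ A j
    · have e := (bd.tempty j hj _ (bd.mono j w)).2 w
      have := pole X hX (u e)
      have := pole Y hY (v e)
      omega
    · exact ⟨bd.lip j hj X hX Y hY w, bd.lip j hj Y hY X hX (by rwa [Finset.inter_comm])⟩
  have e1 : (F ∩ G).toLeft = F.toLeft ∩ G.toLeft := by ext; simp
  have e2 : (F ∩ G).toRight.toLeft = F.toRight.toLeft ∩ G.toRight.toLeft := by ext; simp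
  rw [e1, e2] at HF HG
  have l1 := lip _ hF.1 _ hG.1 HF.1 HG.1
  have l2 := lip _ hF.2.1 _ hG.2.1 HF.2.1 HG.2.1
  exact clamp_lip hc (by simp only [ψ]; omega)

end Pool.Agent.MP_6a6613_co
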