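import Pool.Agent.MP_6a6613_co.Stmts
import Pool.Agent.MP_d539bc_co.Topo

/-! From a cone homeomorphism and a potential to the statement on geometric complexes. -/

namespace Pool.Agent.MP_6a6613_co

open Set

namespace Final

open Pool.Agent.MP_d539bc_co (realization HasDim IsSphere PM pm_of_sphere pure_of_lc
  lc_of_charted Eu LC)

section Restrict

variable {V W : Type} [Fintype V] [Fintype W]

theorem supp_extend (e : W ↪ V) (x : W → ℝ) :
    supp (Function.extend e x 0) = (supp x).map e := by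
  ext v
  rw [mem_supp, Finset.mem_map]
  constructor
  · intro h
    by_cases hv : ∃ w, e w = v
    · obtain ⟨w, rfl⟩ := hv
      rw [e.injective.extend_apply] at h
      exact ⟨w, mem_supp.2 h, rfl⟩
    · rw [Function.extend_apply' _ _ _ hv] at h
      exact absurd rfl h
  · rintro ⟨w, hw, rfl⟩
    rw [e.injective.extend_apply]
    exact mem_supp.1 hw

theorem hh_extend (e : W ↪ V) {K : Set (Finset V)} (hK : Down K)
    (he : ∀ v, {v} ∈ K → ∃ w, e w = v) :
    HH (fun x : W → ℝ => Function.extend e x 0) (fun p : V → ℝ => p ∘ e)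
      (Cn {s : Finset W | s.map e ∈ K}) (Cn K) := by
  have hfg : ∀ p ∈ Cn K, Function.extend e (p ∘ e) 0 = p := by
    intro p hp
    funext v
    by_cases hv : ∃ w, e w = v
    · obtain ⟨w, rfl⟩ := hv
      rw [e.injective.extend_apply]; rfl
    · rw [Function.extend_apply' _ _ _ hv]
      by_contra h
      exact hv (he v (hK _ hp.2 _ (Finset.singleton_subset_iff.2 (mem_supp.2 (Ne.symm h)))))
  have hd : Down {s : Finset W | s.map e ∈ K} := fun F hF G hG =>
    hK _ hF _ (Finset.map_subset_map.2 hG)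
  refine ⟨Continuous.continuousOn (continuous_pi fun v => ?_),
    Continuous.continuousOn (continuous_pi fun w => continuous_apply (e w)), fun x hx => ⟨?_, ?_⟩,
    fun p hp => ⟨fun w => hp.1 _, ?_⟩, fun x _ => ?_, hfg, hd.smul, fun x _ t _ => ?_⟩
  · by_cases hv : ∃ w, e w = v
    · obtain ⟨w, rfl⟩ := hv
      simp only [e.injective.extend_apply]
      exact continuous_apply w
    · simp only [Function.extend_apply' _ _ _ hv]
      exact continuous_const
  · intro v
    by_cases hv : ∃ w, e w = v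
    · obtain ⟨w, rfl⟩ := hv
      simp only [e.injective.extend_apply]
      exact hx.1 w
    · simp only [Function.extend_apply' _ _ _ hv]
      exact le_rfl
  · rw [supp_extend]; exact hx.2
  · show (supp (p ∘ e)).map e ∈ K
    rw [← supp_extend, hfg p hp]; exact hp.2
  · funext w
    exact e.injective.extend_apply _ _ w
  · funext v
    by_cases hv : ∃ w, e w = v
    · obtain ⟨w, rfl⟩ := hv
      simp only [Pi.smul_apply, e.injective.extend_apply]
    · simp only [Pi.smul_apply, Function.extend_apply' _ _ _ hv]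
      simp

end Restrict

theorem sphere_homeo {V : Type} [Fintype V] {K : Set (Finset V)} {d : ℕ} (h : Sph K d) :
    Nonempty ({p : V → ℝ | p ∈ Cn K ∧ ∑ v, p v = 1} ≃ₜ
      Metric.sphere (0 : EuclideanSpace ℝ (Fin d)) 1) := by
  obtain ⟨f, g, h⟩ := h
  have hs := h.symm
  have hg0 : g 0 = 0 := by simpa using hs.hf 0 (mem_univ _) 0 le_rfl
  have h0 : (0 : V → ℝ) ∈ Cn K := hg0 ▸ h.mg (mem_univ 0)
  have hf0 : f 0 = 0 := by simpa using h.hf 0 h0 0 le_rfl
  let F : (V → ℝ) → EuclideanSpace ℝ (Fin d) := fun p => WithLp.toLp 2 (f p)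
  let G : EuclideanSpace ℝ (Fin d) → V → ℝ := fun y => g y.ofLp
  have hFpos : ∀ p ∈ Cn K, ∑ v, p v = 1 → 0 < ‖F p‖ := by
    intro p hp h1
    rw [norm_pos_iff]
    intro e
    have e1 : f p = f 0 := by
      rw [hf0]; exact congrArg WithLp.ofLp e
    rw [h.inj hp h0 e1] at h1
    simp at h1
  have hGm : ∀ y, G y ∈ Cn K := fun y => h.mg (mem_univ _)
  have hGpos : ∀ y, ‖y‖ = 1 → 0 < ∑ v, G y v := by
    intro y hy
    rcases (Finset.sum_nonneg fun v _ => (hGm y).1 v).eq_or_lt with e | e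
    · exfalso
      have e1 : G y = 0 := funext fun v =>
        (Finset.sum_eq_zero_iff_of_nonneg fun v _ => (hGm y).1 v).1 e.symm v (Finset.mem_univ v)
      have e2 : y.ofLp = 0 := by
        rw [← h.fg y.ofLp (mem_univ _)]
        exact (congrArg f e1).trans hf0
      have e3 : y = 0 := by
        ext i; simpa using congrFun e2 i
      rw [e3] at hy; simp at hy
    · exact e
  have hFG : ∀ y, F (G y) = y := fun y => by
    simp only [F, G, h.fg _ (mem_univ _)]
  have hGF : ∀ p ∈ Cn K, G (F p) = p := fun p hp => h.gf p hp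
  have hFs : ∀ p ∈ Cn K, ∀ t : ℝ, 0 ≤ t → F (t • p) = t • F p := fun p hp t ht => by
    simp only [F, h.hf p hp t ht, WithLp.toLp_smul]
  have hGs : ∀ y, ∀ t : ℝ, 0 ≤ t → G (t • y) = t • G y := fun y t ht => by
    simp only [G, WithLp.ofLp_smul, hs.hf _ (mem_univ _) t ht]
  have hFc : Continuous fun p : {p : V → ℝ | p ∈ Cn K ∧ ∑ v, p v = 1} => F p :=
    (PiLp.continuous_toLp 2 _).comp
      (h.cf.comp_continuous continuous_subtype_val fun p => p.2.1)
  have hGc : Continuous G :=
    (continuousOn_univ.1 h.cg).comp (PiLp.continuous_ofLp 2 _)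
  refine ⟨⟨⟨fun p => ⟨‖F p‖⁻¹ • F p, ?_⟩, fun y => ⟨(∑ v, G y v)⁻¹ • G y, ?_, ?_⟩,
    fun p => ?_, fun y => ?_⟩, ?_, ?_⟩⟩
  · have := hFpos p p.2.1 p.2.2
    rw [mem_sphere_zero_iff_norm, norm_smul, norm_inv, norm_norm, inv_mul_cancel₀ this.ne']
  · exact h.sX _ (hGm y) _ (inv_nonneg.2 (hGpos y (mem_sphere_zero_iff_norm.1 y.2)).le)
  · have := hGpos y (mem_sphere_zero_iff_norm.1 y.2)
    simp only [Pi.smul_apply, smul_eq_mul]
    rw [← Finset.mul_sum, inv_mul_cancel₀ this.ne']
  · have hp := hFpos p p.2.1 p.2.2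
    apply Subtype.ext
    simp only []
    rw [hGs _ _ (inv_nonneg.2 hp.le), hGF p p.2.1]
    simp only [Pi.smul_apply, smul_eq_mul]
    rw [← Finset.mul_sum, p.2.2, mul_one, inv_inv, smul_smul, mul_inv_cancel₀ hp.ne', one_smul]
  · have hy1 := mem_sphere_zero_iff_norm.1 y.2
    have hy := hGpos y hy1
    apply Subtype.ext
    simp only []
    rw [hFs _ (hGm y) _ (inv_nonneg.2 hy.le), hFG, norm_smul, hy1, mul_one, norm_inv,
      Real.norm_of_nonneg hy.le, inv_inv, smul_smul, mul_inv_cancel₀ hy.ne', one_smul]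
  · exact Continuous.subtype_mk
      ((hFc.norm.inv₀ fun p => (hFpos p p.2.1 p.2.2).ne').smul hFc) _
  · have hc : Continuous fun y : Metric.sphere (0 : EuclideanSpace ℝ (Fin d)) 1 => G y :=
      hGc.comp continuous_subtype_val
    exact Continuous.subtype_mk
      (((continuous_finsetSum _ fun v _ => (continuous_apply v).comp hc).inv₀
        fun y => (hGpos y (mem_sphere_zero_iff_norm.1 y.2)).ne').smul hc) _

/-- The basis vectors. -/
noncomputable def bv (m : ℕ) : Fin m ↪ EuclideanSpace ℝ (Fin m) :=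
  ⟨fun i => EuclideanSpace.single i 1, fun i j h => by
    by_contra hij
    have := congrArg (fun y : EuclideanSpace ℝ (Fin m) => y i) h
    simp [hij] at this⟩

theorem bv_apply {m : ℕ} (i j : Fin m) : bv m i j = if j = i then 1 else 0 := by
  simp [bv]

theorem bv_indep (m : ℕ) : AffineIndependent ℝ (bv m) :=
  (EuclideanSpace.orthonormal_single (𝕜 := ℝ) (ι := Fin m)).linearIndependent.affineIndependent

theorem mem_hull {m : ℕ} (s : Finset (Fin m)) (x : EuclideanSpace ℝ (Fin m)) :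
    x ∈ convexHull ℝ ((s.map (bv m) : Finset _) : Set (EuclideanSpace ℝ (Fin m))) ↔
      (∀ i, 0 ≤ x i) ∧ ∑ i, x i = 1 ∧ ∀ i, i ∉ s → x i = 0 := by
  constructor
  · intro hx
    refine convexHull_min (t := {x : EuclideanSpace ℝ (Fin m) |
      (∀ i, 0 ≤ x i) ∧ ∑ i, x i = 1 ∧ ∀ i, i ∉ s → x i = 0}) ?_ ?_ hx
    · intro y hy
      obtain ⟨j, hj, rfl⟩ := Finset.mem_map.1 (Finset.mem_coe.1 hy)
      refine ⟨fun i => ?_, ?_, fun i hi => ?_⟩
      · rw [bv_apply]; split_ifs <;> norm_num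
      · simp [bv_apply]
      · rw [bv_apply, if_neg fun e : i = j => hi (e ▸ hj)]
    · intro y hy z hz a b ha hb hab
      refine ⟨fun i => ?_, ?_, fun i hi => ?_⟩
      · simp only [PiLp.add_apply, PiLp.smul_apply, smul_eq_mul]
        exact add_nonneg (mul_nonneg ha (hy.1 i)) (mul_nonneg hb (hz.1 i))
      · simp only [PiLp.add_apply, PiLp.smul_apply, smul_eq_mul]
        rw [Finset.sum_add_distrib, ← Finset.mul_sum, ← Finset.mul_sum, hy.2.1, hz.2.1]
        linarith
      · simp only [PiLp.add_apply, PiLp.smul_apply, smul_eq_mul]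
        rw [hy.2.2 i hi, hz.2.2 i hi]; simp
  · rintro ⟨h1, h2, h3⟩
    have e : x = ∑ i ∈ s, x i • bv m i := by
      ext j
      simp only [WithLp.ofLp_sum, Finset.sum_apply, PiLp.smul_apply, bv_apply, smul_eq_mul,
        mul_ite, mul_one, mul_zero, Finset.sum_ite_eq]
      split_ifs with hj
      · rfl
      · exact h3 j hj
    rw [e]
    refine (convex_convexHull ℝ _).sum_mem (fun i _ => h1 i) ?_ fun i hi =>
      subset_convexHull ℝ _ (Finset.mem_coe.2 (Finset.mem_map_of_mem _ hi))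
    rw [← h2]
    exact Finset.sum_subset (Finset.subset_univ s) fun i _ hi => h3 i hi

open Classical in
/-- The geometric complex on the basis vectors. -/
noncomputable def geo {m : ℕ} (A : AbstractSimplicialComplex (Fin m)) :
    Geometry.SimplicialComplex ℝ (EuclideanSpace ℝ (Fin m)) :=
  Geometry.SimplicialComplex.ofAffineIndependent
    ⟨{F | ∃ s ∈ A.faces, s.map (bv m) = F}, by
      rintro F ⟨s, hs, rfl⟩
      refine ⟨(MP_d539bc_co.face_nonempty hs).map, fun G hG hG' => ?_⟩
      obtain ⟨t, ht, rfl⟩ := Finset.subset_map_iff.1 hG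
      exact ⟨t, MP_d539bc_co.face_down hs ht (Finset.map_nonempty.1 hG'), rfl⟩⟩
    ((bv_indep m).range.mono fun x hx => by
      simp only [mem_iUnion, Finset.mem_coe] at hx
      obtain ⟨_, ⟨s, -, rfl⟩, hx⟩ := hx
      obtain ⟨i, -, rfl⟩ := Finset.mem_map.1 hx
      exact ⟨i, rfl⟩)

theorem mem_geo {m : ℕ} {A : AbstractSimplicialComplex (Fin m)}
    {F : Finset (EuclideanSpace ℝ (Fin m))} :
    F ∈ (geo A).faces ↔ ∃ s ∈ A.faces, s.map (bv m) = F := Iff.rfl

theorem mem_space {m : ℕ} {A : AbstractSimplicialComplex (Fin m)}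
    {x : EuclideanSpace ℝ (Fin m)} : x ∈ (geo A).space ↔ x.ofLp ∈ realization A := by
  rw [Geometry.SimplicialComplex.mem_space_iff]
  constructor
  · rintro ⟨F, ⟨s, hs, rfl⟩, hx⟩
    obtain ⟨h1, h2, h3⟩ := (mem_hull s x).1 hx
    exact ⟨h1, h2, s, hs, h3⟩
  · rintro ⟨h1, h2, s, hs, h3⟩
    exact ⟨_, ⟨s, hs, rfl⟩, (mem_hull s x).2 ⟨h1, h2, h3⟩⟩

theorem mem_facets {m d : ℕ} {A : AbstractSimplicialComplex (Fin m)} (hd : HasDim A d)
    (hp : PM A d) {F : Finset (EuclideanSpace ℝ (Fin m))} :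
    F ∈ (geo A).facets ↔ ∃ s ∈ A.faces, s.card = d ∧ s.map (bv m) = F := by
  rw [Geometry.SimplicialComplex.mem_facets]
  constructor
  · rintro ⟨⟨s, hs, rfl⟩, h⟩
    obtain ⟨t, ht, hst, htc⟩ := hp.pure s hs
    have := Finset.map_injective _ (h _ ⟨t, ht, rfl⟩ (Finset.map_subset_map.2 hst))
    exact ⟨s, hs, this ▸ htc, rfl⟩
  · rintro ⟨s, hs, hc, rfl⟩
    refine ⟨⟨s, hs, rfl⟩, ?_⟩
    rintro _ ⟨t, ht, rfl⟩ hst
    rw [Finset.eq_of_subset_of_card_le (Finset.map_subset_map.1 hst) (hc ▸ hd.1 t ht)]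

theorem walk_bound {α : Type} {H : SimpleGraph α} (ψ : α → ℤ)
    (h : ∀ u v, H.Adj u v → ψ v ≤ ψ u + 1) {u v : α} (p : H.Walk u v) :
    ψ v ≤ ψ u + p.length := by
  induction p with
  | nil => simp
  | cons huv p ih =>
    have := h _ _ huv
    rw [SimpleGraph.Walk.length_cons]
    push_cast
    linarith

theorem core {m d : ℕ} (A : AbstractSimplicialComplex (Fin m)) (hd : 2 ≤ d)
    (e : realization A ≃ₜ Metric.sphere (0 : EuclideanSpace ℝ (Fin d)) 1)
    (Φ : Finset (Fin m) → ℤ) (z0 z1 : Fin m)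
    (hlip : ∀ F ∈ A.faces, ∀ G ∈ A.faces, F.card = d → G.card = d → (F ∩ G).card + 1 = d →
      Φ G ≤ Φ F + 1)
    (h0 : ∀ F ∈ A.faces, F.card = d → z0 ∈ F → Φ F ≤ 0)
    (h1 : ∀ F ∈ A.faces, F.card = d → z1 ∈ F → 2 * (m : ℤ) ≤ Φ F) : Target := by
  classical
  obtain ⟨k, rfl⟩ : ∃ k, d = k + 1 := ⟨d - 1, by omega⟩
  have hdim : HasDim A (k + 1) := by
    obtain ⟨s, hs, hmax⟩ := (toFinite A.faces).toFinset.exists_max_image Finset.card
      ⟨{z0}, (Finite.mem_toFinset _).2 (A.singleton_mem z0)⟩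
    have hd' : HasDim A s.card :=
      ⟨fun t ht => hmax t ((Finite.mem_toFinset _).2 ht), s, (Finite.mem_toFinset _).1 hs, rfl⟩
    have c : ChartedSpace (Eu k) (realization A) := e.symm.chartedSpace
    have hc : ∀ x ∈ realization A, LC (realization A) k x := fun x hx => lc_of_charted c hx
    rw [(pure_of_lc hc hd').1]
    exact hd'
  have hp : PM A (k + 1) := pm_of_sphere hd hdim ⟨k, ⟨e⟩⟩
  unfold Target
  refine ⟨k + 1, (geo A).vertices.ncard, m, hd, geo A, ?_, rfl, ⟨?_⟩, ?_, ?_⟩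
  · exact ((toFinite A.faces).image (Finset.map (bv m))).subset fun F hF => hF
  · exact ((PiLp.homeomorph 2 fun _ : Fin m => ℝ).subtype fun x => mem_space).trans e
  · intro F hF
    obtain ⟨s, -, hc, rfl⟩ := (mem_facets hdim hp).1 hF
    rw [Finset.card_map, hc]
  · have hn : (geo A).vertices.ncard ≤ m := by
      have : (geo A).vertices ⊆ bv m '' univ := by
        rintro x ⟨s, -, hs⟩
        have : x ∈ s.map (bv m) := hs ▸ Finset.mem_singleton_self x
        obtain ⟨i, -, rfl⟩ := Finset.mem_map.1 this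
        exact ⟨i, mem_univ _, rfl⟩
      refine (ncard_le_ncard this (toFinite _)).trans ((ncard_image_le).trans ?_)
      simp [ncard_univ]
    have hfin : Finite (geo A).facets :=
      (((toFinite A.faces).image (Finset.map (bv m))).subset fun F hF =>
        Geometry.SimplicialComplex.facets_subset hF).to_subtype
    generalize hH : SimpleGraph.fromRel _ = H
    have hadj : ∀ (s t : Finset (Fin m)) (hs : s.map (bv m) ∈ (geo A).facets)
        (ht : t.map (bv m) ∈ (geo A).facets),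
        H.Adj ⟨_, hs⟩ ⟨_, ht⟩ ↔ s ≠ t ∧ (s ∩ t).card + 1 = k + 1 := by
      intro s t hs ht
      rw [← hH, SimpleGraph.fromRel_adj]
      simp only [← Finset.map_inter, Finset.card_map, ne_eq, Subtype.mk.injEq, Finset.map_inj,
        Finset.inter_comm t s, or_self]
    have hmk : ∀ s ∈ A.faces, s.card = k + 1 → s.map (bv m) ∈ (geo A).facets :=
      fun s hs hc => (mem_facets hdim hp).2 ⟨s, hs, hc, rfl⟩
    obtain ⟨F0, hF0, hz0, c0⟩ := hp.pure _ (A.singleton_mem z0)
    obtain ⟨F1, hF1, hz1, c1⟩ := hp.pure _ (A.singleton_mem z1)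
    have hreach : ∀ v, H.Reachable ⟨_, hmk F0 hF0 c0⟩ v := by
      rintro ⟨F, hF⟩
      obtain ⟨s, hs, hc, rfl⟩ := (mem_facets hdim hp).1 hF
      have := hp.strong (fun s => ∀ h : s.map (bv m) ∈ (geo A).facets,
        H.Reachable ⟨_, hmk F0 hF0 c0⟩ ⟨_, h⟩) (fun R z z' hR hz hz' f1 f2 ih h => by
          have a1 := hmk _ f1 (by rw [Finset.card_insert_of_notMem hz, hR])
          by_cases ezz : z = z'
          · subst ezz; exact ih h
          · refine (ih a1).trans (SimpleGraph.Adj.reachable ((hadj _ _ a1 h).2 ⟨fun e => ?_, ?_⟩))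
            · have : z ∈ insert z' R := e ▸ Finset.mem_insert_self z R
              rcases Finset.mem_insert.1 this with a | a
              exacts [ezz a, hz a]
            · rw [← hR]
              congr 2
              ext v
              simp only [Finset.mem_inter, Finset.mem_insert]
              constructor
              · rintro ⟨a | a, b | b⟩
                exacts [absurd (a.symm.trans b) ezz, b, a, a]
              · exact fun a => ⟨Or.inr a, Or.inr a⟩)
        F0 hF0 s hs c0 hc (fun _ => SimpleGraph.Reachable.refl _)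
      exact this hF
    have hne : Nonempty (geo A).facets := ⟨⟨_, hmk F0 hF0 c0⟩⟩
    have hconn : H.Connected := ⟨fun u v => (hreach u).symm.trans (hreach v)⟩
    have hdiam := SimpleGraph.dist_le_diam (SimpleGraph.connected_iff_ediam_ne_top.1 hconn)
      (u := ⟨_, hmk F0 hF0 c0⟩) (v := ⟨_, hmk F1 hF1 c1⟩)
    obtain ⟨p, hp'⟩ := hconn.exists_walk_length_eq_dist ⟨_, hmk F0 hF0 c0⟩ ⟨_, hmk F1 hF1 c1⟩
    have hpre : ∀ s : Finset (Fin m), pre (bv m) (s.map (bv m)) = s := fun s => by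
      ext i; simp
    have hw := walk_bound (H := H) (fun F => Φ (pre (bv m) F.1)) (by
      rintro ⟨F, hF⟩ ⟨G, hG⟩ h
      obtain ⟨s, hs, hc, rfl⟩ := (mem_facets hdim hp).1 hF
      obtain ⟨t, ht, hc', rfl⟩ := (mem_facets hdim hp).1 hG
      simp only [hpre]
      exact hlip s hs t ht hc hc' ((hadj s t hF hG).1 h).2) p
    simp only [hpre] at hw
    have a0 := h0 F0 hF0 c0 (Finset.singleton_subset_iff.1 hz0)
    have a1 := h1 F1 hF1 c1 (Finset.singleton_subset_iff.1 hz1)
    omega

end Final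

open Pool.Agent.MP_d539bc_co (realization) in
theorem finalStmt : FinalStmt := by
  intro V _ _ K d Φ z0 z1 hK hd hS hz0 hz1 hlip h0 h1
  classical
  let V' := {v : V // {v} ∈ K}
  let m := Fintype.card V'
  let e : Fin m ↪ V := (Fintype.equivFin V').symm.toEmbedding.trans (Function.Embedding.subtype _)
  have he : ∀ v, {v} ∈ K → ∃ w, e w = v := fun v hv =>
    ⟨Fintype.equivFin V' ⟨v, hv⟩,
      congrArg Subtype.val ((Fintype.equivFin V').symm_apply_apply ⟨v, hv⟩)⟩
  have he' : ∀ w, {e w} ∈ K := fun w => ((Fintype.equivFin V').symm w).2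
  have hm : m ≤ Fintype.card V := Fintype.card_subtype_le _
  have hS' : Sph {s : Finset (Fin m) | s.map e ∈ K} d := by
    obtain ⟨f, g, h⟩ := hS
    exact ⟨_, _, (Final.hh_extend e hK he).trans h⟩
  obtain ⟨φ⟩ := Final.sphere_homeo hS'
  let A : AbstractSimplicialComplex (Fin m) :=
    ⟨⟨{s | s.Nonempty ∧ s.map e ∈ K}, fun s hs =>
      ⟨hs.1, fun t ht ht' => ⟨ht', hK _ hs.2 _ (Finset.map_subset_map.2 ht)⟩⟩⟩,
      fun w => ⟨Finset.singleton_nonempty w, by simpa using he' w⟩⟩
  have hA : realization A =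
      {p : Fin m → ℝ | p ∈ Cn {s : Finset (Fin m) | s.map e ∈ K} ∧ ∑ v, p v = 1} := by
    ext p
    constructor
    · rintro ⟨a, b, s, hs, c⟩
      exact ⟨⟨a, hK _ hs.2 _ (Finset.map_subset_map.2 fun v hv =>
        by_contra fun h => mem_supp.1 hv (c v h))⟩, b⟩
    · rintro ⟨⟨a, c⟩, b⟩
      refine ⟨a, b, supp p, ⟨?_, c⟩, fun v hv => by simpa using hv⟩
      by_contra hne
      rw [Finset.not_nonempty_iff_eq_empty] at hne
      have : ∀ v, p v = 0 := fun v => by
        by_contra h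
        have : v ∈ supp p := mem_supp.2 h
        simp [hne] at this
      simp [this] at b
  obtain ⟨w0, rfl⟩ := he z0 hz0
  obtain ⟨w1, rfl⟩ := he z1 hz1
  refine Final.core A hd ((Homeomorph.setCongr hA).trans φ) (fun s => Φ (s.map e)) w0 w1
    (fun F hF G hG c1 c2 c3 => hlip _ hF.2 _ hG.2 (by simpa using c1) (by simpa using c2)
      (by rw [← Finset.map_inter, Finset.card_map, c3]))
    (fun F hF c hz => h0 _ hF.2 (by simpa using c) (Finset.mem_map_of_mem _ hz))
    (fun F hF c hz => le_trans ?_ (h1 _ hF.2 (by simpa using c) (Finset.mem_map_of_mem _ hz)))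
  omega

end Pool.Agent.MP_6a6613_co
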