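import Pool.Agent.MP_6a6613_co.Stmts

/-! Regions between two spheres and their joins with a passive complex. -/

namespace Pool.Agent.MP_6a6613_co

open Set

/-- `R` is a region between `S` and `S'` whose crossing costs `L` steps. -/
structure Cob {V : Type} [Fintype V] [DecidableEq V] (z : V) (S S' R : Set (Finset V)) (d : ℕ)
    (L : ℤ) : Prop where
  dS : Down S
  dS' : Down S'
  dR : Down R
  card : ∀ F ∈ R, F.card ≤ d
  ri : RI (cone z S) (R ∪ cone z S') {F | z ∉ F}
  pot : ∃ φ : Finset V → ℤ, (∀ F, 0 ≤ φ F ∧ φ F ≤ L) ∧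
    (∀ F ∈ R, ∀ G ∈ R, F.card = d → G.card = d → (F ∩ G).card + 1 = d → φ G ≤ φ F + 1) ∧
    (∀ F ∈ R, F.card = d → ∀ G ⊆ F, G ∈ S → d ≤ G.card + 1 → φ F ≤ 0) ∧
    ∀ F ∈ R, F.card = d → ∀ G ⊆ F, G ∈ S' → d ≤ G.card + 1 → L ≤ φ F

variable {α V : Type} [Fintype α] [DecidableEq α] [Fintype V] [DecidableEq V]

/-- The part of `F` outside the range of `e`. -/
def rest (e : α → V) (F : Finset V) : Finset V := F.filter fun v => ∀ a, e a ≠ v

/-- Join of a complex on `α` with a complex on the complement of the range of `e`. -/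
def lift (e : α → V) (N : Set (Finset V)) (D : Set (Finset α)) : Set (Finset V) :=
  {F | pre e F ∈ D ∧ rest e F ∈ N}

omit [DecidableEq α] [Fintype V] in
@[simp] theorem mem_rest {e : α → V} {F : Finset V} {v : V} :
    v ∈ rest e F ↔ v ∈ F ∧ ∀ a, e a ≠ v := by simp [rest]

omit [DecidableEq α] [Fintype V] in
theorem pre_mono (e : α → V) {F G : Finset V} (h : G ⊆ F) : pre e G ⊆ pre e F :=
  fun _ ha => mem_pre.2 (h (mem_pre.1 ha))

omit [DecidableEq α] [Fintype V] in
theorem rest_mono (e : α → V) {F G : Finset V} (h : G ⊆ F) : rest e G ⊆ rest e F :=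
  fun _ ha => mem_rest.2 ⟨h (mem_rest.1 ha).1, (mem_rest.1 ha).2⟩

omit [DecidableEq α] [Fintype V] in
theorem Down.lift {e : α → V} {N : Set (Finset V)} {D : Set (Finset α)} (hN : Down N)
    (hD : Down D) : Down (lift e N D) :=
  fun _ hF _ hG => ⟨hD _ hF.1 _ (pre_mono e hG), hN _ hF.2 _ (rest_mono e hG)⟩

omit [DecidableEq α] in
theorem supp_comp (e : α → V) (p : V → ℝ) : supp (fun a => p (e a)) = pre e (supp p) := by
  ext a; simp

omit [Fintype V] in
theorem card_pre_rest {e : α → V} (he : Function.Injective e) (F : Finset V) :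
    F.card = (pre e F).card + (rest e F).card := by
  rw [← Finset.card_image_of_injective (pre e F) he, ← Finset.card_union_of_disjoint]
  · congr 1
    ext v
    simp only [Finset.mem_union, Finset.mem_image, mem_pre, mem_rest]
    constructor
    · intro hv
      by_cases h : ∃ a, e a = v
      · obtain ⟨a, rfl⟩ := h
        exact Or.inl ⟨a, hv, rfl⟩
      · exact Or.inr ⟨hv, fun a ha => h ⟨a, ha⟩⟩
    · rintro (⟨a, ha, rfl⟩ | h)
      exacts [ha, h.1]
  · rw [Finset.disjoint_left]
    intro v hv hv'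
    obtain ⟨a, -, rfl⟩ := Finset.mem_image.1 hv
    exact (mem_rest.1 hv').2 a rfl

/-- Apply `f` in the coordinates of the range of `e`. -/
noncomputable def ext (e : α → V) (f : (α → ℝ) → (α → ℝ)) (p : V → ℝ) : V → ℝ :=
  Function.extend e (f fun a => p (e a)) p

omit [DecidableEq α] [DecidableEq V] [Fintype α] [Fintype V] in
theorem ext_in {e : α → V} (he : Function.Injective e) (f : (α → ℝ) → (α → ℝ)) (p : V → ℝ)
    (a : α) : ext e f p (e a) = f (fun a => p (e a)) a := he.extend_apply _ _ _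

omit [DecidableEq α] [DecidableEq V] [Fintype α] [Fintype V] in
theorem ext_out {e : α → V} (f : (α → ℝ) → (α → ℝ)) (p : V → ℝ) {v : V}
    (hv : ¬ ∃ a, e a = v) : ext e f p v = p v := Function.extend_apply' _ _ _ hv

omit [DecidableEq α] in
theorem ext_aux {e : α → V} (he : Function.Injective e) {N : Set (Finset V)}
    {D D' : Set (Finset α)} {f g : (α → ℝ) → (α → ℝ)} (h : HH f g (Cn D) (Cn D')) :
    ContinuousOn (ext e f) (Cn (lift e N D)) ∧
      MapsTo (ext e f) (Cn (lift e N D)) (Cn (lift e N D')) ∧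
      ∀ p ∈ Cn (lift e N D), ext e g (ext e f p) = p := by
  have hm : MapsTo (fun (p : V → ℝ) a => p (e a)) (Cn (lift e N D)) (Cn D) :=
    fun p hp => ⟨fun a => hp.1 _, by rw [supp_comp]; exact hp.2.1⟩
  have hc : ∀ p, (fun a => ext e f p (e a)) = f fun a => p (e a) :=
    fun p => funext (ext_in he f p)
  refine ⟨continuousOn_pi.2 fun v => ?_, fun p hp => ⟨fun v => ?_, ?_, ?_⟩, fun p hp => ?_⟩
  · by_cases hv : ∃ a, e a = v
    · obtain ⟨a, rfl⟩ := hv
      simp only [ext_in he]
      exact (continuous_apply a).comp_continuousOn (h.cf.comp (by fun_prop) hm)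
    · simp only [ext_out _ _ hv]
      exact (continuous_apply v).continuousOn
  · by_cases hv : ∃ a, e a = v
    · obtain ⟨a, rfl⟩ := hv
      rw [ext_in he]
      exact (h.mf (hm hp)).1 a
    · rw [ext_out _ _ hv]; exact hp.1 v
  · rw [← supp_comp, hc]; exact (h.mf (hm hp)).2
  · have : rest e (supp (ext e f p)) = rest e (supp p) := by
      ext v
      simp only [mem_rest, mem_supp]
      exact and_congr_left fun hv => by rw [ext_out _ _ fun ⟨a, ha⟩ => hv a ha]
    rw [this]; exact hp.2.2
  · funext v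
    by_cases hv : ∃ a, e a = v
    · obtain ⟨a, rfl⟩ := hv
      rw [ext_in he, hc, h.gf _ (hm hp)]
    · rw [ext_out _ _ hv, ext_out _ _ hv]

omit [DecidableEq α] in
theorem RI.lift {e : α → V} (he : Function.Injective e) {N : Set (Finset V)} (hN : Down N)
    {D D' Γ : Set (Finset α)} (hD : Down D) (h : RI D D' Γ) :
    RI (lift e N D) (lift e N D') {F | pre e F ∈ Γ} := by
  obtain ⟨f, g, h, hf⟩ := h
  have a := ext_aux (N := N) he h
  have b := ext_aux (N := N) he h.symm
  have hm : MapsTo (fun (p : V → ℝ) a => p (e a)) (Cn (Pool.Agent.MP_6a6613_co.lift e N D))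
      (Cn D) := fun p hp => ⟨fun a => hp.1 _, by rw [supp_comp]; exact hp.2.1⟩
  refine ⟨ext e f, ext e g, ⟨a.1, b.1, a.2.1, b.2.1, a.2.2, b.2.2, (hN.lift hD).smul,
    fun p hp t ht => ?_⟩, fun p hp hs => ?_⟩
  · funext v
    by_cases hv : ∃ a, e a = v
    · obtain ⟨a, rfl⟩ := hv
      have := h.hf _ (hm hp) t ht
      rw [Pi.smul_apply, ext_in he, ext_in he, ← Pi.smul_apply, ← this]
      rfl
    · rw [Pi.smul_apply, ext_out _ _ hv, ext_out _ _ hv, Pi.smul_apply]
  · funext v
    by_cases hv : ∃ a, e a = v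
    · obtain ⟨a, rfl⟩ := hv
      rw [ext_in he, hf _ (hm hp) (by rw [supp_comp]; exact hs)]
    · rw [ext_out _ _ hv]

omit [Fintype V] in
theorem cone_lift {e : α → V} (he : Function.Injective e) (N : Set (Finset V))
    (S : Set (Finset α)) (z : α) : cone (e z) (lift e N S) = lift e N (cone z S) := by
  ext F
  have h1 : pre e (F.erase (e z)) = (pre e F).erase z := by
    ext a; simp [he.eq_iff]
  have h2 : rest e (F.erase (e z)) = rest e F := by
    ext v
    simp only [mem_rest, Finset.mem_erase]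
    exact ⟨fun h => ⟨h.1.2, h.2⟩, fun h => ⟨⟨fun e' => h.2 z e'.symm, h.1⟩, h.2⟩⟩
  simp only [cone, lift, mem_ofPred_eq, h1, h2]

theorem Cob.lift {e : α → V} (he : Function.Injective e) {N : Set (Finset V)} (hN : Down N)
    {c : ℕ} (hc : ∀ F ∈ N, F.card ≤ c) {z : α} {S S' R : Set (Finset α)} {d : ℕ} {L : ℤ}
    (h : Cob z S S' R d L) :
    Cob (e z) (lift e N S) (lift e N S') (lift e N R) (d + c) L where
  dS := hN.lift h.dS
  dS' := hN.lift h.dS'
  dR := hN.lift h.dR
  card F hF := by
    have := h.card _ hF.1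
    have := hc _ hF.2
    have := card_pre_rest he F
    omega
  ri := by
    have := h.ri.lift he hN (h.dS.cone z)
    rw [cone_lift he, cone_lift he]
    convert this using 1
    · ext F; simp only [Pool.Agent.MP_6a6613_co.lift, mem_union, mem_ofPred_eq]; tauto
    · ext F; simp
  pot := by
    obtain ⟨φ, h0, h1, h2, h3⟩ := h.pot
    have key : ∀ F ∈ Pool.Agent.MP_6a6613_co.lift e N R, F.card = d + c → (pre e F).card = d :=
      fun F hF hd => by
        have := h.card _ hF.1
        have := hc _ hF.2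
        have := card_pre_rest he F
        omega
    refine ⟨fun F => φ (pre e F), fun F => h0 _, fun F hF G hG a b ab => ?_,
      fun F hF a G hG hS b => ?_, fun F hF a G hG hS b => ?_⟩
    · have e1 : pre e (F ∩ G) = pre e F ∩ pre e G := by ext; simp
      have e2 := card_pre_rest he (F ∩ G)
      have e3 := hc _ (hN _ hF.2 _ (rest_mono e (Finset.inter_subset_left (s₂ := G))))
      have a' := key F hF a
      have b' := key G hG b
      rw [e1] at e2
      by_cases hh : (pre e F ∩ pre e G).card + 1 = d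
      · exact h1 _ hF.1 _ hG.1 a' b' hh
      · have e4 := Finset.card_le_card (Finset.inter_subset_left (s₁ := pre e F) (s₂ := pre e G))
        have e5 : pre e F ∩ pre e G = pre e F :=
          Finset.eq_of_subset_of_card_le Finset.inter_subset_left (by omega)
        have e6 : pre e F ∩ pre e G = pre e G :=
          Finset.eq_of_subset_of_card_le Finset.inter_subset_right (by omega)
        show φ (pre e G) ≤ φ (pre e F) + 1
        rw [← e6, e5]; omega
    · have := card_pre_rest he G
      have := hc _ hS.2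
      exact h2 _ hF.1 (key F hF a) _ (pre_mono e hG) hS.1 (by omega)
    · have := card_pre_rest he G
      have := hc _ hS.2
      exact h3 _ hF.1 (key F hF a) _ (pre_mono e hG) hS.1 (by omega)

/-- The invariant of the construction: `U` is the part built so far, `S` its boundary. -/
structure Inv (zt zb : V) (U S : Set (Finset V)) (d : ℕ) (D : ℤ) : Prop where
  dU : Down U
  nz : ∀ F ∈ U, zb ∉ F
  top : {zt} ∈ U
  sph : Sph (U ∪ cone zb S) d
  pot : ∃ Φ : Finset V → ℤ, (∀ F, Φ F ≤ D) ∧
    (∀ F ∈ U, ∀ G ∈ U, F.card = d → G.card = d → (F ∩ G).card + 1 = d → Φ G ≤ Φ F + 1) ∧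
    (∀ F ∈ U, F.card = d → zt ∈ F → Φ F ≤ 0) ∧
    ∀ F ∈ U, F.card = d → ∀ G ⊆ F, G ∈ S → d ≤ G.card + 1 → D ≤ Φ F

theorem Inv.step {zt zb : V} {U S S' R : Set (Finset V)} {d : ℕ} {D L : ℤ}
    (h : Inv zt zb U S d D) (hc : Cob zb S S' R d L) (h1 : U ∩ R ⊆ S) (h2 : U ∩ S' ⊆ S)
    (h3 : ∀ F ∈ U ∩ S', F.card + 1 < d) (h4 : ∀ F ∈ R, zb ∉ F ∧ zt ∉ F) :
    Inv zt zb (U ∪ R) S' d (D + L) where
  dU := h.dU.union hc.dR
  nz F hF := hF.elim (h.nz F) fun a => (h4 F a).1
  top := Or.inl h.top
  sph := by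
    rw [union_assoc]
    refine (hc.ri.glue h.dU (hc.dS.cone zb) (hc.dR.union (hc.dS'.cone zb))
      (fun F hF => h.nz F hF.1) fun F hF => ?_).sph h.sph
    have e := Finset.erase_eq_of_notMem (h.nz F hF.1)
    rcases hF.2 with a | a
    · show F.erase zb ∈ S
      rw [e]; exact h1 ⟨hF.1, a⟩
    · show F.erase zb ∈ S
      have a' : F.erase zb ∈ S' := a
      rw [e] at a' ⊢; exact h2 ⟨hF.1, a'⟩
  pot := by
    classical
    obtain ⟨Φ, a0, a1, a2, a3⟩ := h.pot
    obtain ⟨φ, b0, b1, b2, b3⟩ := hc.pot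
    have cross : ∀ F ∈ U, ∀ G ∈ R, F.card = d → G.card = d → (F ∩ G).card + 1 = d →
        D ≤ Φ F ∧ φ G ≤ 0 := fun F hF G hG a b ab => by
      have hS : F ∩ G ∈ S := h1 ⟨h.dU F hF _ Finset.inter_subset_left,
        hc.dR G hG _ Finset.inter_subset_right⟩
      exact ⟨a3 F hF a _ Finset.inter_subset_left hS ab.ge,
        b2 G hG b _ Finset.inter_subset_right hS ab.ge⟩
    refine ⟨fun F => if F ∈ U then Φ F else D + φ F, fun F => ?_, fun F hF G hG a b ab => ?_,
      fun F hF a b => ?_, fun F hF a G hG hS b => ?_⟩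
    · have := a0 F
      have := b0 F
      dsimp only
      split_ifs <;> omega
    · dsimp only
      by_cases x : F ∈ U <;> by_cases y : G ∈ U <;> simp only [x, y, if_true, if_false]
      · exact a1 F x G y a b ab
      · have := cross F x G (hG.resolve_left y) a b ab
        omega
      · have := a0 G
        have := b0 F
        omega
      · have := b1 F (hF.resolve_left x) G (hG.resolve_left y) a b ab
        omega
    · have x : F ∈ U := hF.resolve_right fun y => (h4 F y).2 b
      simp only [x, if_true]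
      exact a2 F x a b
    · dsimp only
      by_cases x : F ∈ U
      · have := h3 G ⟨h.dU F x G hG, hS⟩
        omega
      · simp only [x, if_false]
        have := b3 F (hF.resolve_left x) a G hG hS b
        omega

theorem Inv.final (hF : FinalStmt) {zt zb : V} {U S : Set (Finset V)} {d : ℕ} {D : ℤ}
    (h : Inv zt zb U S d D) (hd : 2 ≤ d) (dS : Down S) (h0 : ∅ ∈ S) (hz : zt ≠ zb)
    (h1 : ∀ F ∈ S, F.card < d ∧ zt ∉ F) (hD : 2 * (Fintype.card V : ℤ) ≤ D) : Target := by
  obtain ⟨Φ, a0, a1, a2, a3⟩ := h.pot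
  have inU : ∀ F ∈ U ∪ cone zb S, F.card = d → zb ∉ F → F ∈ U := fun F hF a b =>
    hF.resolve_right fun c => by
      have c' : F.erase zb ∈ S := c
      rw [Finset.erase_eq_of_notMem b] at c'
      have := (h1 F c').1
      omega
  have inS : ∀ F ∈ U ∪ cone zb S, zb ∈ F → F.erase zb ∈ S := fun F hF b =>
    hF.resolve_left fun c => h.nz F c b
  refine hF V (U ∪ cone zb S) d (fun F => if zb ∈ F then D else Φ F) zt zb
    (h.dU.union (dS.cone zb)) hd h.sph (Or.inl h.top) (Or.inr (by simpa [cone] using h0))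
    (fun F hF G hG a b ab => ?_) (fun F hF a b => ?_) fun F _ _ b => by simpa [b] using hD
  · by_cases x : zb ∈ F <;> by_cases y : zb ∈ G <;> simp only [x, y, if_true, if_false]
    · omega
    · have := a0 G
      omega
    · have hS : F ∩ G ∈ S := dS _ (inS G hG y) _ fun v hv => Finset.mem_erase.2
        ⟨fun e => x (e ▸ (Finset.mem_inter.1 hv).1), (Finset.mem_inter.1 hv).2⟩
      have := a3 F (inU F hF a x) a _ Finset.inter_subset_left hS ab.ge
      omega
    · exact a1 F (inU F hF a x) G (inU G hG b y) a b ab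
  · have x : zb ∉ F := fun y => (h1 _ (inS F hF y)).2 (Finset.mem_erase.2 ⟨hz, b⟩)
    simp only [x, if_false]
    exact a2 F (inU F hF a x) a b

end Pool.Agent.MP_6a6613_co
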