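import Pool.Agent.MP_6a6613_co.Stmts

/-! The finite model: 132 explicit flips on 19 vertices. -/

namespace Pool.Agent.MP_6a6613_co

open Set

namespace Model

section Abstract

variable {V : Type} [DecidableEq V]

/-- The complex generated by a family of sets. -/
def gen (L : Set (Finset V)) : Set (Finset V) := {T | ∃ G ∈ L, T ⊆ G}

omit [DecidableEq V] in
theorem gen_down (L : Set (Finset V)) : Down (gen L) :=
  fun _ ⟨G, hG, h⟩ _ h' => ⟨G, hG, h'.trans h⟩

theorem gen_fc {L : Set (Finset V)} {σ τ : Finset V} (hd : Disjoint σ τ) (h1 : σ.Nonempty)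
    (h2 : τ.Nonempty) (h3 : ∀ G ∈ L, ¬ τ ⊆ G)
    (h4 : ∀ G ∈ L, σ ⊆ G → ∀ t ∈ τ, ∃ H ∈ L, (G ∪ τ).erase t ⊆ H) : FC (gen L) σ τ where
  down := gen_down L
  disj := hd
  nσ := h1
  nτ := h2
  new _ := fun ⟨G, hG, h⟩ h' => h3 G hG (h'.trans h)
  link _ := fun ⟨G, hG, h⟩ h' t ht => by
    obtain ⟨H, hH, e⟩ := h4 G hG (h'.trans h) t ht
    exact ⟨H, hH, (Finset.erase_subset_erase t (Finset.union_subset_union_left h)).trans e⟩

theorem gen_flip {L L' : Set (Finset V)} {σ τ : Finset V} (h : FC (gen L) σ τ)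
    (h1 : ∀ G', G' ∈ L' ↔ (G' ∈ L ∧ ¬ σ ⊆ G') ∨ ∃ G ∈ L, σ ⊆ G ∧ ∃ s ∈ σ, G' = (G ∪ τ).erase s) :
    flip (gen L) σ τ = gen L' := by
  have hd := Finset.disjoint_left.1 h.disj
  ext F
  constructor
  · rintro ⟨a, b⟩
    obtain ⟨s, hs, hs'⟩ := Finset.not_subset.1 a
    rcases b with ⟨G, hG, b⟩ | ⟨b, c⟩
    · by_cases e : σ ⊆ G
      · exact ⟨_, (h1 _).2 (Or.inr ⟨G, hG, e, s, hs, rfl⟩), fun v hv => Finset.mem_erase.2
          ⟨fun e' => hs' (e' ▸ hv), Finset.mem_union_left _ (b hv)⟩⟩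
      · exact ⟨G, (h1 _).2 (Or.inl ⟨hG, e⟩), b⟩
    · obtain ⟨t, ht⟩ := h.nτ
      obtain ⟨G, hG, e⟩ := c t ht
      refine ⟨_, (h1 _).2 (Or.inr ⟨G, hG, fun v hv => e (Finset.mem_erase.2
        ⟨fun e' => hd hv (e' ▸ ht), Finset.mem_union_right _ hv⟩), s, hs, rfl⟩), fun v hv =>
        Finset.mem_erase.2 ⟨fun e' => hs' (e' ▸ hv), ?_⟩⟩
      by_cases e' : v = t
      · exact Finset.mem_union_right _ (e' ▸ ht)
      · exact Finset.mem_union_left _ (e (Finset.mem_erase.2 ⟨e', Finset.mem_union_left _ hv⟩))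
  · rintro ⟨G', hG', e⟩
    refine h.symm.down G' ?_ F e
    rcases (h1 _).1 hG' with ⟨a, b⟩ | ⟨G, hG, a, s, hs, rfl⟩
    · exact ⟨b, Or.inl ⟨G', a, subset_rfl⟩⟩
    · refine ⟨fun b => by simpa using b hs, Or.inr ⟨fun t ht => Finset.mem_erase.2
        ⟨fun e' => hd hs (e' ▸ ht), Finset.mem_union_right _ ht⟩, fun t ht =>
        h.down _ (h.link G ⟨G, hG, subset_rfl⟩ a t ht) _ (Finset.erase_subset_erase t ?_)⟩⟩
      exact Finset.union_subset (Finset.erase_subset _ _) (a.trans Finset.subset_union_left)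

end Abstract

/-- The bit of a vertex. -/
def code : MV → ℕ
  | Sum.inl i => i
  | Sum.inr (Sum.inl i) => 6 + i
  | Sum.inr (Sum.inr (Sum.inl i)) => 12 + i
  | Sum.inr (Sum.inr (Sum.inr (Sum.inl i))) => 15 + i
  | Sum.inr (Sum.inr (Sum.inr (Sum.inr _))) => 18

theorem code_lt : ∀ v, code v < 19 := by decide

theorem code_inj : ∀ v w, code v = code w → v = w := by
  rintro (i | i | i | i | i) (j | j | j | j | j) h <;> simp only [code] at h <;>
    first | rfl | omega | (congr; omega)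

theorem code_surj : ∀ i < 19, ∃ v, code v = i := by decide +kernel

/-- The set with a given mask. -/
def dec (n : ℕ) : Finset MV := Finset.univ.filter fun v => n.testBit (code v)

theorem mem_dec {n : ℕ} {v : MV} : v ∈ dec n ↔ n.testBit (code v) := by simp [dec]

def sub (a b : ℕ) : Bool := Nat.beq ((a &&& 524287) &&& b) (a &&& 524287)

theorem tb_mask (i : ℕ) : Nat.testBit 524287 i = decide (i < 19) :=
  Nat.testBit_two_pow_sub_one 19 i

theorem sub_iff {a b : ℕ} : sub a b = true ↔ dec a ⊆ dec b := by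
  rw [sub, Nat.beq_eq]
  constructor
  · intro h v hv
    have := congrArg (fun n => Nat.testBit n (code v)) h
    simp only [Nat.testBit_and, tb_mask, mem_dec.1 hv, code_lt v, decide_true, Bool.and_self,
      Bool.true_and] at this
    exact mem_dec.2 this
  · intro h
    refine Nat.eq_of_testBit_eq fun i => ?_
    simp only [Nat.testBit_and, tb_mask]
    by_cases hi : i < 19
    · obtain ⟨v, rfl⟩ := code_surj i hi
      by_cases ha : a.testBit (code v)
      · simp [ha, hi, mem_dec.1 (h (mem_dec.2 ha))]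
      · simp [ha]
    · simp [hi]

def clr (n t : ℕ) : ℕ := n &&& (524287 ^^^ 2 ^ t)

theorem dec_clr (n : ℕ) (w : MV) : dec (clr n (code w)) = (dec n).erase w := by
  ext v
  rw [Finset.mem_erase, mem_dec, mem_dec, clr, Nat.testBit_and, Nat.testBit_xor, tb_mask,
    Nat.testBit_two_pow]
  by_cases e : v = w
  · simp [e, code_lt]
  · have : code w ≠ code v := fun h => e (code_inj _ _ h).symm
    simp [e, code_lt, this]

theorem dec_or (a b : ℕ) : dec (a ||| b) = dec a ∪ dec b := by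
  ext v
  simp [mem_dec, Nat.testBit_or]

/-- The complex generated by a list of masks. -/
def dn (L : List ℕ) : Set (Finset MV) := gen {T | ∃ n ∈ L, dec n = T}

theorem mem_dn {L : List ℕ} {T : Finset MV} : T ∈ dn L ↔ ∃ n ∈ L, T ⊆ dec n :=
  ⟨fun ⟨_, ⟨n, hn, rfl⟩, h⟩ => ⟨n, hn, h⟩, fun ⟨n, hn, h⟩ => ⟨_, ⟨n, hn, rfl⟩, h⟩⟩

def bits (n : ℕ) : List ℕ := (List.range 19).filter fun t => n.testBit t

theorem mem_bits {n t : ℕ} : t ∈ bits n ↔ ∃ v ∈ dec n, code v = t := by
  simp only [bits, List.mem_filter, List.mem_range]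
  constructor
  · rintro ⟨h1, h2⟩
    obtain ⟨v, rfl⟩ := code_surj t h1
    exact ⟨v, mem_dec.2 h2, rfl⟩
  · rintro ⟨v, hv, rfl⟩
    exact ⟨code_lt v, mem_dec.1 hv⟩

def ins (x : ℕ) (L : List ℕ) : List ℕ := bif L.any (Nat.beq x) then L else x :: L

theorem mem_ins {x y : ℕ} {L : List ℕ} : y ∈ ins x L ↔ y = x ∨ y ∈ L := by
  unfold ins
  cases h : L.any (Nat.beq x)
  · simp
  · simp only [List.any_eq_true, Nat.beq_eq] at h
    obtain ⟨z, hz, rfl⟩ := h
    simp only [cond_true]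
    exact ⟨Or.inr, fun h => h.elim (fun e => e ▸ hz) id⟩

def dd (L : List ℕ) : List ℕ := L.foldr ins []

theorem mem_dd {y : ℕ} {L : List ℕ} : y ∈ dd L ↔ y ∈ L := by
  induction L with
  | nil => simp [dd]
  | cons a L ih => rw [dd, List.foldr_cons, mem_ins, List.mem_cons, ← ih, dd]

def step (L : List ℕ) (σ τ : ℕ) : List ℕ :=
  dd ((L.filter fun G => sub σ G).flatMap fun G => (bits σ).map fun s => clr (G ||| τ) s) ++
    L.filter fun G => !sub σ G

def ok (L : List ℕ) (σ τ : ℕ) : Bool :=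
  Nat.beq (σ &&& τ) 0 && σ.testBit 18 && !sub τ 0 && (L.all fun G => !sub τ G) &&
    L.all fun G => !sub σ G || (bits τ).all fun t => L.any fun H => sub (clr (G ||| τ) t) H

theorem ok_fc {L : List ℕ} {σ τ : ℕ} (h : ok L σ τ = true) :
    FC (dn L) (dec σ) (dec τ) ∧ mz ∈ dec σ := by
  simp only [ok, Bool.and_eq_true, Nat.beq_eq, List.all_eq_true, Bool.or_eq_true,
    List.any_eq_true, Bool.not_eq_true', ← Bool.not_eq_true, sub_iff] at h
  obtain ⟨⟨⟨⟨h1, h2⟩, h3⟩, h4⟩, h5⟩ := h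
  have hz : mz ∈ dec σ := mem_dec.2 h2
  refine ⟨gen_fc ?_ ⟨_, hz⟩ ?_ ?_ ?_, hz⟩
  · refine Finset.disjoint_left.2 fun v a b => ?_
    have := congrArg (fun n => Nat.testBit n (code v)) h1
    simp [Nat.testBit_and, mem_dec.1 a, mem_dec.1 b] at this
  · obtain ⟨v, hv, -⟩ := Finset.not_subset.1 h3
    exact ⟨v, hv⟩
  · rintro _ ⟨G, hG, rfl⟩
    exact h4 G hG
  · rintro _ ⟨G, hG, rfl⟩ a t ht
    obtain ⟨H, hH, e⟩ := (h5 G hG).resolve_left (not_not.2 a) _ (mem_bits.2 ⟨t, ht, rfl⟩)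
    rw [dec_clr, dec_or] at e
    exact ⟨_, ⟨H, hH, rfl⟩, e⟩

theorem step_eq {L : List ℕ} {σ τ : ℕ} (h : FC (dn L) (dec σ) (dec τ)) :
    flip (dn L) (dec σ) (dec τ) = dn (step L σ τ) := by
  refine gen_flip h fun G' => ?_
  simp only [step, List.mem_append, mem_dd, List.mem_flatMap, List.mem_filter, List.mem_map,
    Bool.not_eq_true', ← Bool.not_eq_true, sub_iff, mem_ofPred_eq]
  constructor
  · rintro ⟨n, ⟨G, ⟨hG, a⟩, s, hs, rfl⟩ | ⟨a, b⟩, rfl⟩
    · obtain ⟨v, hv, rfl⟩ := mem_bits.1 hs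
      exact Or.inr ⟨_, ⟨G, hG, rfl⟩, a, v, hv, by rw [dec_clr, dec_or]⟩
    · exact Or.inl ⟨⟨n, a, rfl⟩, b⟩
  · rintro (⟨⟨n, a, rfl⟩, b⟩ | ⟨_, ⟨G, hG, rfl⟩, a, v, hv, rfl⟩)
    · exact ⟨n, Or.inr ⟨a, b⟩, rfl⟩
    · exact ⟨_, Or.inl ⟨G, ⟨hG, a⟩, _, mem_bits.2 ⟨v, hv, rfl⟩, rfl⟩, by rw [dec_clr, dec_or]⟩

def chk : List (ℕ × ℕ) → List ℕ → List ℕ → Bool
  | [], L, E => (L.all fun a => E.any (sub a)) && E.all fun a => L.any (sub a)
  | x :: r, L, E => ok L x.1 x.2 && chk r (step L x.1 x.2) E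

theorem chk_ri : ∀ (r : List (ℕ × ℕ)) (L E : List ℕ), chk r L E = true →
    RI (dn L) (dn E) {T | mz ∉ T}
  | [], L, E, h => by
    simp only [chk, Bool.and_eq_true, List.all_eq_true, List.any_eq_true, sub_iff] at h
    have : dn E = dn L := by
      ext T
      rw [mem_dn, mem_dn]
      constructor
      · rintro ⟨n, hn, e⟩
        obtain ⟨k, hk, e'⟩ := h.2 n hn
        exact ⟨k, hk, e.trans e'⟩
      · rintro ⟨n, hn, e⟩
        obtain ⟨k, hk, e'⟩ := h.1 n hn
        exact ⟨k, hk, e.trans e'⟩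
    rw [this]
    exact RI.refl (gen_down _) _
  | x :: r, L, E, h => by
    simp only [chk, Bool.and_eq_true] at h
    obtain ⟨h1, hz⟩ := ok_fc h.1
    have h2 := h1.ri (Γ := {T | mz ∉ T}) fun F hF a => hF (a hz)
    rw [step_eq h1] at h2
    exact h2.trans (chk_ri r _ E h.2)

def sq : List (ℕ × ℕ) :=
  [(282657,128), (274465,64), (286768,512), (278576,4608), (274444,1024), (274528,2048),
   (266401,256), (278561,8320), (286736,520), (286728,516), (274433,66), (274440,1040),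
   (266400,16640), (282625,130), (270369,192), (278688,8448), (266369,258), (274434,68),
   (278544,4616), (266264,1536), (262531,65536), (282656,768), (278529,8322), (282626,132),
   (278530,8324), (266768,1056), (266370,260), (278536,4612), (262530,65540), (263704,32768),
   (266248,1540), (327942,131072), (266256,9248), (263696,32800), (266368,16644), (274464,3072),
   (275456,2052), (282624,772), (262529,65568), (266528,513), (270337,194), (274432,2116),
   (278560,8960), (270880,272), (271392,2064), (266497,514), (270338,196), (266496,518),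
   (262305,65600), (266336,2049), (263688,32772), (266305,2050), (263216,34816), (262241,67584),
   (262704,33024), (270624,144), (266304,2054), (268320,1025), (262944,32769), (271376,2056),
   (268289,1026), (268288,1030), (295440,264), (279040,8452), (262273,65602), (262209,67586),
   (262672,8456), (272416,80), (266244,1538), (262560,65552), (262433,98304), (262432,98320),
   (271360,2060), (263684,32770), (263184,34824), (270848,268), (266272,1537), (295169,66048),
   (327952,32896), (270608,136), (264195,66560), (272400,72), (263176,34820), (262664,33028),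
   (264216,32832), (266240,1539), (278528,8580), (270368,208), (270592,140), (272384,76),
   (270352,200), (262274,65604), (263172,34818), (262304,65616), (262240,67600),
   (262192,100352), (262688,33793), (262210,67588), (262416,32904), (264260,65544),
   (262660,33026), (327712,34817), (262168,32960), (264208,98368), (327686,133120),
   (329730,132096), (265218,163840), (262160,98496), (270336,204), (295938,131584),
   (262176,35841), (264194,163844), (262212,65672), (264193,99328), (262276,65800),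
   (294913,67072), (262401,66050), (327940,131080), (262145,67074), (262150,164096),
   (262404,163848), (294916,133128), (294914,131840), (296968,131136), (262148,198664),
   (327944,131200), (264200,196672), (263170,197120), (327688,131264), (262146,197376),
   (262408,163968), (262152,164032)]

def lR : List ℕ :=
  [8387, 12355, 4483, 24707, 20611, 4867, 5635, 7171, 6211, 8390, 12358, 4486, 24710, 20614,
   4870, 5638, 7174, 6214, 8396, 8588, 8972, 5644, 25100, 21004, 11276, 13324, 10316, 8408,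
   8600, 8984, 5656, 25112, 21016, 11288, 13336, 10328, 8432, 8624, 9008, 5680, 25136, 21040,
   11312, 13360, 10352, 8417, 12385, 4513, 24737, 20641, 4897, 5665, 7201, 6241, 24964, 20868,
   25348, 21252, 15364, 14404, 24992, 20896, 25376, 21280, 15392, 14432, 65731, 65734, 65740,
   32984, 196808, 164040, 65776, 98512, 65761, 65923, 65926, 65932, 33176, 197000, 164232,
   65968, 98704, 65953, 66307, 99073, 33542, 197378, 164610, 33548, 33560, 33584, 33569, 67075,
   99841, 34310, 198146, 165378, 34316, 34328, 34352, 34337, 68611, 101377, 35846, 199682,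
   166914, 35852, 35864, 35888, 35873, 67651, 67654, 67660, 34904, 198728, 165960, 67696,
   100432, 67681, 196870, 164102, 196876, 164108, 98608, 98593, 198662, 165894, 198668, 165900,
   100400, 100385]

def l0 : List ℕ :=
  [274435, 286723, 282627, 274438, 286726, 282630, 274444, 286732, 282636, 274456, 286744,
   282648, 274480, 286768, 282672, 274465, 286753, 282657]

def l1 : List ℕ :=
  [360640, 458944, 426176, 360832, 459136, 426368, 361216, 459520, 426752, 361984, 460288,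
   427520, 363520, 461824, 429056, 362560, 460864, 428096]

theorem chk_true : chk sq l0 (lR ++ l1) = true := by decide +kernel

def dX (n : ℕ) : Finset (Fin 6) := Finset.univ.filter fun i => n.testBit i
def dY (n : ℕ) : Finset (Fin 6) := Finset.univ.filter fun i => n.testBit (6 + i)
def dC (n : ℕ) : Finset (Fin 3) := Finset.univ.filter fun i => n.testBit (12 + i)
def dD (n : ℕ) : Finset (Fin 3) := Finset.univ.filter fun i => n.testBit (15 + i)

theorem mX_dec (n : ℕ) : mX (dec n) = dX n := by ext i; simp [mX, dX, mem_dec, code]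
theorem mY_dec (n : ℕ) : mY (dec n) = dY n := by ext i; simp [mY, dY, mem_dec, code]
theorem mC_dec (n : ℕ) : mC (dec n) = dC n := by ext i; simp [mC, dC, mem_dec, code]
theorem mD_dec (n : ℕ) : mD (dec n) = dD n := by ext i; simp [mD, dD, mem_dec, code]
theorem mz_dec (n : ℕ) : mz ∉ dec n ↔ n.testBit 18 = false := by simp [mem_dec, mz, code]

theorem pre_mono {α : Type} [Fintype α] (e : α → MV) {S T : Finset MV} (h : S ⊆ T) :
    pre e S ⊆ pre e T := fun _ ha => mem_pre.2 (h (mem_pre.1 ha))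

theorem c6_mono {S T : Finset (Fin 6)} (h : S ⊆ T) (hT : T ∈ C6) : S ∈ C6 :=
  let ⟨k, hk⟩ := hT
  ⟨k, h.trans hk⟩

theorem ne_univ_mono {S T : Finset (Fin 3)} (h : S ⊆ T) (hT : T ≠ Finset.univ) :
    S ≠ Finset.univ := fun e => hT (Finset.univ_subset_iff.1 (e ▸ h))

theorem down0 : Down G0 := fun _ ⟨a, b, c, d, e⟩ _ h =>
  ⟨c6_mono (pre_mono _ h) a, Finset.subset_empty.1 (b ▸ pre_mono _ h),
    ne_univ_mono (pre_mono _ h) c, Finset.subset_empty.1 (d ▸ pre_mono _ h), fun z => e (h z)⟩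

theorem down1 : Down G1 := fun _ ⟨a, b, c, d, e⟩ _ h =>
  ⟨Finset.subset_empty.1 (a ▸ pre_mono _ h), c6_mono (pre_mono _ h) b,
    Finset.subset_empty.1 (c ▸ pre_mono _ h), ne_univ_mono (pre_mono _ h) d, fun z => e (h z)⟩

abbrev c6 (T : Finset (Fin 6)) : Prop := ∃ k : Fin 6, T ⊆ {k, k + 1}

abbrev g0 (n : ℕ) : Prop :=
  c6 (dX n) ∧ dY n = ∅ ∧ dC n ≠ Finset.univ ∧ dD n = ∅ ∧ n.testBit 18 = false

abbrev g1 (n : ℕ) : Prop :=
  dX n = ∅ ∧ c6 (dY n) ∧ dC n = ∅ ∧ dD n ≠ Finset.univ ∧ n.testBit 18 = false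

theorem g0_iff (n : ℕ) : dec n ∈ G0 ↔ g0 n := by
  simp only [G0, mem_ofPred_eq, mX_dec, mY_dec, mC_dec, mD_dec, mz_dec]
  rfl

theorem g1_iff (n : ℕ) : dec n ∈ G1 ↔ g1 n := by
  simp only [G1, mem_ofPred_eq, mX_dec, mY_dec, mC_dec, mD_dec, mz_dec]
  rfl

theorem sub_of_parts {S T : Finset MV} (h1 : mX (S.erase mz) ⊆ mX T)
    (h2 : mY (S.erase mz) ⊆ mY T) (h3 : mC (S.erase mz) ⊆ mC T) (h4 : mD (S.erase mz) ⊆ mD T)
    (h5 : mz ∈ T) : S ⊆ T := by
  intro v hv
  rcases v with i | i | i | i | i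
  · simpa [mX] using @h1 i (by simpa [mX, mz] using hv)
  · simpa [mY] using @h2 i (by simpa [mY, mz] using hv)
  · simpa [mC] using @h3 i (by simpa [mC, mz] using hv)
  · simpa [mD] using @h4 i (by simpa [mD, mz] using hv)
  · exact h5

theorem sub_erase {T : Finset (Fin 3)} (h : T ≠ Finset.univ) :
    ∃ c, T ⊆ Finset.univ.erase c := by
  by_contra hc
  refine h (Finset.eq_univ_iff_forall.2 fun c => by_contra fun e => hc ⟨c, fun v hv => ?_⟩)
  exact Finset.mem_erase.2 ⟨fun e' => e (e' ▸ hv), Finset.mem_univ v⟩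

theorem fact0 : (∀ n ∈ l0, g0 (clr n 18)) ∧ ∀ (k : Fin 6) (c : Fin 3), ∃ n ∈ l0,
    {k, k + 1} ⊆ dX n ∧ Finset.univ.erase c ⊆ dC n ∧ n.testBit 18 = true := by decide +kernel

theorem fact1 : (∀ n ∈ l1, g1 (clr n 18)) ∧ ∀ (k : Fin 6) (c : Fin 3), ∃ n ∈ l1,
    {k, k + 1} ⊆ dY n ∧ Finset.univ.erase c ⊆ dD n ∧ n.testBit 18 = true := by decide +kernel

theorem cone0 : cone mz G0 = dn l0 := by
  ext T
  rw [mem_dn]
  constructor
  · rintro ⟨⟨k, a⟩, b, c, d, -⟩
    obtain ⟨h, c⟩ := sub_erase c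
    obtain ⟨n, hn, e1, e2, e3⟩ := fact0.2 k h
    exact ⟨n, hn, sub_of_parts (mX_dec n ▸ a.trans e1) (b ▸ Finset.empty_subset _)
      (mC_dec n ▸ c.trans e2) (d ▸ Finset.empty_subset _) (mem_dec.2 e3)⟩
  · rintro ⟨n, hn, h⟩
    refine (down0.cone mz) (dec n) ?_ T h
    have := (g0_iff _).2 (fact0.1 n hn)
    rwa [show 18 = code mz from rfl, dec_clr] at this

theorem cone1 : cone mz G1 = dn l1 := by
  ext T
  rw [mem_dn]
  constructor
  · rintro ⟨b, ⟨k, a⟩, d, c, -⟩
    obtain ⟨h, c⟩ := sub_erase c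
    obtain ⟨n, hn, e1, e2, e3⟩ := fact1.2 k h
    exact ⟨n, hn, sub_of_parts (b ▸ Finset.empty_subset _) (mY_dec n ▸ a.trans e1)
      (d ▸ Finset.empty_subset _) (mD_dec n ▸ c.trans e2) (mem_dec.2 e3)⟩
  · rintro ⟨n, hn, h⟩
    refine (down1.cone mz) (dec n) ?_ T h
    have := (g1_iff _).2 (fact1.1 n hn)
    rwa [show 18 = code mz from rfl, dec_clr] at this

theorem dn_append (A B : List ℕ) : dn (A ++ B) = dn A ∪ dn B := by
  ext T
  simp only [mem_union, mem_dn, List.mem_append, or_and_right, exists_or]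

theorem factR : ∀ n ∈ lR, c6 (dX n) ∧ c6 (dY n) ∧ dC n ≠ Finset.univ ∧ dD n ≠ Finset.univ ∧
    n.testBit 18 = false ∧ (dec n).card = 5 ∧ dX n ≠ ∅ ∧ dY n ≠ ∅ := by decide +kernel

abbrev aP (T : Finset (Fin 6)) : Prop := T ⊆ {5, 0} ∨ T ⊆ {0, 1} ∨ T ⊆ {1, 2}

abbrev aN (T : Finset (Fin 6)) : Prop := T ⊆ {2, 3} ∨ T ⊆ {3, 4} ∨ T ⊆ {4, 5}

abbrev QQ (n g : ℕ) : Prop :=
  (dX g = ∅ → g1 g ∨ dX n = {2} ∨ dX n = {5}) ∧
  (dY g = ∅ → g0 g ∨ dY n = {2} ∨ dY n = {5}) ∧
  (g0 g → (aP (dX n) ∧ (dY n = {0} ∨ dY n = {1})) ∨ (aN (dX n) ∧ (dY n = {3} ∨ dY n = {4}))) ∧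
  (g1 g → (aP (dY n) ∧ (dX n = {3} ∨ dX n = {4})) ∨ (aN (dY n) ∧ (dX n = {0} ∨ dX n = {1})))

set_option synthInstance.maxSize 4000 in
theorem factQ : ∀ n ∈ lR, QQ n n ∧ ∀ t ∈ bits n, QQ n (clr n t) := by decide +kernel

end Model

open Model in
theorem modelStmt : ModelStmt := by
  refine ⟨dn lR, gen_down _, fun T hT => ?_, ?_, fun T hT hc => ?_⟩
  · obtain ⟨n, hn, h⟩ := mem_dn.1 hT
    obtain ⟨a, b, c, d, e, f, -⟩ := factR n hn
    rw [← mX_dec] at a
    rw [← mY_dec] at b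
    rw [← mC_dec] at c
    rw [← mD_dec] at d
    rw [← mz_dec] at e
    exact ⟨c6_mono (pre_mono _ h) a, c6_mono (pre_mono _ h) b, ne_univ_mono (pre_mono _ h) c,
      ne_univ_mono (pre_mono _ h) d, fun z => e (h z), f ▸ Finset.card_le_card h⟩
  · rw [cone0, cone1, ← dn_append]
    exact chk_ri _ _ _ chk_true
  · obtain ⟨n, hn, h⟩ := mem_dn.1 hT
    obtain ⟨-, -, -, -, -, f, a, b⟩ := factR n hn
    obtain rfl : T = dec n := Finset.eq_of_subset_of_card_le h (by omega)
    refine ⟨mX_dec n ▸ a, mY_dec n ▸ b, fun G hG hG4 => ?_⟩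
    obtain ⟨g, rfl, hq⟩ : ∃ g, G = dec g ∧ QQ n g := by
      by_cases e : dec n ⊆ G
      · exact ⟨n, Finset.Subset.antisymm hG e, (factQ n hn).1⟩
      · obtain ⟨v, hv, hv'⟩ := Finset.not_subset.1 e
        refine ⟨clr n (code v), ?_, (factQ n hn).2 _ (mem_bits.2 ⟨v, hv, rfl⟩)⟩
        rw [dec_clr]
        refine Finset.eq_of_subset_of_card_le
          (fun w hw => Finset.mem_erase.2 ⟨fun e' => hv' (e' ▸ hw), hG hw⟩) ?_
        rw [Finset.card_erase_of_mem hv]
        omega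
    rw [g0_iff, g1_iff, mX_dec, mY_dec, mX_dec, mY_dec]
    exact hq

end Pool.Agent.MP_6a6613_co
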