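import Pool.Agent.MP_6a6613_co.Stmts

/-! Page flips of the cyclic open book. -/

namespace Pool.Agent.MP_6a6613_co

open Set

namespace Page

variable {m : ℕ}

theorem mem_sh {I : Finset (ZMod m)} {x : ZMod m} : x ∈ sh I ↔ x - 1 ∈ I := by
  simp only [sh, Finset.mem_image]
  constructor
  · rintro ⟨y, hy, rfl⟩
    simpa using hy
  · exact fun h => ⟨_, h, by simp⟩

theorem succ_mem_sh {I : Finset (ZMod m)} {x : ZMod m} : x + 1 ∈ sh I ↔ x ∈ I := by
  simp [mem_sh]

theorem card_sh (I : Finset (ZMod m)) : (sh I).card = I.card :=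
  Finset.card_image_of_injective _ (add_left_injective 1)

theorem sep_sh {I : Finset (ZMod m)} (h : Sep I) : Sep (sh I) := fun x hx hx' => by
  rw [mem_sh] at hx
  rw [succ_mem_sh] at hx'
  exact h _ hx (by simpa using hx')

theorem sh_inj {I Y : Finset (ZMod m)} (h : sh I = sh Y) : I = Y := by
  ext x
  rw [← succ_mem_sh, h, succ_mem_sh]

theorem sh_surj (X : Finset (ZMod m)) : ∃ Y, sh Y = X :=
  ⟨X.image (· - 1), by
    ext x
    simp only [mem_sh, Finset.mem_image]
    constructor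
    · rintro ⟨y, hy, e⟩
      rwa [← sub_left_inj.1 e]
    · exact fun h => ⟨x, h, rfl⟩⟩

theorem sep_of_sh {I : Finset (ZMod m)} (h : Sep (sh I)) : Sep I := fun _ hx hx' =>
  h _ (succ_mem_sh.2 hx) (succ_mem_sh.2 hx')

theorem disj_sh {I : Finset (ZMod m)} (h : Sep I) : Disjoint I (sh I) :=
  Finset.disjoint_left.2 fun x hx hx' => h _ (mem_sh.1 hx') (by simpa using hx)

theorem sum_sh (I : Finset (ZMod m)) : ∑ x ∈ sh I, x = ∑ x ∈ I, x + (I.card : ZMod m) := by
  rw [sh, Finset.sum_image fun _ _ _ _ e => add_left_injective 1 e, Finset.sum_add_distrib]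
  simp

theorem gap {a b : ℕ} (h : (a : ZMod m) = (b : ZMod m)) : a = b ∨ a + m ≤ b ∨ b + m ≤ a := by
  rw [ZMod.natCast_eq_natCast_iff] at h
  rcases lt_trichotomy a b with e | e | e
  · have := Nat.le_of_dvd (by omega) ((Nat.modEq_iff_dvd' e.le).1 h)
    omega
  · exact Or.inl e
  · have := Nat.le_of_dvd (by omega) ((Nat.modEq_iff_dvd' e.le).1 h.symm)
    omega

/-- The sum of the representatives. -/
def lam (X : Finset (ZMod m)) : ℕ := ∑ x ∈ X, x.val

/-- The page of faces all of whose maximal separated subsets are alive. -/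
def Pa (m J : ℕ) (Al : Finset (ZMod m) → Prop) : Set (Finset (ZMod m)) :=
  {F | F ∈ Aj m J ∧ ∀ X ⊆ F, Sep X → X.card = J → Al X}

theorem Pa.down (J : ℕ) (Al : Finset (ZMod m) → Prop) : Down (Pa m J Al) := fun _ hF _ hG =>
  ⟨fun I hI => hF.1 I (hI.trans hG), fun I hI => hF.2 I (hI.trans hG)⟩

theorem Pa.congr {J : ℕ} {Al Al' : Finset (ZMod m) → Prop}
    (h : ∀ X, Sep X → X.card = J → (Al X ↔ Al' X)) : Pa m J Al = Pa m J Al' := by
  ext F
  exact ⟨fun a => ⟨a.1, fun X h1 h2 h3 => (h X h2 h3).1 (a.2 X h1 h2 h3)⟩,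
    fun a => ⟨a.1, fun X h1 h2 h3 => (h X h2 h3).2 (a.2 X h1 h2 h3)⟩⟩

variable [NeZero m]

theorem cast_lam (X : Finset (ZMod m)) : (lam X : ZMod m) = ∑ x ∈ X, x := by
  simp [lam]

theorem val_succ (hm : 1 < m) (x : ZMod m) :
    (x + 1 ≠ 0 ∧ (x + 1).val = x.val + 1) ∨ (x + 1 = 0 ∧ x.val + 1 = m) := by
  have : Fact (1 < m) := ⟨hm⟩
  have h1 : (x + 1).val = (x.val + 1) % m := by rw [ZMod.val_add, ZMod.val_one]
  have h2 := ZMod.val_lt x
  rcases Nat.lt_or_ge (x.val + 1) m with e | e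
  · rw [Nat.mod_eq_of_lt e] at h1
    refine Or.inl ⟨fun a => ?_, h1⟩
    rw [a, ZMod.val_zero] at h1
    omega
  · have e' : x.val + 1 = m := by omega
    rw [e', Nat.mod_self, ZMod.val_eq_zero] at h1
    exact Or.inr ⟨h1, e'⟩

theorem val_succ_le (hm : 1 < m) (x : ZMod m) : (x + 1).val ≤ x.val + 1 := by
  rcases val_succ hm x with ⟨-, e⟩ | ⟨e, -⟩
  · exact e.le
  · simp [e]

omit [NeZero m] in
theorem succ_ne (hm : 1 < m) (x : ZMod m) : x + 1 ≠ x := by
  have : Fact (1 < m) := ⟨hm⟩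
  simp

theorem lam_sh (hm : 1 < m) (I : Finset (ZMod m)) :
    ((0 : ZMod m) ∉ sh I ∧ lam (sh I) = lam I + I.card) ∨
      ((0 : ZMod m) ∈ sh I ∧ lam (sh I) + m = lam I + I.card) := by
  have h1 : lam (sh I) = ∑ x ∈ I, (x + 1).val := by
    rw [lam, sh, Finset.sum_image fun _ _ _ _ e => add_left_injective 1 e]
  have h2 : lam I + I.card = ∑ x ∈ I, (x.val + 1) := by
    rw [Finset.sum_add_distrib, lam]; simp
  have h3 : ∀ x : ZMod m, x ≠ 0 - 1 → (x + 1).val = x.val + 1 := fun x hx => by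
    rcases val_succ hm x with ⟨-, e⟩ | ⟨e, -⟩
    · exact e
    · exact absurd (eq_sub_of_add_eq e) hx
  rw [h1, h2]
  by_cases h : (0 : ZMod m) ∈ sh I
  · refine Or.inr ⟨h, ?_⟩
    rw [mem_sh] at h
    rw [← Finset.add_sum_erase _ _ h, ← Finset.add_sum_erase _ _ h,
      Finset.sum_congr rfl fun x hx => h3 x (Finset.ne_of_mem_erase hx)]
    rcases val_succ hm (0 - 1) with ⟨e, -⟩ | ⟨e, e'⟩
    · simp at e
    · rw [e, e', ZMod.val_zero]; omega
  · refine Or.inl ⟨h, Finset.sum_congr rfl fun x hx => h3 x fun e => h (mem_sh.2 (e ▸ hx))⟩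

theorem lam_le (X : Finset (ZMod m)) : lam X ≤ X.card * m := by
  rw [lam, ← smul_eq_mul]
  exact Finset.sum_le_card_nsmul _ _ _ fun x _ => (ZMod.val_lt x).le

omit [NeZero m] in
theorem card_le_lam {X : Finset (ZMod m)} (h : (0 : ZMod m) ∉ X) : X.card ≤ lam X := by
  rw [lam, Finset.card_eq_sum_ones]
  exact Finset.sum_le_sum fun x hx => Nat.one_le_iff_ne_zero.2 fun e =>
    h ((ZMod.val_eq_zero x).1 e ▸ hx)

/-- Separated subsets of a union of pairs. -/
theorem pair (hm : 1 < m) {I X : Finset (ZMod m)} (hX : Sep X) (h : X ⊆ I ∪ sh I) :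
    X.card ≤ I.card ∧ (X.card = I.card → ∃ r : ℕ, r ≤ I.card ∧
      ∑ x ∈ X, x = ∑ x ∈ I, x + (r : ZMod m) ∧ lam X ≤ lam I + r ∧ (r = 0 → X = I) ∧
      (r = I.card → X = sh I)) := by
  let φ : ZMod m → ZMod m := fun x => if x ∈ I then x else x - 1
  have inj : Set.InjOn φ X := fun x hx y hy e => by
    simp only [φ] at e
    split_ifs at e with a b b
    · exact e
    · exact absurd (by rw [e]; simpa using hy) (hX x hx)
    · exact absurd (by rw [← e]; simpa using hx) (hX y hy)
    · exact sub_left_inj.1 e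
  have sub : X.image φ ⊆ I := fun y hy => by
    obtain ⟨x, hx, rfl⟩ := Finset.mem_image.1 hy
    simp only [φ]
    split_ifs with a
    · exact a
    · exact mem_sh.1 ((Finset.mem_union.1 (h hx)).resolve_left a)
  have hc := Finset.card_image_of_injOn inj
  refine ⟨hc ▸ Finset.card_le_card sub, fun e => ?_⟩
  have eq : X.image φ = I := Finset.eq_of_subset_of_card_le sub (by omega)
  refine ⟨(X.filter (· ∉ I)).card, e ▸ Finset.card_filter_le _ _, ?_, ?_, fun a => ?_, fun a => ?_⟩
  · have : ∑ x ∈ I, x = ∑ x ∈ X, φ x := by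
      rw [← Finset.sum_image (f := fun x => x) inj, eq]
    rw [this, Finset.card_filter, Nat.cast_sum, ← Finset.sum_add_distrib]
    refine Finset.sum_congr rfl fun x _ => ?_
    simp only [φ]
    split_ifs <;> simp
  · have : lam I = ∑ x ∈ X, (φ x).val := by
      rw [← Finset.sum_image (f := fun x : ZMod m => x.val) inj, eq, lam]
    rw [this, Finset.card_filter, ← Finset.sum_add_distrib, lam]
    refine Finset.sum_le_sum fun x _ => ?_
    simp only [φ]
    split_ifs
    · simp
    · simpa using val_succ_le hm (x - 1)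
  · rw [Finset.card_eq_zero, Finset.filter_eq_empty_iff] at a
    exact Finset.eq_of_subset_of_card_le (fun x hx => not_not.1 (a hx)) e.ge
  · rw [← e, Finset.card_filter_eq_iff] at a
    exact Finset.eq_of_subset_of_card_le
      (fun x hx => (Finset.mem_union.1 (h hx)).resolve_left (a x hx)) (by rw [card_sh, e])

theorem mem_Aj (hm : 1 < m) {I F : Finset (ZMod m)} (h : F ⊆ I ∪ sh I) : F ∈ Aj m I.card :=
  fun _ h1 h2 => (pair hm h2 (h1.trans h)).1

/-- One flip of a page. -/
theorem flip_page (hm : 1 < m) {J : ℕ} (hJ : 0 < J) {Al : Finset (ZMod m) → Prop}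
    {I : Finset (ZMod m)} (hs : Sep I) (hc : I.card = J) (h1 : ¬ Al (sh I))
    (h2 : ∀ x, x + 1 ∈ I → x ∉ I → ¬ Al (insert x (I.erase (x + 1))))
    (h2' : ∀ y ∈ sh I, ¬ Al (insert (y + 1) ((sh I).erase y)))
    (h3 : ∀ X ⊆ I ∪ sh I, Sep X → X.card = J → X ≠ sh I → Al X) :
    FC (Pa m J Al) I (sh I) ∧
      flip (Pa m J Al) I (sh I) = Pa m J (fun X => X = sh I ∨ (Al X ∧ X ≠ I)) ∧
      {F | ∃ G ∈ Pa m J Al, I ⊆ G ∧ F ⊆ G ∪ sh I} = {F | F ⊆ I ∪ sh I} := by
  have hd := disj_sh hs
  have hd' := Finset.disjoint_left.1 hd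
  have hss := sep_sh hs
  have hcs : (sh I).card = J := by rw [card_sh, hc]
  have nτ : (sh I).Nonempty := Finset.card_pos.1 (by omega)
  have L1 : ∀ F ∈ Pa m J Al, I ⊆ F → F ⊆ I ∪ sh I := fun F hF hI x hx => by
    by_contra a
    rw [Finset.mem_union, not_or, mem_sh] at a
    have b : ∀ y ∈ I, y + 1 ≠ x := fun y hy e => a.2 (by rw [← e]; simpa using hy)
    by_cases c : x + 1 ∈ I
    · refine h2 x c a.1 (hF.2 _ (Finset.insert_subset hx ((Finset.erase_subset _ _).trans hI))
        (fun y hy hy' => ?_) ?_)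
      · rcases Finset.mem_insert.1 hy with rfl | hy
        · rcases Finset.mem_insert.1 hy' with e | e
          · exact succ_ne hm _ e
          · simp at e
        · rcases Finset.mem_insert.1 hy' with e | e
          · exact b y (Finset.mem_of_mem_erase hy) e
          · exact hs y (Finset.mem_of_mem_erase hy) (Finset.mem_of_mem_erase e)
      · rw [Finset.card_insert_of_notMem fun e => a.1 (Finset.mem_of_mem_erase e),
          Finset.card_erase_add_one c, hc]
    · have := hF.1 (insert x I) (Finset.insert_subset hx hI) fun y hy hy' => by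
        rcases Finset.mem_insert.1 hy with rfl | hy
        · rcases Finset.mem_insert.1 hy' with e | e
          · exact succ_ne hm _ e
          · exact c e
        · rcases Finset.mem_insert.1 hy' with e | e
          · exact b y hy e
          · exact hs y hy e
      rw [Finset.card_insert_of_notMem a.1] at this
      omega
  have L2 : ∀ F ∈ Pa m J (fun X => X = sh I ∨ (Al X ∧ X ≠ I)), sh I ⊆ F → F ⊆ I ∪ sh I :=
    fun F hF hI x hx => by
    by_contra a
    rw [Finset.mem_union, not_or, ← succ_mem_sh] at a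
    obtain ⟨w, rfl⟩ : ∃ w, x = w + 1 := ⟨x - 1, by simp⟩
    by_cases c : w ∈ sh I
    · have := hF.2 (insert (w + 1) ((sh I).erase w))
        (Finset.insert_subset hx ((Finset.erase_subset _ _).trans hI)) (fun y hy hy' => ?_) ?_
      · rcases this with e | e
        · exact a.2 (e ▸ Finset.mem_insert_self _ _)
        · exact h2' w c e.1
      · rcases Finset.mem_insert.1 hy with rfl | hy
        · rcases Finset.mem_insert.1 hy' with e | e
          · exact succ_ne hm _ e
          · exact a.1 (Finset.mem_of_mem_erase e)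
        · rcases Finset.mem_insert.1 hy' with e | e
          · exact Finset.ne_of_mem_erase hy (add_left_injective 1 e)
          · exact hss y (Finset.mem_of_mem_erase hy) (Finset.mem_of_mem_erase e)
      · rw [Finset.card_insert_of_notMem fun e => a.2 (Finset.mem_of_mem_erase e),
          Finset.card_erase_add_one c, hcs]
    · have := hF.1 (insert (w + 1) (sh I)) (Finset.insert_subset hx hI) fun y hy hy' => by
        rcases Finset.mem_insert.1 hy with rfl | hy
        · rcases Finset.mem_insert.1 hy' with e | e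
          · exact succ_ne hm _ e
          · exact a.1 e
        · rcases Finset.mem_insert.1 hy' with e | e
          · exact c (add_left_injective 1 e ▸ hy)
          · exact hss y hy e
      rw [Finset.card_insert_of_notMem a.2] at this
      omega
  have L3 : ∀ t ∈ sh I, ∀ F ⊆ (I ∪ sh I).erase t, F ∈ Pa m J Al := fun t ht F hF =>
    ⟨hc ▸ mem_Aj hm (hF.trans (Finset.erase_subset _ _)), fun X a b c =>
      h3 X (a.trans (hF.trans (Finset.erase_subset _ _))) b c fun e =>
        Finset.notMem_erase t _ (hF (a (e ▸ ht)))⟩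
  have L4 : ∀ t ∈ sh I, ∀ F : Finset (ZMod m), I ⊆ (F ∪ I).erase t := fun t ht F x hx =>
    Finset.mem_erase.2 ⟨fun e => hd' hx (e ▸ ht), Finset.mem_union_right _ hx⟩
  refine ⟨⟨Pa.down J Al, hd, Finset.card_pos.1 (by omega), nτ,
    fun F hF a => h1 (hF.2 _ a hss hcs), fun F hF a t ht => L3 t ht _
      (Finset.erase_subset_erase t (Finset.union_subset (L1 F hF a) Finset.subset_union_right))⟩,
    ?_, ?_⟩
  · ext F
    constructor
    · rintro ⟨a, b | ⟨b, c⟩⟩
      · exact ⟨b.1, fun X a1 a2 a3 => Or.inr ⟨b.2 X a1 a2 a3, fun e => a (e ▸ a1)⟩⟩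
      · obtain ⟨t, ht⟩ := nτ
        have d := L1 _ (c t ht) (L4 t ht F)
        have d' : F ⊆ I ∪ sh I := fun x hx => by
          by_cases e : x = t
          · exact Finset.mem_union_right _ (e ▸ ht)
          · exact d (Finset.mem_erase.2 ⟨e, Finset.mem_union_left _ hx⟩)
        refine ⟨hc ▸ mem_Aj hm d', fun X a1 a2 a3 => ?_⟩
        by_cases e : X = sh I
        · exact Or.inl e
        · exact Or.inr ⟨h3 X (a1.trans d') a2 a3 e, fun e => a (e ▸ a1)⟩
    · intro hF
      refine ⟨fun a => ?_, ?_⟩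
      · rcases hF.2 I a hs hc with e | e
        · obtain ⟨t, ht⟩ := nτ
          exact hd' (e ▸ ht) ht
        · exact e.2 rfl
      · by_cases a : sh I ⊆ F
        · exact Or.inr ⟨a, fun t ht => L3 t ht _ (Finset.erase_subset_erase t
            (Finset.union_subset (L2 F hF a) Finset.subset_union_left))⟩
        · exact Or.inl ⟨hF.1, fun X a1 a2 a3 =>
            ((hF.2 X a1 a2 a3).resolve_left fun e => a (e ▸ a1)).1⟩
  · ext F
    constructor
    · rintro ⟨G, hG, a, b⟩
      exact b.trans (Finset.union_subset (L1 G hG a) Finset.subset_union_right)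
    · intro hF
      obtain ⟨t, ht⟩ := nτ
      exact ⟨I, L3 t ht _ fun x hx => Finset.mem_erase.2
        ⟨fun e => hd' hx (e ▸ ht), Finset.mem_union_left _ hx⟩, Finset.Subset.refl _, hF⟩

/-- `s` is an admissible lift of the sum of `X`. -/
def Lf (X : Finset (ZMod m)) (s : ℕ) : Prop := lam X ≤ s ∧ (s : ZMod m) = ∑ x ∈ X, x

/-- The events at time `t`. -/
def Ev (J t : ℕ) (X : Finset (ZMod m)) : Prop := Sep X ∧ X.card = J ∧ Lf X t

/-- The alive sets at time `t` after the events in `E`. -/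
def Al (J t : ℕ) (E : Finset (Finset (ZMod m))) (X : Finset (ZMod m)) : Prop :=
  (∃ s, t < s ∧ s < t + J ∧ Lf X s) ∨ (Lf X t ∧ X ∉ E) ∨ (∃ Y ∈ E, X = sh Y) ∨
    ((0 : ZMod m) ∈ X ∧ t + J ≤ lam X)

omit [NeZero m] in
theorem Ev.sum {J t : ℕ} {Y : Finset (ZMod m)} (h : Ev J t Y) :
    ∑ x ∈ sh Y, x = ((t + J : ℕ) : ZMod m) := by
  rw [sum_sh, ← h.2.2.2, h.2.1, Nat.cast_add]

omit [NeZero m] in
/-- Sets whose sum is outside the window are not alive. -/
theorem not_al {J t : ℕ} {E : Finset (Finset (ZMod m))} (hJ : 0 < J) (hE : ∀ Y ∈ E, Ev J t Y)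
    {X : Finset (ZMod m)} {u : ℕ} (hu : (u : ZMod m) = ∑ x ∈ X, x) (h1 : t + J < u)
    (h2 : u < t + m) (h3 : (0 : ZMod m) ∈ X → lam X < t + J) : ¬ Al J t E X := by
  rintro (⟨s, a, b, c⟩ | ⟨a, -⟩ | ⟨Y, hY, rfl⟩ | ⟨a, b⟩)
  · have := gap (hu.trans c.2.symm); omega
  · have := gap (hu.trans a.2.symm); omega
  · have := gap (hu.trans (hE Y hY).sum); omega
  · have := h3 a; omega

theorem step {J t : ℕ} (hJ : 0 < J) (hm : 4 * J ≤ m) {E : Finset (Finset (ZMod m))}
    (hE : ∀ Y ∈ E, Ev J t Y) {I : Finset (ZMod m)} (hI : Ev J t I) (hn : I ∉ E) :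
    FC (Pa m J (Al J t E)) I (sh I) ∧
      flip (Pa m J (Al J t E)) I (sh I) = Pa m J (Al J t (insert I E)) ∧
      {F | ∃ G ∈ Pa m J (Al J t E), I ⊆ G ∧ F ⊆ G ∪ sh I} = {F | F ⊆ I ∪ sh I} := by
  have hm1 : 1 < m := by omega
  obtain ⟨hs, hc, hl, hsum⟩ := id hI
  have hsh := lam_sh hm1 I
  have := flip_page hm1 hJ (Al := Al J t E) hs hc ?_ ?_ ?_ ?_
  · refine ⟨this.1, this.2.1.trans (Pa.congr fun X _ _ => ?_), this.2.2⟩
    constructor
    · rintro (rfl | ⟨a | a | ⟨Y, hY, a⟩ | a, b⟩)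
      · exact Or.inr (Or.inr (Or.inl ⟨I, Finset.mem_insert_self _ _, rfl⟩))
      · exact Or.inl a
      · exact Or.inr (Or.inl ⟨a.1, fun e => (Finset.mem_insert.1 e).elim b a.2⟩)
      · exact Or.inr (Or.inr (Or.inl ⟨Y, Finset.mem_insert_of_mem hY, a⟩))
      · exact Or.inr (Or.inr (Or.inr a))
    · rintro (⟨s, a, b, c⟩ | a | ⟨Y, hY, a⟩ | a)
      · refine Or.inr ⟨Or.inl ⟨s, a, b, c⟩, ?_⟩
        rintro rfl
        have := gap (hsum.trans c.2.symm); omega
      · exact Or.inr ⟨Or.inr (Or.inl ⟨a.1, fun e => a.2 (Finset.mem_insert_of_mem e)⟩),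
          fun e => a.2 (e ▸ Finset.mem_insert_self _ _)⟩
      · rcases Finset.mem_insert.1 hY with rfl | hY
        · exact Or.inl a
        · refine Or.inr ⟨Or.inr (Or.inr (Or.inl ⟨Y, hY, a⟩)), fun e => ?_⟩
          have b := (hE Y hY).sum
          rw [← a, e] at b
          have := gap (hsum.trans b); omega
      · refine Or.inr ⟨Or.inr (Or.inr (Or.inr a)), ?_⟩
        rintro rfl
        omega
  · rintro (⟨s, a, b, c⟩ | ⟨a, -⟩ | ⟨Y, hY, e⟩ | ⟨a, b⟩)
    · have := gap (c.2.trans hI.sum); omega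
    · have := gap (a.2.trans hI.sum); omega
    · exact hn (sh_inj e ▸ hY)
    · rcases hsh with ⟨c, -⟩ | ⟨-, c⟩
      · exact c a
      · omega
  · intro x hx hx'
    have hx'' : x ∉ I.erase (x + 1) := fun e => hx' (Finset.mem_of_mem_erase e)
    refine not_al (u := t + (m - 1)) hJ hE ?_ (by omega) (by omega) fun a => ?_
    · rw [Finset.sum_insert hx'', Nat.cast_add, hsum, ← Finset.add_sum_erase _ _ hx,
        Nat.cast_sub hm1.le]
      simp only [CharP.cast_eq_zero, Nat.cast_one]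
      ring
    · have e1 : lam (insert x (I.erase (x + 1))) = x.val + lam (I.erase (x + 1)) :=
        Finset.sum_insert hx''
      have e2 : lam I = (x + 1).val + lam (I.erase (x + 1)) :=
        (Finset.add_sum_erase _ _ hx).symm
      rcases val_succ hm1 x with ⟨-, e⟩ | ⟨e, -⟩
      · omega
      · rw [← e] at a
        rcases Finset.mem_insert.1 a with b | b
        · exact absurd b (succ_ne hm1 x)
        · simp at b
  · intro y hy
    have hy' : y + 1 ∉ (sh I).erase y := fun e => sep_sh hs y hy (Finset.mem_of_mem_erase e)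
    refine not_al (u := t + J + 1) hJ hE ?_ (by omega) (by omega) fun a => ?_
    · rw [Finset.sum_insert hy', Nat.cast_add, ← hI.sum, ← Finset.add_sum_erase _ _ hy]
      simp only [Nat.cast_one]
      ring
    · have e1 : lam (insert (y + 1) ((sh I).erase y)) = (y + 1).val + lam ((sh I).erase y) :=
        Finset.sum_insert hy'
      have e2 : lam (sh I) = y.val + lam ((sh I).erase y) :=
        (Finset.add_sum_erase _ _ hy).symm
      rcases val_succ hm1 y with ⟨e, e'⟩ | ⟨e, e'⟩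
      · rcases hsh with ⟨c, -⟩ | ⟨-, c⟩
        · rcases Finset.mem_insert.1 a with b | b
          · exact absurd b.symm e
          · exact absurd (Finset.mem_of_mem_erase b) c
        · omega
      · rw [e, ZMod.val_zero] at e1
        rw [e]
        rcases hsh with ⟨-, c⟩ | ⟨-, c⟩ <;> omega
  · intro X h1 h2 h3 h4
    obtain ⟨r, a, b, c, d, e⟩ := (pair hm1 h2 h1).2 (h3.trans hc.symm)
    by_cases f : r = 0
    · rw [d f]
      exact Or.inr (Or.inl ⟨hI.2.2, hn⟩)
    · have : r ≠ I.card := fun g => h4 (e g)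
      exact Or.inl ⟨t + r, by omega, by omega, by omega, by rw [b, Nat.cast_add, hsum]⟩

open Classical in
/-- All events at time `t`. -/
noncomputable def EvS (m : ℕ) [NeZero m] (J t : ℕ) : Finset (Finset (ZMod m)) :=
  Finset.univ.filter (Ev J t)

theorem mem_EvS {J t : ℕ} {X : Finset (ZMod m)} : X ∈ EvS m J t ↔ Ev J t X := by
  simp [EvS]

theorem next {J t : ℕ} (hJ : 0 < J) (hm : 4 * J ≤ m) :
    Pa m J (Al J t (EvS m J t)) = Pa m J (Al J (t + 1) ∅) := by
  have hm1 : 1 < m := by omega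
  refine Pa.congr fun X hs hc => ?_
  have key : ∀ s, t < s → s ≤ t + J → Lf X s → Al J (t + 1) ∅ X := fun s a b c => by
    by_cases e : s = t + 1
    · exact Or.inr (Or.inl ⟨e ▸ c, by simp⟩)
    · exact Or.inl ⟨s, by omega, by omega, c⟩
  have key' : ∀ s, t < s → s ≤ t + J → Lf X s → Al J t (EvS m J t) X := fun s a b c => by
    by_cases e : s = t + J
    · obtain ⟨Y, rfl⟩ := sh_surj X
      rw [card_sh] at hc
      have h1 : (t : ZMod m) = ∑ x ∈ Y, x := by
        have := c.2
        rw [e, sum_sh, hc, Nat.cast_add] at this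
        exact add_right_cancel this
      by_cases f : lam Y ≤ t
      · exact Or.inr (Or.inr (Or.inl ⟨Y, mem_EvS.2 ⟨sep_of_sh hs, hc, f, h1⟩, rfl⟩))
      · have h2 := c.1
        have h3 := gap (h1.trans (cast_lam Y).symm)
        rcases lam_sh hm1 Y with ⟨-, g⟩ | ⟨g, g'⟩
        · omega
        · exact Or.inr (Or.inr (Or.inr ⟨g, by omega⟩))
    · exact Or.inl ⟨s, a, by omega, c⟩
  constructor
  · rintro (⟨s, a, b, c⟩ | ⟨a, b⟩ | ⟨Y, hY, rfl⟩ | ⟨a, b⟩)
    · exact key s a b.le c
    · exact absurd (mem_EvS.2 ⟨hs, hc, a⟩) b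
    · rw [mem_EvS] at hY
      refine key (t + J) (by omega) le_rfl ⟨?_, hY.sum.symm⟩
      have := hY.2.2.1
      have := hY.2.1
      rcases lam_sh hm1 Y with ⟨-, g⟩ | ⟨-, g⟩ <;> omega
    · by_cases e : lam X = t + J
      · exact key (t + J) (by omega) le_rfl ⟨e.le, e ▸ cast_lam X⟩
      · exact Or.inr (Or.inr (Or.inr ⟨a, by omega⟩))
  · rintro (⟨s, a, b, c⟩ | ⟨a, -⟩ | ⟨Y, hY, -⟩ | ⟨a, b⟩)
    · exact key' s (by omega) (by omega) c
    · exact key' (t + 1) (by omega) (by omega) a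
    · simp at hY
    · exact Or.inr (Or.inr (Or.inr ⟨a, by omega⟩))

theorem start {J : ℕ} (hJ : 0 < J) : Pa m J (Al J 0 ∅) = Q0 m J := by
  refine Pa.congr (Al' := fun X => (0 : ZMod m) ∈ X) fun X _ hc => ?_
  constructor
  · intro h
    by_contra h0
    have := card_le_lam h0
    rcases h with ⟨s, a, b, c⟩ | ⟨a, -⟩ | ⟨Y, hY, -⟩ | ⟨a, -⟩
    · have := c.1; omega
    · have := a.1; omega
    · simp at hY
    · exact h0 a
  · intro h
    by_cases a : 0 + J ≤ lam X
    · exact Or.inr (Or.inr (Or.inr ⟨h, a⟩))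
    · by_cases b : lam X = 0
      · exact Or.inr (Or.inl ⟨⟨b.le, b ▸ cast_lam X⟩, by simp⟩)
      · exact Or.inl ⟨lam X, by omega, by omega, le_rfl, cast_lam X⟩

theorem late {J t : ℕ} (hJ : 0 < J) (ht : J * m ≤ t) : Pa m J (Al J t ∅) = Pg m J t := by
  refine Pa.congr (Al' := Win t (t + J)) fun X _ hc => ?_
  have hl := lam_le X
  rw [hc] at hl
  constructor
  · rintro (⟨s, a, b, c⟩ | ⟨a, -⟩ | ⟨Y, hY, -⟩ | ⟨-, a⟩)
    · exact ⟨s, a.le, b, c.2⟩
    · exact ⟨t, le_rfl, by omega, a.2⟩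
    · simp at hY
    · omega
  · rintro ⟨s, a, b, c⟩
    by_cases e : s = t
    · exact Or.inr (Or.inl ⟨⟨by omega, e ▸ c⟩, by simp⟩)
    · exact Or.inl ⟨s, by omega, b, by omega, c⟩

omit [NeZero m] in
theorem win_per (a b k : ℕ) (X : Finset (ZMod m)) : Win (a + k * m) (b + k * m) X ↔ Win a b X := by
  constructor
  · rintro ⟨s, h1, h2, h3⟩
    obtain ⟨u, rfl⟩ : ∃ u, s = u + k * m := ⟨s - k * m, by omega⟩
    exact ⟨u, by omega, by omega, by simpa using h3⟩
  · rintro ⟨s, h1, h2, h3⟩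
    exact ⟨s + k * m, by omega, by omega, by simpa using h3⟩

omit [NeZero m] in
theorem pg_per (J t k : ℕ) : Pg m J (t + k * m) = Pg m J t := by
  refine Pa.congr (Al := Win (t + k * m) (t + k * m + J)) (Al' := Win t (t + J)) fun X _ _ => ?_
  rw [add_right_comm, win_per]

omit [NeZero m] in
theorem om_per (J a b k : ℕ) : Om m J (a + k * m) (b + k * m) = Om m J a b := by
  simp only [Om, pg_per, win_per]

theorem ri_stage {j : ℕ} (hm : 4 * (j + 1) ≤ m) (t : ℕ) :
    RI (Q0 m (j + 1)) (Pa m (j + 1) (Al (j + 1) t ∅)) (Aj m j) := by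
  induction t with
  | zero =>
    rw [← start (Nat.succ_pos j)]
    exact RI.refl (Pa.down _ _) _
  | succ t ih =>
    have : ∀ E : Finset (Finset (ZMod m)), (∀ Y ∈ E, Ev (j + 1) t Y) →
        RI (Q0 m (j + 1)) (Pa m (j + 1) (Al (j + 1) t E)) (Aj m j) := by
      intro E
      induction E using Finset.induction_on with
      | empty => exact fun _ => ih
      | insert I E hn ih' =>
        intro h
        have hE : ∀ Y ∈ E, Ev (j + 1) t Y := fun Y hY => h Y (Finset.mem_insert_of_mem hY)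
        have hI := h I (Finset.mem_insert_self _ _)
        obtain ⟨a, b, -⟩ := step (Nat.succ_pos j) hm hE hI hn
        rw [← b]
        refine (ih' hE).trans (a.ri fun F hF c => ?_)
        have := hF I c hI.1
        have := hI.2.1
        omega
    rw [← next (Nat.succ_pos j) hm]
    exact this _ fun Y hY => mem_EvS.1 hY

omit [NeZero m] in
theorem down_sub (P : Finset (ZMod m) → Prop) : Down {F | ∃ I, P I ∧ F ⊆ I ∪ sh I} :=
  fun _ ⟨I, a, b⟩ _ hG => ⟨I, a, hG.trans b⟩

theorem arc_stage (h : ArcStmt) {J : ℕ} (hJ : 0 < J) (hm : 4 * J ≤ m) {a : ℕ} (ha : J * m ≤ a)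
    (b : ℕ) (hab : a ≤ b) (hb : b + J ≤ a + m) : Arc (Pg m J a) (Om m J a b) (Pg m J b) := by
  have hm1 : 1 < m := by omega
  induction b, hab using Nat.le_induction with
  | base =>
    have : Om m J a a = Pg m J a := by
      refine Set.union_eq_left.2 ?_
      rintro F ⟨I, -, -, ⟨s, h1, h2, -⟩, -⟩
      omega
    rw [this]
    exact (h _).1 _ (Pa.down _ _)
  | succ t hat ih =>
    have : ∀ E : Finset (Finset (ZMod m)), (∀ Y ∈ E, Ev J t Y) →
        Arc (Pg m J a) (Om m J a t ∪ {F | ∃ I, I ∈ E ∧ F ⊆ I ∪ sh I}) (Pa m J (Al J t E)) := by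
      intro E
      induction E using Finset.induction_on with
      | empty =>
        intro _
        rw [late hJ (ha.trans hat)]
        simpa using ih (by omega)
      | insert I E hn ih' =>
        intro h'
        have hE : ∀ Y ∈ E, Ev J t Y := fun Y hY => h' Y (Finset.mem_insert_of_mem hY)
        have hI := h' I (Finset.mem_insert_self _ _)
        obtain ⟨a1, a2, a3⟩ := step hJ hm hE hI hn
        have hcs : (sh I).card = J := by rw [card_sh, hI.2.1]
        have := (h _).2 _ _ _ _ _ (ih' hE) a1 ?_ ?_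
        · rw [a2, a3] at this
          convert this using 1
          ext F
          simp only [Set.mem_union, Set.mem_ofPred_eq, Finset.mem_insert]
          constructor
          · rintro (c | ⟨Y, rfl | c, d⟩)
            · exact Or.inl (Or.inl c)
            · exact Or.inr d
            · exact Or.inl (Or.inr ⟨Y, c, d⟩)
          · rintro ((c | ⟨Y, c, d⟩) | d)
            · exact Or.inl c
            · exact Or.inr ⟨Y, Or.inr c, d⟩
            · exact Or.inr ⟨I, Or.inl rfl, d⟩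
        · refine (Down.union (Pa.down _ _) ?_).union (down_sub _)
          exact fun _ ⟨I, a, b, c, d⟩ _ hG => ⟨I, a, b, c, hG.trans d⟩
        · rintro F ((hF | ⟨Y, -, c, ⟨s, d1, d2, d3⟩, e⟩) | ⟨Y, c, e⟩) f
          · obtain ⟨s, d1, d2, d3⟩ := hF.2 _ f (sep_sh hI.1) hcs
            have := gap (d3.trans hI.sum); omega
          · obtain ⟨r, g1, g2, -⟩ := (pair hm1 (sep_sh hI.1) (f.trans e)).2 (hcs.trans c.symm)
            rw [hI.sum, ← d3, ← Nat.cast_add] at g2
            have := gap g2; omega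
          · have hY := hE Y c
            obtain ⟨r, g1, g2, -, -, g3⟩ :=
              (pair hm1 (sep_sh hI.1) (f.trans e)).2 (hcs.trans hY.2.1.symm)
            rw [hI.sum, ← hY.2.2.2, ← Nat.cast_add] at g2
            have := gap g2
            have := hY.2.1
            exact hn (sh_inj (g3 (by omega)) ▸ c)
    have := this _ fun Y hY => mem_EvS.1 hY
    rw [next hJ hm, late hJ (by omega)] at this
    convert this using 1
    ext F
    simp only [Om, Set.mem_union, Set.mem_ofPred_eq, mem_EvS]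
    constructor
    · rintro (c | ⟨Y, c1, c2, ⟨s, d1, d2, d3⟩, e⟩)
      · exact Or.inl (Or.inl c)
      · by_cases f : s = t
        · have := lam_le Y
          rw [c2] at this
          exact Or.inr ⟨Y, ⟨c1, c2, by omega, f ▸ d3⟩, e⟩
        · exact Or.inl (Or.inr ⟨Y, c1, c2, ⟨s, d1, by omega, d3⟩, e⟩)
    · rintro ((c | ⟨Y, c1, c2, ⟨s, d1, d2, d3⟩, e⟩) | ⟨Y, c, e⟩)
      · exact Or.inl c
      · exact Or.inr ⟨Y, c1, c2, ⟨s, d1, by omega, d3⟩, e⟩
      · exact Or.inr ⟨Y, c.1, c.2.1, ⟨t, hat, by omega, c.2.2.2⟩, e⟩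

end Page

theorem pageStmt (h : ArcStmt) : PageStmt := by
  intro m _ j hm
  refine ⟨fun t => ?_, fun a b hab hb => ?_⟩
  · rw [← Page.pg_per (j + 1) t (j + 1), ← Page.late (Nat.succ_pos j) (Nat.le_add_left _ _)]
    exact Page.ri_stage hm _
  · rw [← Page.pg_per (j + 1) a (j + 1), ← Page.pg_per (j + 1) b (j + 1),
      ← Page.om_per (j + 1) a b (j + 1)]
    exact Page.arc_stage h (J := j + 1) (by omega) hm (Nat.le_add_left _ _) _ (by omega) (by omega)

end Pool.Agent.MP_6a6613_co
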