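import Pool.Agent.MP_6a6613_co.Chain

/-! The schedule of the regions and the final count. -/

namespace Pool.Agent.MP_6a6613_co

open Set

/-- The levels before the pair `(a, b)` is treated. -/
def lv (K a b : ℕ) : Fin K × Bool → ℕ := fun i =>
  if i.2 then (if (i.1 : ℕ) < b then a - i.1 else a - 1 - i.1)
  else if (i.1 : ℕ) < a then 0 else if (i.1 : ℕ) = a then a - b else i.1

/-- The active triangles before the pair `(a, b)` is treated. -/
def ac (K a b : ℕ) : (Fin K × Fin K) × Bool → Bool := fun q =>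
  decide (((q.1.2 : ℕ) < q.1.1 ∧ ((q.1.1 : ℕ) < a ∨ ((q.1.1 : ℕ) = a ∧ (q.1.2 : ℕ) < b))) ↔
    q.2 = true)

theorem lv_le {K a : ℕ} (b : ℕ) (ha : a ≤ K) (i : Fin K × Bool) : lv K a b i ≤ K := by
  have := i.1.2
  unfold lv
  split_ifs <;> omega

theorem lv_next (K a : ℕ) : lv K a a = lv K (a + 1) 0 := by
  funext i
  unfold lv
  split_ifs <;> omega

theorem ac_next (K a : ℕ) : ac K a a = ac K (a + 1) 0 := by
  funext q
  unfold ac
  rw [decide_eq_decide]
  refine iff_congr ?_ Iff.rfl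
  omega

theorem lv_step {K : ℕ} (a b : Fin K) (h : (b : ℕ) < a) :
    up2 (a, false) (b, true) (lv K a b) (a - 1 - b) (a - 1 - b + 1) = lv K a (b + 1) := by
  funext ⟨i, c⟩
  cases c
  · simp only [up2, lv, Prod.mk.injEq, Fin.ext_iff, and_true, Bool.false_eq_true, and_false,
      if_false]
    split_ifs <;> omega
  · simp only [up2, lv, Prod.mk.injEq, Fin.ext_iff, and_true, Bool.true_eq_false, and_false,
      if_false, if_true]
    split_ifs <;> omega

theorem ac_step {K : ℕ} (a b : Fin K) (h : (b : ℕ) < a) :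
    up2 ((a, b), false) ((a, b), true) (ac K a b) false true = ac K a (b + 1) := by
  funext ⟨⟨i, k⟩, c⟩
  by_cases e : (i, k) = (a, b)
  · obtain ⟨rfl, rfl⟩ := Prod.mk.inj e
    cases c <;> simp [up2, ac, h]
  · have e' : ¬ ((i : ℕ) = a ∧ (k : ℕ) = b) := by simpa [Fin.ext_iff] using e
    simp only [up2, Prod.mk.injEq (i, k), e, false_and, if_false, ac]
    rw [decide_eq_decide]
    refine iff_congr ?_ Iff.rfl
    omega

variable {W : Type} [Fintype W] [DecidableEq W] {K M : ℕ} {A : ℕ → Set (Finset W)}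
  {τ : ℕ → Finset W → Finset (Fin 6)} {pos : ℕ → Finset W → ℤ}

theorem BD.chain (hS : SphStmt) (hM : ModelStmt) (bd : BD K M A τ pos) (L : ℕ → ℤ)
    (h0 : ∀ j, 0 ≤ L j) (hL : ∀ j < K, 4 * ((j : ℤ) + 1) * L j + 3 * (j + 1) ≤ M) (a : ℕ)
    (ha : a ≤ K) :
    Good A (lv K a 0) (ac K a 0) (∑ i ∈ Finset.range a, ∑ k ∈ Finset.range i, L k) := by
  induction a with
  | zero => exact bd.init hS (lv_le 0 ha) _
  | succ a ih =>
    have inner : ∀ b ≤ a, Good A (lv K a b) (ac K a b)
        (∑ i ∈ Finset.range a, ∑ k ∈ Finset.range i, L k + ∑ k ∈ Finset.range b, L (a - 1 - k)) := by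
      intro b hb
      induction b with
      | zero => simpa using ih (by omega)
      | succ b ih' =>
        have := bd.step hM (lv_le b (by omega)) (ih' (by omega)) (a := ⟨a, ha⟩)
          (b := ⟨b, by omega⟩) (p := (⟨a, ha⟩, ⟨b, by omega⟩)) (j := a - 1 - b)
          (by simp only [lv]; simp; omega) (by simp [lv]) (by simp [ac]) (by simp [ac])
          (h0 (a - 1 - b)) (hL _ (by omega))
        have e1 := lv_step (K := K) ⟨a, ha⟩ ⟨b, by omega⟩ hb
        have e2 := ac_step (K := K) ⟨a, ha⟩ ⟨b, by omega⟩ hb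
        rw [e1, e2] at this
        rwa [Finset.sum_range_succ, ← add_assoc]
    have := inner a le_rfl
    rwa [lv_next, ac_next, Finset.sum_range_reflect, ← Finset.sum_range_succ
      (fun i => ∑ k ∈ Finset.range i, L k)] at this

theorem count : ∃ k : ℕ, 1 ≤ k ∧ (499 * k ^ 2 : ℤ) ≤
    ∑ i ∈ Finset.range (2 * k), ∑ j ∈ Finset.range i, ((k / (2 * (j + 1)) : ℕ) : ℤ) := by
  obtain ⟨k, hk, hk1⟩ := ((Real.tendsto_sum_range_one_div_nat_succ_atTop.eventually_ge_atTop
    1000).and (Filter.eventually_ge_atTop 1)).exists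
  refine ⟨k, hk1, ?_⟩
  have h1 : (499 * k : ℤ) ≤ ∑ j ∈ Finset.range k, ((k / (2 * (j + 1)) : ℕ) : ℤ) := by
    have a : ∀ j ∈ Finset.range k, (k : ℝ) / 2 * (1 / ((j : ℝ) + 1)) - 1 ≤
        ((k / (2 * (j + 1)) : ℕ) : ℝ) := fun j _ => by
      have b : (k : ℝ) < (2 * (j + 1)) * (((k / (2 * (j + 1)) : ℕ) : ℝ) + 1) := by
        exact_mod_cast Nat.lt_mul_div_succ k (show 0 < 2 * (j + 1) by omega)
      have c : (k : ℝ) / 2 * (1 / ((j : ℝ) + 1)) = k / (2 * (j + 1)) := by field_simp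
      rw [c, sub_le_iff_le_add, div_le_iff₀ (by positivity)]
      linarith
    have b := Finset.sum_le_sum a
    rw [Finset.sum_sub_distrib, ← Finset.mul_sum] at b
    simp only [Finset.sum_const, Finset.card_range, nsmul_eq_mul, mul_one] at b
    have c : (0 : ℝ) ≤ k := Nat.cast_nonneg k
    have d : (499 * k : ℝ) ≤ ∑ j ∈ Finset.range k, ((k / (2 * (j + 1)) : ℕ) : ℝ) := by nlinarith
    exact_mod_cast d
  calc (499 * k ^ 2 : ℤ) = ∑ _i ∈ Finset.Ico k (2 * k), (499 * k : ℤ) := by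
        simp [show 2 * k - k = k by omega]; ring
    _ ≤ ∑ i ∈ Finset.Ico k (2 * k), ∑ j ∈ Finset.range i, ((k / (2 * (j + 1)) : ℕ) : ℤ) :=
        Finset.sum_le_sum fun i hi => h1.trans (Finset.sum_le_sum_of_subset_of_nonneg
          (Finset.range_mono (Finset.mem_Ico.1 hi).1) fun _ _ _ => Int.natCast_nonneg _)
    _ ≤ _ := Finset.sum_le_sum_of_subset_of_nonneg (fun i hi => Finset.mem_range.2
          (Finset.mem_Ico.1 hi).2) fun _ _ _ => Finset.sum_nonneg fun _ _ => Int.natCast_nonneg _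

theorem target_of (hF : FinalStmt) (hS : SphStmt) (hB : BDStmt) (hM : ModelStmt) : Target := by
  obtain ⟨k, hk, hc⟩ := count
  have : NeZero (6 * (8 * k)) := ⟨by omega⟩
  obtain ⟨τ, pos, bd⟩ := hB (2 * k) (8 * k) (by omega)
  obtain ⟨U, inv, -⟩ := bd.chain hS hM (fun j => ((k / (2 * (j + 1)) : ℕ) : ℤ))
    (fun _ => Int.natCast_nonneg _) (fun j hj => by
      have a := Nat.mul_div_le k (2 * (j + 1))
      have b : 4 * (j + 1) * (k / (2 * (j + 1))) + 3 * (j + 1) ≤ 8 * k := by nlinarith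
      exact_mod_cast b) (2 * k) le_rfl
  refine inv.final hF ?_ (down_Sig bd.down _ _) ⟨fun i => bd.down _ _ (bd.empty _) _
    fun _ h => by simp [fib] at h, fun q => down_Tri _ _ (empty_Tri _) _
      fun _ h => by simp [tri] at h, by simp, by simp⟩ (by simp [zt, zb])
    (fun F h => ⟨Nat.lt_succ_of_le (card_Sig (fun i => bd.card_le (lv_le 0 le_rfl i)) h),
      h.2.2.1⟩) (le_trans ?_ hc)
  · have := Finset.single_le_sum (f := fun q => if ac (2 * k) (2 * k) 0 q then 2 else 0)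
      (fun _ _ => Nat.zero_le _)
      (Finset.mem_univ (((⟨0, by omega⟩, ⟨0, by omega⟩), false) : (Fin (2 * k) × Fin (2 * k)) × Bool))
    rw [if_pos (by simp [ac])] at this
    unfold dimf
    omega
  · simp only [Fintype.card_sum, Fintype.card_prod, Fintype.card_fin, Fintype.card_bool, ZMod.card]
    have : (1 : ℤ) ≤ k := by exact_mod_cast hk
    push_cast
    nlinarith

end Pool.Agent.MP_6a6613_co
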