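import Pool.Agent.MP_6a6613_co.Basic

/-! Definitions and the statements of the independent pieces. -/

namespace Pool.Agent.MP_6a6613_co

open Set

/-- The faces of the hexagon. -/
def C6 : Set (Finset (Fin 6)) := {T | ∃ k : Fin 6, T ⊆ {k, k + 1}}

/-- Preimage of a finite set. -/
def pre {α V : Type} [Fintype α] [DecidableEq V] (e : α → V) (F : Finset V) : Finset α :=
  Finset.univ.filter fun a => e a ∈ F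

@[simp] theorem mem_pre {α V : Type} [Fintype α] [DecidableEq V] {e : α → V} {F : Finset V}
    {a : α} : a ∈ pre e F ↔ e a ∈ F := by simp [pre]

/-- `Ω` is a pinched cylinder from the page `K0` to the page `K`. -/
def Arc {V : Type} [Fintype V] (K0 Ω K : Set (Finset V)) : Prop :=
  ∃ (Ψ : (V → ℝ) → (V → ℝ) × ℝ) (Ψ' : (V → ℝ) × ℝ → (V → ℝ)) (π π' : (V → ℝ) → (V → ℝ))
    (len : (V → ℝ) → ℝ),
    HH Ψ Ψ' (Cn Ω) {q | q.1 ∈ Cn K0 ∧ 0 ≤ q.2 ∧ q.2 ≤ len q.1} ∧ HH π π' (Cn K) (Cn K0) ∧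
    ContinuousOn len (Cn K0) ∧ (∀ y ∈ Cn K0, 0 ≤ len y) ∧
    (∀ y ∈ Cn K0, ∀ t : ℝ, 0 ≤ t → len (t • y) = t * len y) ∧
    K0 ⊆ Ω ∧ K ⊆ Ω ∧ (∀ y ∈ Cn K0, Ψ y = (y, 0)) ∧ ∀ p ∈ Cn K, Ψ p = (π p, len (π p))

def ArcStmt : Prop :=
  ∀ (V : Type) [Fintype V] [DecidableEq V],
    (∀ K : Set (Finset V), Down K → Arc K K K) ∧
    ∀ (K0 Ω K : Set (Finset V)) (σ τ : Finset V), Arc K0 Ω K → FC K σ τ → Down Ω →
      (∀ F ∈ Ω, ¬ τ ⊆ F) → Arc K0 (Ω ∪ {F | ∃ G ∈ K, σ ⊆ G ∧ F ⊆ G ∪ τ}) (flip K σ τ)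

def BookStmt : Prop :=
  ∀ (V : Type) [Fintype V] [DecidableEq V] (A' : Set (Finset V)) (P Ω : Fin 6 → Set (Finset V)),
    Down A' → (∀ k, Down (P k)) → (∀ k, Down (Ω k)) → (∀ k, Ball (P k) A') →
    (∀ k, Arc (P k) (Ω k) (P (k + 1))) → (∀ k, P k ∩ P (k + 1) ⊆ A') →
    (∀ k, Ω k ∩ Ω (k + 1) ⊆ P (k + 1)) →
    (∀ k l, l ≠ k → l ≠ k + 1 → k ≠ l + 1 → Ω k ∩ Ω l ⊆ A') →
    ∃ (h : (V → ℝ) → (V → ℝ) × (Fin 6 → ℝ)) (g : (V → ℝ) × (Fin 6 → ℝ) → (V → ℝ)),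
      HH h g (Cn (⋃ k, Ω k)) (Cn A' ×ˢ Cn C6) ∧
      ∀ k, ∀ p ∈ Cn (⋃ k, Ω k), (supp p ∈ Ω k ↔ supp (h p).2 ⊆ {k, k + 1})

/-- Join of a family of complexes on copies of `W`. -/
def piC {ι W : Type} [Fintype W] [DecidableEq ι] [DecidableEq W] (K : ι → Set (Finset W)) :
    Set (Finset (ι × W)) := {F | ∀ i, pre (fun w => (i, w)) F ∈ K i}

/-- Join of two complexes. -/
def sumC {V V' : Type} (K : Set (Finset V)) (L : Set (Finset V')) : Set (Finset (V ⊕ V')) :=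
  {F | F.toLeft ∈ K ∧ F.toRight ∈ L}

def SphStmt : Prop :=
  (∀ (ι W : Type) [Fintype ι] [Fintype W] [DecidableEq ι] [DecidableEq W]
    (K : ι → Set (Finset W)) (n : ι → ℕ), (∀ i, Sph (K i) (n i)) → Sph (piC K) (∑ i, n i)) ∧
  (∀ (V V' : Type) [Fintype V] [Fintype V'] (K : Set (Finset V)) (L : Set (Finset V')) (a b : ℕ),
    Sph K a → Sph L b → Sph (sumC K L) (a + b)) ∧
  (∀ (V : Type) [Fintype V], Sph ({∅} : Set (Finset V)) 0) ∧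
  (∀ (V : Type) [Fintype V] (d : ℕ), Fintype.card V = d + 1 →
    Sph {G : Finset V | G ≠ Finset.univ} d) ∧
  ∀ (V : Type) [Fintype V] (A A' : Set (Finset V)) (d : ℕ)
    (h : (V → ℝ) → (V → ℝ) × (Fin 6 → ℝ)) (g : (V → ℝ) × (Fin 6 → ℝ) → (V → ℝ)),
    HH h g (Cn A) (Cn A' ×ˢ Cn C6) → Sph A' d → Sph A (d + 2)

open Classical in
/-- The statement to be proved. -/
def Target : Prop :=
  ∃ d n m : ℕ, 2 ≤ d ∧
    ∃ K : Geometry.SimplicialComplex ℝ (EuclideanSpace ℝ (Fin m)),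
      K.faces.Finite ∧
      K.vertices.ncard = n ∧
      Nonempty (K.space ≃ₜ Metric.sphere (0 : EuclideanSpace ℝ (Fin d)) 1) ∧
      (∀ s ∈ K.facets, s.card = d) ∧
      2 * (n - d) ≤
        (SimpleGraph.fromRel (fun s t : K.facets => (s.1 ∩ t.1).card + 1 = d)).diam

def FinalStmt : Prop :=
  ∀ (V : Type) [Fintype V] [DecidableEq V] (K : Set (Finset V)) (d : ℕ) (Φ : Finset V → ℤ)
    (z0 z1 : V), Down K → 2 ≤ d → Sph K d → {z0} ∈ K → {z1} ∈ K →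
    (∀ F ∈ K, ∀ G ∈ K, F.card = d → G.card = d → (F ∩ G).card + 1 = d → Φ G ≤ Φ F + 1) →
    (∀ F ∈ K, F.card = d → z0 ∈ F → Φ F ≤ 0) →
    (∀ F ∈ K, F.card = d → z1 ∈ F → 2 * (Fintype.card V : ℤ) ≤ Φ F) →
    Target

/-! ### The cyclic complexes -/

/-- Separated subsets of the cycle. -/
def Sep {m : ℕ} (I : Finset (ZMod m)) : Prop := ∀ x ∈ I, x + 1 ∉ I

/-- The boundary of the cyclic `2j`-polytope with `m` vertices. -/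
def Aj (m j : ℕ) : Set (Finset (ZMod m)) := {F | ∀ I ⊆ F, Sep I → I.card ≤ j}

/-- The shift. -/
def sh {m : ℕ} (I : Finset (ZMod m)) : Finset (ZMod m) := I.image (· + 1)

/-- The sum of `I` is congruent to a number in `[a, b)`. -/
def Win {m : ℕ} (a b : ℕ) (I : Finset (ZMod m)) : Prop :=
  ∃ s : ℕ, a ≤ s ∧ s < b ∧ (s : ZMod m) = ∑ x ∈ I, x

/-- The page at time `t`. -/
def Pg (m j t : ℕ) : Set (Finset (ZMod m)) :=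
  {F | F ∈ Aj m j ∧ ∀ I ⊆ F, Sep I → I.card = j → Win t (t + j) I}

/-- The region between the pages at times `a` and `b`. -/
def Om (m j a b : ℕ) : Set (Finset (ZMod m)) :=
  Pg m j a ∪ {F | ∃ I, Sep I ∧ I.card = j ∧ Win a b I ∧ F ⊆ I ∪ sh I}

/-- The cone page. -/
def Q0 (m j : ℕ) : Set (Finset (ZMod m)) :=
  {F | F ∈ Aj m j ∧ ∀ I ⊆ F, Sep I → I.card = j → (0 : ZMod m) ∈ I}

def BallQStmt : Prop :=
  ∀ (m : ℕ) [NeZero m] (j : ℕ), 4 * (j + 1) ≤ m → Ball (Q0 m (j + 1)) (Aj m j)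

def PageStmt : Prop :=
  ∀ (m : ℕ) [NeZero m] (j : ℕ), 4 * (j + 1) ≤ m →
    (∀ t, RI (Q0 m (j + 1)) (Pg m (j + 1) t) (Aj m j)) ∧
    ∀ a b, a ≤ b → b + (j + 1) ≤ a + m →
      Arc (Pg m (j + 1) a) (Om m (j + 1) a b) (Pg m (j + 1) b)

/-- The interface of a nested family of open books. -/
structure BD {W : Type} [Fintype W] [DecidableEq W] (K M : ℕ) (A : ℕ → Set (Finset W))
    (τ : ℕ → Finset W → Finset (Fin 6)) (pos : ℕ → Finset W → ℤ) : Prop where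
  down : ∀ j, Down (A j)
  zero : A 0 = {∅}
  mono : ∀ j, A j ⊆ A (j + 1)
  iso : ∀ j < K, ∃ (h : (W → ℝ) → (W → ℝ) × (Fin 6 → ℝ)) (g : (W → ℝ) × (Fin 6 → ℝ) → (W → ℝ)),
    HH h g (Cn (A (j + 1))) (Cn (A j) ×ˢ Cn C6) ∧
      ∀ p ∈ Cn (A (j + 1)), supp (h p).2 = τ j (supp p)
  tempty : ∀ j < K, ∀ F ∈ A (j + 1), (τ j F = ∅ ↔ F ∈ A j)
  tmono : ∀ j < K, ∀ F ∈ A (j + 1), ∀ G ⊆ F, τ j G ⊆ τ j F
  card : ∀ j < K, ∀ F ∈ A (j + 1), F.card ≤ 2 * j + (τ j F).card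
  lip : ∀ j < K, ∀ F ∈ A (j + 1), ∀ G ∈ A (j + 1), F ∩ G ∉ A j →
    pos j G ≤ pos j F + 2 * (j + 1)
  bnd : ∀ j F, -(M : ℤ) ≤ pos j F ∧ pos j F ≤ M
  v01 : ∀ j < K, ∀ F ∈ A (j + 1), τ j F = {0} ∨ τ j F = {1} → (M : ℤ) - (j + 1) ≤ pos j F
  v34 : ∀ j < K, ∀ F ∈ A (j + 1), τ j F = {3} ∨ τ j F = {4} → pos j F ≤ -(M : ℤ) + (j + 1)
  vp : ∀ j < K, ∀ F ∈ A (j + 1), F ∉ A j →
    τ j F ⊆ {5, 0} ∨ τ j F ⊆ {0, 1} ∨ τ j F ⊆ {1, 2} → -((j : ℤ) + 1) ≤ pos j F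
  vn : ∀ j < K, ∀ F ∈ A (j + 1), F ∉ A j →
    τ j F ⊆ {2, 3} ∨ τ j F ⊆ {3, 4} ∨ τ j F ⊆ {4, 5} → pos j F ≤ (j : ℤ) + 1

def BDStmt : Prop :=
  ∀ (K M : ℕ) [NeZero (6 * M)], K ≤ M → ∃ τ pos, BD K M (Aj (6 * M)) τ pos

/-! ### The finite model -/

/-- The vertices of the model. -/
abbrev MV : Type := Fin 6 ⊕ Fin 6 ⊕ Fin 3 ⊕ Fin 3 ⊕ Unit

def mX (T : Finset MV) : Finset (Fin 6) := pre (fun i => Sum.inl i) T
def mY (T : Finset MV) : Finset (Fin 6) := pre (fun i => Sum.inr (Sum.inl i)) T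
def mC (T : Finset MV) : Finset (Fin 3) := pre (fun i => Sum.inr (Sum.inr (Sum.inl i))) T
def mD (T : Finset MV) : Finset (Fin 3) := pre (fun i => Sum.inr (Sum.inr (Sum.inr (Sum.inl i)))) T
def mz : MV := Sum.inr (Sum.inr (Sum.inr (Sum.inr ())))

def G0 : Set (Finset MV) :=
  {T | mX T ∈ C6 ∧ mY T = ∅ ∧ mC T ≠ Finset.univ ∧ mD T = ∅ ∧ mz ∉ T}

def G1 : Set (Finset MV) :=
  {T | mX T = ∅ ∧ mY T ∈ C6 ∧ mC T = ∅ ∧ mD T ≠ Finset.univ ∧ mz ∉ T}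

/-- Arcs around the positive pole. -/
def ArcP (T : Finset (Fin 6)) : Prop := T ⊆ {5, 0} ∨ T ⊆ {0, 1} ∨ T ⊆ {1, 2}

/-- Arcs around the negative pole. -/
def ArcN (T : Finset (Fin 6)) : Prop := T ⊆ {2, 3} ∨ T ⊆ {3, 4} ∨ T ⊆ {4, 5}

def ModelStmt : Prop :=
  ∃ R : Set (Finset MV), Down R ∧
    (∀ T ∈ R, mX T ∈ C6 ∧ mY T ∈ C6 ∧ mC T ≠ Finset.univ ∧ mD T ≠ Finset.univ ∧ mz ∉ T ∧
      T.card ≤ 5) ∧
    RI (cone mz G0) (R ∪ cone mz G1) {T | mz ∉ T} ∧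
    ∀ T ∈ R, T.card = 5 → mX T ≠ ∅ ∧ mY T ≠ ∅ ∧ ∀ G ⊆ T, 4 ≤ G.card →
      (mX G = ∅ → G ∈ G1 ∨ mX T = {2} ∨ mX T = {5}) ∧
      (mY G = ∅ → G ∈ G0 ∨ mY T = {2} ∨ mY T = {5}) ∧
      (G ∈ G0 → (ArcP (mX T) ∧ (mY T = {0} ∨ mY T = {1})) ∨
        (ArcN (mX T) ∧ (mY T = {3} ∨ mY T = {4}))) ∧
      (G ∈ G1 → (ArcP (mY T) ∧ (mX T = {3} ∨ mX T = {4})) ∨
        (ArcN (mY T) ∧ (mX T = {0} ∨ mX T = {1})))

end Pool.Agent.MP_6a6613_co
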